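import Pool.Agent.X8.OH.Seq

/-!
# Order `h`: the analytic inequality
-/

set_option autoImplicit false

open Finset Filter Topology MeasureTheory

namespace Pool.Agent.X8.OH

open Pool.Agent.H303R3 (tup mem_tup fr Rn Rr)
open Pool.Agent.H303R3.ET (Mo)
open Pool.Agent.X8.ET (Fs cv co co_norm cv_co ca ca_nonneg ca_summable Fs_mul Fs_cont Fs_summable
  Fs_norm_le cv_summable parseval cs geo geo_summable Fs_geo kernel en en_norm w_summable Fs_sub)

/-- the representation function of order `h` -/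
noncomputable def rr (A : Set ℕ) (h n : ℕ) : ℝ := (Rn A (Mo (k := h)) n : ℝ)

/-- the defect -/
noncomputable def EE (A : Set ℕ) (h n : ℕ) : ℝ := h.factorial * rr A h n - tt A h n

theorem rr_nonneg (A : Set ℕ) (h n : ℕ) : 0 ≤ rr A h n := Nat.cast_nonneg _

theorem EE_nonneg (A : Set ℕ) (h n : ℕ) : 0 ≤ EE A h n := by
  have h1 := Pool.Agent.H303R3.ET.tup_le (k := h) A n
  have h2 : ((tup A h n).card : ℝ) ≤ h.factorial * Rn A (Mo (k := h)) n := by exact_mod_cast h1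
  unfold EE rr tt
  linarith

theorem EE_le (A : Set ℕ) {h K : ℕ} (hK : ∀ n, Rn A (Mo (k := h)) n ≤ K) (n : ℕ) :
    EE A h n ≤ h.factorial * K := by
  have h1 : (Rn A (Mo (k := h)) n : ℝ) ≤ K := by exact_mod_cast hK n
  have h2 := tt_nonneg A h n
  have h3 : (0 : ℝ) ≤ h.factorial := Nat.cast_nonneg _
  unfold EE rr
  nlinarith

theorem tt_le (A : Set ℕ) {h K : ℕ} (hK : ∀ n, Rn A (Mo (k := h)) n ≤ K) (n : ℕ) :
    (tup A h n).card ≤ h.factorial * K :=
  (Pool.Agent.H303R3.ET.tup_le (k := h) A n).trans (Nat.mul_le_mul_left _ (hK n))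

theorem EE_tsum (A : Set ℕ) (h : ℕ) {q : ℝ} (h0 : 0 ≤ q) (h1 : q < 1) (hf : 1 ≤ fr A q) :
    (Summable fun n => EE A h n * q ^ n) ∧
      ∑' n, EE A h n * q ^ n ≤ h.factorial * fr A q ^ (h - 1) := by
  classical
  have hs3 : ∀ σ : Equiv.Perm (Fin h), Summable fun n =>
      ‖PowerSeries.coeff n (Pool.Agent.H303R3.Fs A σ)‖ * q ^ n :=
    fun σ => Pool.Agent.H303R3.conv_Fs A σ q h0 h1
  have hs4 : HasSum (fun n => ∑ σ ∈ Finset.univ.erase (1 : Equiv.Perm (Fin h)),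
      ‖PowerSeries.coeff n (Pool.Agent.H303R3.Fs A σ)‖ * q ^ n)
      (∑ σ ∈ Finset.univ.erase (1 : Equiv.Perm (Fin h)),
      ∑' n, ‖PowerSeries.coeff n (Pool.Agent.H303R3.Fs A σ)‖ * q ^ n) :=
    hasSum_sum fun σ _ => (hs3 σ).hasSum
  have hpt : ∀ n, EE A h n * q ^ n = ∑ σ ∈ Finset.univ.erase (1 : Equiv.Perm (Fin h)),
      ‖PowerSeries.coeff n (Pool.Agent.H303R3.Fs A σ)‖ * q ^ n := by
    intro n
    have hb := Pool.Agent.H303R3.burnside A n (Mo (k := h)) (fun _ => 1)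
      Pool.Agent.H303R3.ET.hstab
    have hb' : (h.factorial : ℝ) * (Rn A (Mo (k := h)) n : ℝ) =
        ∑ σ : Equiv.Perm (Fin h), ‖PowerSeries.coeff n (Pool.Agent.H303R3.Fs A σ)‖ := by
      simp only [Pool.Agent.H303R3.ET.Fs_coeff_card]
      unfold Rn
      simp only [one_mul] at hb
      exact_mod_cast hb
    rw [← Finset.add_sum_erase Finset.univ _ (Finset.mem_univ (1 : Equiv.Perm (Fin h))),
      Pool.Agent.H303R3.coeff_Fs_one, Complex.norm_natCast] at hb'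
    rw [← Finset.sum_mul]
    congr 1
    unfold EE rr tt
    linarith
  have hs5 : HasSum (fun n => EE A h n * q ^ n)
      (∑ σ ∈ Finset.univ.erase (1 : Equiv.Perm (Fin h)),
      ∑' n, ‖PowerSeries.coeff n (Pool.Agent.H303R3.Fs A σ)‖ * q ^ n) := by
    simp_rw [hpt]
    exact hs4
  refine ⟨hs5.summable, ?_⟩
  rw [hs5.tsum_eq]
  calc ∑ σ ∈ Finset.univ.erase (1 : Equiv.Perm (Fin h)),
        ∑' n, ‖PowerSeries.coeff n (Pool.Agent.H303R3.Fs A σ)‖ * q ^ n
      ≤ ∑ _σ ∈ Finset.univ.erase (1 : Equiv.Perm (Fin h)), fr A q ^ (h - 1) := by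
        apply Finset.sum_le_sum
        intro σ hσ
        exact Pool.Agent.H303R3.ET.tsum_Fs A σ (Finset.ne_of_mem_erase hσ) h0 h1 hf
    _ = (Finset.univ.erase (1 : Equiv.Perm (Fin h))).card * fr A q ^ (h - 1) := by
        rw [Finset.sum_const, nsmul_eq_mul]
    _ ≤ h.factorial * fr A q ^ (h - 1) := by
        apply mul_le_mul_of_nonneg_right _ (pow_nonneg (Pool.Agent.H303R3.fr_nonneg A h0) _)
        have : (Finset.univ.erase (1 : Equiv.Perm (Fin h))).card ≤ h.factorial := by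
          refine (Finset.card_erase_le).trans (le_of_eq ?_)
          rw [Finset.card_univ, Fintype.card_perm, Fintype.card_fin]
        exact_mod_cast this

/-- the window sums of the representation function -/
noncomputable def Sr (A : Set ℕ) (h : ℕ) (w : ℕ → ℝ) (n : ℕ) : ℝ :=
  ∑ p ∈ antidiagonal n, w p.1 * rr A h p.2

theorem co_summable {u : ℕ → ℝ} (h : Summable fun n => ‖u n‖) : Summable fun n => ‖co u n‖ := by
  simp_rw [co_norm]
  exact h

/-- convolution of weighted sequences -/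
theorem cv_weight {u v s : ℕ → ℝ} {ρ : ℝ} (h : ∀ n, s n = ∑ p ∈ antidiagonal n, u p.1 * v p.2) :
    cv (co fun n => u n * ρ ^ n) (co fun n => v n * ρ ^ n) = co fun n => s n * ρ ^ n := by
  funext n
  rw [cv_co]
  unfold co
  congr 1
  show ∑ p ∈ antidiagonal n, (u p.1 * ρ ^ p.1) * (v p.2 * ρ ^ p.2) = s n * ρ ^ n
  rw [h, Finset.sum_mul]
  refine Finset.sum_congr rfl fun p hp => ?_
  rw [HasAntidiagonal.mem_antidiagonal] at hp
  rw [← hp, pow_add]
  ring

theorem Fs_pow (A : Set ℕ) {ρ : ℝ} (h0 : 0 ≤ ρ) (h1 : ρ < 1) {k K' : ℕ}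
    (hK : ∀ j, j ≤ k → ∀ n, (tup A j n).card ≤ K') (x : ℝ) (j : ℕ) (hj : j ≤ k) :
    Fs (co fun n => tt A j n * ρ ^ n) x = Fs (co fun n => ia A n * ρ ^ n) x ^ j := by
  have hb : ∀ j, j ≤ k → Summable fun n => ‖tt A j n * ρ ^ n‖ := fun j hj =>
    bdd_summable (B := K') (fun n => by
      rw [abs_of_nonneg (tt_nonneg _ _ _)]
      unfold tt
      exact_mod_cast hK j hj n) h0 h1
  induction j with
  | zero =>
    rw [pow_zero]
    unfold Fs
    rw [tsum_eq_single 0]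
    · unfold co
      simp only [tt_zero]
      unfold en Pool.Agent.W165.RS.ee
      simp
    · intro n hn
      unfold co
      simp only [tt_zero, if_neg hn, zero_mul]
      simp
  | succ j ih =>
    rw [pow_succ', ← ih (by omega), Fs_mul (co_summable (bdd_summable (ia_bdd A) h0 h1))
      (co_summable (hb j (by omega))), cv_weight (fun n => tt_succ A j n)]

/-- **The analytic inequality** of order `h = g + 2`. -/
theorem main_ineq (A : Set ℕ) (g K K' : ℕ) (hK : ∀ n, Rn A (Mo (k := g + 2)) n ≤ K)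
    (hK' : ∀ j, j ≤ g + 2 → ∀ n, (tup A j n).card ≤ K') (W : Finset ℕ) (w : ℕ → ℝ)
    (hw : ∀ k, 0 ≤ w k) (hW : ∀ k ∉ W, w k = 0) (t : ℝ) {ρ : ℝ} (h0 : 1 / 2 ≤ ρ) (h1 : ρ < 1)
    (hf : 1 ≤ fr A (ρ ^ 2)) :
    mo A w (g + 1) (ρ ^ 2) ≤
      (((g + 2).factorial : ℝ) * √(∑' n, (Sr A (g + 2) w n - t) ^ 2 * (ρ ^ 2) ^ n) +
        (∑ k ∈ W, w k) * √(((g + 2).factorial * K : ℝ) *
          ((g + 2).factorial * fr A (ρ ^ 2) ^ (g + 1)))) * √(mo A w g (ρ ^ 2)) +
      (g + 2).factorial * |t| * (∑ k ∈ W, w k) * fr A ρ ^ g * (4 * Real.log (2 / (1 - ρ))) := by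
  have hρ : 0 ≤ ρ := by linarith
  have hR0 : 0 ≤ ρ ^ 2 := by positivity
  have hR1 : ρ ^ 2 < 1 := by nlinarith
  have hK'' : (0 : ℝ) ≤ K' := Nat.cast_nonneg _
  obtain ⟨s, hs⟩ : ∃ s : ℝ, s = ∑ k ∈ W, w k := ⟨_, rfl⟩
  have hs0 : 0 ≤ s := hs ▸ Finset.sum_nonneg fun k _ => hw k
  obtain ⟨H, hH⟩ : ∃ H : ℝ, H = ((g + 2).factorial : ℝ) := ⟨_, rfl⟩
  have hH0 : 0 ≤ H := hH ▸ Nat.cast_nonneg _
  -- summability
  have sw : Summable fun n => ‖w n * ρ ^ n‖ := (w_summable hW ρ).norm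
  have sia : Summable fun n => ‖ia A n * ρ ^ n‖ := bdd_summable (ia_bdd A) hρ h1
  have stt : ∀ j, j ≤ g + 2 → Summable fun n => ‖tt A j n * ρ ^ n‖ := fun j hj =>
    bdd_summable (B := K') (fun n => by
      rw [abs_of_nonneg (tt_nonneg _ _ _)]
      unfold tt
      exact_mod_cast hK' j hj n) hρ h1
  have srr : Summable fun n => ‖rr A (g + 2) n * ρ ^ n‖ :=
    bdd_summable (B := K) (fun n => by
      rw [abs_of_nonneg (rr_nonneg _ _ _)]
      unfold rr
      exact_mod_cast hK n) hρ h1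
  have sEE : Summable fun n => ‖EE A (g + 2) n * ρ ^ n‖ :=
    bdd_summable (B := (g + 2).factorial * K) (fun n => by
      rw [abs_of_nonneg (EE_nonneg _ _ _)]
      exact EE_le A hK n) hρ h1
  have cw := co_summable sw
  have cia := co_summable sia
  have crr := co_summable srr
  have cEE := co_summable sEE
  have hgeo := geo_summable hρ h1
  -- functions
  obtain ⟨G, hG⟩ : ∃ G : ℝ → ℂ, G = Fs (co fun k => w k * ρ ^ k) := ⟨_, rfl⟩
  obtain ⟨F, hF⟩ : ∃ F : ℝ → ℂ, F = Fs (co fun k => ia A k * ρ ^ k) := ⟨_, rfl⟩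
  obtain ⟨R, hR⟩ : ∃ R : ℝ → ℂ, R = Fs (co fun k => rr A (g + 2) k * ρ ^ k) := ⟨_, rfl⟩
  obtain ⟨E, hE⟩ : ∃ E : ℝ → ℂ, E = Fs (co fun k => EE A (g + 2) k * ρ ^ k) := ⟨_, rfl⟩
  obtain ⟨P, hP⟩ : ∃ P : ℝ → ℂ, P = Fs (geo ρ) := ⟨_, rfl⟩
  have hGc : Continuous G := hG ▸ Fs_cont cw
  have hFc : Continuous F := hF ▸ Fs_cont cia
  have hRc : Continuous R := hR ▸ Fs_cont crr
  have hEc : Continuous E := hE ▸ Fs_cont cEE
  have hPc : Continuous P := hP ▸ Fs_cont hgeo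
  have hpow : ∀ j, j ≤ g + 2 → ∀ x, Fs (co fun n => tt A j n * ρ ^ n) x = F x ^ j := by
    intro j hj x
    rw [hF]
    exact Fs_pow A hρ h1 hK' x j hj
  have hGF : ∀ j, j ≤ g + 2 → ∀ x, Fs (co fun n => Sj A w j n * ρ ^ n) x = G x * F x ^ j := by
    intro j hj x
    rw [← hpow j hj x, hG, Fs_mul cw (co_summable (stt j hj)), cv_weight (fun n => rfl)]
    rfl
  have sSj : ∀ j, j ≤ g + 2 → Summable fun n => ‖co (fun n => Sj A w j n * ρ ^ n) n‖ := by
    intro j hj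
    have := cv_summable cw (co_summable (stt j hj))
    rw [cv_weight (s := Sj A w j) (fun n => rfl)] at this
    exact this
  have hmo : ∀ j, j ≤ g + 2 → ∫ x in (0:ℝ)..1, ‖G x * F x ^ j‖ ^ 2 = mo A w j (ρ ^ 2) := by
    intro j hj
    simp_rw [← hGF j hj]
    rw [parseval (sSj j hj)]
    unfold mo
    refine tsum_congr fun n => ?_
    rw [co_norm, sq_abs, mul_pow, ← pow_mul, ← pow_mul, mul_comm n 2]
  -- the representation function
  have hHR : ∀ x, (H : ℂ) * R x = F x ^ (g + 2) + E x := by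
    intro x
    have e1 : Fs (fun n => (H : ℂ) * co (fun k => rr A (g + 2) k * ρ ^ k) n) x = H * R x := by
      unfold Fs
      rw [hR]
      unfold Fs
      rw [← tsum_mul_left]
      exact tsum_congr fun n => by ring
    have sH : Summable fun n => ‖(H : ℂ) * co (fun k => rr A (g + 2) k * ρ ^ k) n‖ := by
      simp_rw [norm_mul]
      exact crr.mul_left _
    have e2 := Fs_sub sH (co_summable (stt (g + 2) le_rfl)) 1 x
    have e3 : (fun n => (H : ℂ) * co (fun k => rr A (g + 2) k * ρ ^ k) n -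
        1 * co (fun n => tt A (g + 2) n * ρ ^ n) n) = co fun k => EE A (g + 2) k * ρ ^ k := by
      funext n
      unfold co EE
      rw [hH]
      push_cast
      ring
    rw [e3, e1, hpow (g + 2) le_rfl, one_mul, ← hE] at e2
    rw [e2]
    ring
  -- the deviation
  obtain ⟨v, hv⟩ : ∃ v : ℕ → ℂ, v = fun n => co (fun n => Sr A (g + 2) w n * ρ ^ n) n -
    (t : ℂ) * geo ρ n := ⟨_, rfl⟩
  have sSr : Summable fun n => ‖co (fun n => Sr A (g + 2) w n * ρ ^ n) n‖ := by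
    have := cv_summable cw crr
    rw [cv_weight (s := Sr A (g + 2) w) (fun n => rfl)] at this
    exact this
  have svs : Summable fun n => ‖v n‖ := by
    rw [hv]
    refine Summable.of_nonneg_of_le (fun n => norm_nonneg _) (fun n => norm_sub_le _ _)
      (sSr.add ?_)
    simp_rw [norm_mul]
    exact hgeo.mul_left _
  obtain ⟨V, hV⟩ : ∃ V : ℝ → ℂ, V = Fs v := ⟨_, rfl⟩
  have hVc : Continuous V := hV ▸ Fs_cont svs
  have hVeq : ∀ x, V x = G x * R x - t * P x := by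
    intro x
    have e := cv_weight (u := w) (v := rr A (g + 2)) (s := Sr A (g + 2) w) (ρ := ρ) (fun n => rfl)
    rw [hV, hv, Fs_sub sSr hgeo, ← e, ← Fs_mul cw crr, hG, hR, hP]
  have hT : ∫ x in (0:ℝ)..1, ‖V x‖ ^ 2 = ∑' n, (Sr A (g + 2) w n - t) ^ 2 * (ρ ^ 2) ^ n := by
    rw [hV, parseval svs]
    refine tsum_congr fun n => ?_
    have : v n = (((Sr A (g + 2) w n - t) * ρ ^ n : ℝ) : ℂ) := by
      rw [hv]
      unfold co geo
      push_cast
      ring
    rw [this, Complex.norm_real, Real.norm_eq_abs, sq_abs, mul_pow, ← pow_mul, ← pow_mul,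
      mul_comm n 2]
  have hE2 : ∫ x in (0:ℝ)..1, ‖E x‖ ^ 2 ≤ (H * K) * (H * fr A (ρ ^ 2) ^ (g + 1)) := by
    rw [hE, parseval cEE]
    obtain ⟨e1, e2⟩ := EE_tsum A (g + 2) hR0 hR1 hf
    have e3 : ∀ n, ‖co (fun k => EE A (g + 2) k * ρ ^ k) n‖ ^ 2 ≤
        (H * K) * (EE A (g + 2) n * (ρ ^ 2) ^ n) := by
      intro n
      rw [co_norm, sq_abs, mul_pow, ← pow_mul, mul_comm n 2, pow_mul]
      have e4 := EE_nonneg A (g + 2) n
      have e5 := EE_le A hK n
      rw [← hH] at e5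
      have e6 : 0 ≤ (ρ ^ 2) ^ n := by positivity
      calc EE A (g + 2) n ^ 2 * (ρ ^ 2) ^ n = EE A (g + 2) n * (EE A (g + 2) n * (ρ ^ 2) ^ n) := by
            ring
        _ ≤ _ := mul_le_mul_of_nonneg_right e5 (by positivity)
    have e7 : Summable fun n => ‖co (fun k => EE A (g + 2) k * ρ ^ k) n‖ ^ 2 :=
      Summable.of_nonneg_of_le (fun n => by positivity) e3 (e1.mul_left _)
    refine (Summable.tsum_le_tsum e3 e7 (e1.mul_left _)).trans ?_
    rw [tsum_mul_left]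
    refine mul_le_mul_of_nonneg_left ?_ (mul_nonneg hH0 (Nat.cast_nonneg _))
    rw [hH]
    exact e2
  -- pointwise bounds
  have hGle : ∀ x, ‖G x‖ ≤ s := by
    intro x
    rw [hG]
    refine (Fs_norm_le cw x).trans ?_
    simp_rw [co_norm]
    rw [tsum_eq_sum (s := W) fun k hk => by rw [hW k hk, zero_mul, abs_zero], hs]
    refine Finset.sum_le_sum fun k _ => ?_
    rw [abs_of_nonneg (mul_nonneg (hw k) (by positivity))]
    exact mul_le_of_le_one_right (hw k) (pow_le_one₀ hρ h1.le)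
  have hFle : ∀ x, ‖F x‖ ≤ fr A ρ := by
    intro x
    rw [hF]
    refine (Fs_norm_le cia x).trans (le_of_eq ?_)
    rw [← ia_tsum]
    refine tsum_congr fun n => ?_
    rw [co_norm, abs_of_nonneg (mul_nonneg (ia_nonneg _ _) (by positivity))]
  have hfr0 : 0 ≤ fr A ρ := Pool.Agent.H303R3.fr_nonneg A hρ
  have hpt : ∀ x, ‖G x * F x ^ (g + 1)‖ ^ 2 ≤ H * (‖V x‖ * ‖G x * F x ^ g‖) +
      s * (‖E x‖ * ‖G x * F x ^ g‖) + H * |t| * s * fr A ρ ^ g * ‖P x‖ := by
    intro x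
    have e1 : G x * F x ^ (g + 2) = H * (V x + t * P x) - G x * E x := by
      have := hHR x
      have e2 : F x ^ (g + 2) = H * R x - E x := by rw [this]; ring
      rw [e2, hVeq]
      ring
    have e2 : ‖G x * F x ^ (g + 2)‖ ≤ H * ‖V x‖ + H * |t| * ‖P x‖ + s * ‖E x‖ := by
      rw [e1]
      refine (norm_sub_le _ _).trans ?_
      rw [norm_mul, Complex.norm_real, Real.norm_of_nonneg hH0]
      have e3 : ‖V x + t * P x‖ ≤ ‖V x‖ + |t| * ‖P x‖ := by
        refine (norm_add_le _ _).trans (le_of_eq ?_)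
        rw [norm_mul, Complex.norm_real, Real.norm_eq_abs]
      have e4 : ‖G x * E x‖ ≤ s * ‖E x‖ := by
        rw [norm_mul]
        exact mul_le_mul_of_nonneg_right (hGle x) (norm_nonneg _)
      have e5 := mul_le_mul_of_nonneg_left e3 hH0
      linarith
    have e3 : ‖G x * F x ^ (g + 1)‖ ^ 2 = ‖G x * F x ^ (g + 2)‖ * ‖G x * F x ^ g‖ := by
      simp only [norm_mul, norm_pow]
      ring
    rw [e3]
    have e4 : ‖G x * F x ^ g‖ ≤ s * fr A ρ ^ g := by
      rw [norm_mul, norm_pow]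
      exact mul_le_mul (hGle x) (pow_le_pow_left₀ (norm_nonneg _) (hFle x) g) (by positivity) hs0
    have e5 := mul_le_mul_of_nonneg_right e2 (norm_nonneg (G x * F x ^ g))
    refine e5.trans ?_
    have e6 : H * |t| * ‖P x‖ * ‖G x * F x ^ g‖ ≤ H * |t| * ‖P x‖ * (s * fr A ρ ^ g) :=
      mul_le_mul_of_nonneg_left e4 (by positivity)
    linarith
  have hint : ∫ x in (0:ℝ)..1, ‖G x * F x ^ (g + 1)‖ ^ 2 ≤
      ∫ x in (0:ℝ)..1, (H * (‖V x‖ * ‖G x * F x ^ g‖) +
      s * (‖E x‖ * ‖G x * F x ^ g‖) + H * |t| * s * fr A ρ ^ g * ‖P x‖) := by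
    refine intervalIntegral.integral_mono_on zero_le_one ?_ ?_ fun x _ => hpt x
    · apply Continuous.intervalIntegrable
      fun_prop
    · apply Continuous.intervalIntegrable
      fun_prop
  rw [hmo (g + 1) (by omega), intervalIntegral.integral_add, intervalIntegral.integral_add,
    intervalIntegral.integral_const_mul, intervalIntegral.integral_const_mul,
    intervalIntegral.integral_const_mul] at hint
  rotate_left
  · apply Continuous.intervalIntegrable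
    fun_prop
  · apply Continuous.intervalIntegrable
    fun_prop
  · apply Continuous.intervalIntegrable
    fun_prop
  · apply Continuous.intervalIntegrable
    fun_prop
  have c1 : ∫ x in (0:ℝ)..1, ‖V x‖ * ‖G x * F x ^ g‖ ≤
      √(∑' n, (Sr A (g + 2) w n - t) ^ 2 * (ρ ^ 2) ^ n) * √(mo A w g (ρ ^ 2)) := by
    rw [← Real.sqrt_mul (tsum_nonneg fun n => by positivity)]
    apply Real.le_sqrt_of_sq_le
    have h5 := cs (f := fun x => ‖V x‖) (g := fun x => ‖G x * F x ^ g‖) hVc.norm (by fun_prop)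
    rw [hT, hmo g (by omega)] at h5
    exact h5
  have c2 : ∫ x in (0:ℝ)..1, ‖E x‖ * ‖G x * F x ^ g‖ ≤
      √((H * K) * (H * fr A (ρ ^ 2) ^ (g + 1))) * √(mo A w g (ρ ^ 2)) := by
    have hf0 : 0 ≤ fr A (ρ ^ 2) := by linarith
    rw [← Real.sqrt_mul (by positivity)]
    apply Real.le_sqrt_of_sq_le
    have h5 := cs (f := fun x => ‖E x‖) (g := fun x => ‖G x * F x ^ g‖) hEc.norm (by fun_prop)
    rw [hmo g (by omega)] at h5
    exact h5.trans (mul_le_mul_of_nonneg_right hE2 (mo_nonneg A w g hR0))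
  have c3 := kernel h0 h1
  rw [← hP] at c3
  have d1 := mul_le_mul_of_nonneg_left c1 hH0
  have d2 := mul_le_mul_of_nonneg_left c2 hs0
  have d3 := mul_le_mul_of_nonneg_left c3 (show 0 ≤ H * |t| * s * fr A ρ ^ g by positivity)
  rw [← hs, ← hH]
  have e : (H * √(∑' n, (Sr A (g + 2) w n - t) ^ 2 * (ρ ^ 2) ^ n) +
      s * √(H * K * (H * fr A (ρ ^ 2) ^ (g + 1)))) * √(mo A w g (ρ ^ 2)) =
      H * (√(∑' n, (Sr A (g + 2) w n - t) ^ 2 * (ρ ^ 2) ^ n) * √(mo A w g (ρ ^ 2))) +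
      s * (√(H * K * (H * fr A (ρ ^ 2) ^ (g + 1))) * √(mo A w g (ρ ^ 2))) := by ring
  rw [e]
  linarith

end Pool.Agent.X8.OH
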