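import Pool.Agent.X8.ET.Fou

/-!
# A small ball inequality for trigonometric polynomials with few terms
-/

set_option autoImplicit false

open Finset Filter Topology MeasureTheory

namespace Pool.Agent.X8.OH

open Pool.Agent.X8.ET (en en_norm en_mul cs)

/-- trigonometric polynomial -/
noncomputable def tp (W : Finset ℕ) (b : ℕ → ℂ) (x : ℝ) : ℂ := ∑ k ∈ W, b k * en k x

theorem en_eq (k : ℕ) (x : ℝ) : en k x = Complex.exp (((2 * Real.pi * k * x : ℝ) : ℂ) * Complex.I) := by
  unfold en Pool.Agent.W165.RS.ee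
  congr 1
  push_cast
  ring

theorem en_add (k : ℕ) (x y : ℝ) : en k (x + y) = en k x * en k y := by
  rw [en_eq, en_eq, en_eq, ← Complex.exp_add]
  congr 1
  push_cast
  ring

theorem en_per (k : ℕ) : Function.Periodic (en k) 1 := by
  intro x
  rw [en_add]
  have : en k 1 = 1 := by
    rw [en_eq, Complex.exp_eq_one_iff]
    exact ⟨k, by push_cast; ring⟩
  rw [this, mul_one]

theorem en_cont (k : ℕ) : Continuous (en k) := by
  have : en k = fun x => Complex.exp (((2 * Real.pi * k * x : ℝ) : ℂ) * Complex.I) := by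
    funext x; exact en_eq k x
  rw [this]
  fun_prop

theorem tp_cont (W : Finset ℕ) (b : ℕ → ℂ) : Continuous (tp W b) := by
  unfold tp
  exact continuous_finsetSum _ fun k _ => continuous_const.mul (en_cont k)

theorem tp_per (W : Finset ℕ) (b : ℕ → ℂ) : Function.Periodic (tp W b) 1 := by
  intro x
  unfold tp
  exact Finset.sum_congr rfl fun k _ => by rw [en_per k x]

/-- translation invariance -/
theorem int_shift {ψ : ℝ → ℝ} (hp : Function.Periodic ψ 1) (y : ℝ) :
    ∫ x in (0:ℝ)..1, ψ (x + y) = ∫ x in (0:ℝ)..1, ψ x := by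
  rw [intervalIntegral.integral_comp_add_right (fun x => ψ x)]
  have := hp.intervalIntegral_add_eq y 0
  rw [zero_add] at this
  rw [zero_add, add_comm 1 y]
  exact this

/-- two of many translates overlap -/
theorem pigeon {φ : ℝ → ℝ} (hc : Continuous φ) (hp : Function.Periodic φ 1) (h0 : ∀ x, 0 ≤ φ x)
    (h1 : ∀ x, φ x ≤ 1) {δ : ℝ} (hδ : 0 < δ) (hφ : δ ≤ ∫ x in (0:ℝ)..1, φ x) {m : ℕ}
    (hm : 2 / δ ^ 2 ≤ m) (y : ℕ → ℝ) :
    ∃ i < m, ∃ i' < m, i' < i ∧ δ ^ 2 / 2 ≤ ∫ x in (0:ℝ)..1, φ (x + y i) * φ (x + y i') := by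
  by_contra hcon
  push Not at hcon
  have hδ2 : 0 < δ ^ 2 := by positivity
  have hm0 : (0 : ℝ) < m := lt_of_lt_of_le (by positivity) hm
  obtain ⟨g, hg⟩ : ∃ g : ℝ → ℝ, g = fun x => ∑ i ∈ range m, φ (x + y i) := ⟨_, rfl⟩
  have hgc : Continuous g := by
    rw [hg]
    exact continuous_finsetSum _ fun i _ => by fun_prop
  have e1 : ∫ x in (0:ℝ)..1, g x = m * ∫ x in (0:ℝ)..1, φ x := by
    rw [hg]
    rw [intervalIntegral.integral_finsetSum]
    · simp_rw [int_shift hp]
      rw [Finset.sum_const, card_range, nsmul_eq_mul]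
    · intro i _
      apply Continuous.intervalIntegrable
      fun_prop
  have e2 : ∫ x in (0:ℝ)..1, g x ^ 2 = ∑ i ∈ range m, ∑ i' ∈ range m,
      ∫ x in (0:ℝ)..1, φ (x + y i) * φ (x + y i') := by
    have : ∀ x, g x ^ 2 = ∑ i ∈ range m, ∑ i' ∈ range m, φ (x + y i) * φ (x + y i') := by
      intro x
      rw [hg, sq]
      exact Finset.sum_mul_sum _ _ _ _
    simp_rw [this]
    rw [intervalIntegral.integral_finsetSum]
    · refine Finset.sum_congr rfl fun i _ => ?_
      rw [intervalIntegral.integral_finsetSum]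
      intro i' _
      apply Continuous.intervalIntegrable
      fun_prop
    · intro i _
      apply Continuous.intervalIntegrable
      exact continuous_finsetSum _ fun i' _ => by fun_prop
  have e3 : ∀ i ∈ range m, ∑ i' ∈ range m, ∫ x in (0:ℝ)..1, φ (x + y i) * φ (x + y i') ≤
      ∑ i' ∈ range m, ((if i' = i then (1 - δ ^ 2 / 2 : ℝ) else 0) + δ ^ 2 / 2) := by
    intro i hi
    refine Finset.sum_le_sum fun i' hi' => ?_
    rw [mem_range] at hi hi'
    rcases lt_trichotomy i' i with h | h | h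
    · have := hcon i hi i' hi' h
      rw [if_neg h.ne]
      linarith
    · rw [if_pos h]
      have : ∫ x in (0:ℝ)..1, φ (x + y i) * φ (x + y i') ≤ ∫ x in (0:ℝ)..1, (1 : ℝ) := by
        refine intervalIntegral.integral_mono_on zero_le_one ?_ ?_ fun x _ => ?_
        · apply Continuous.intervalIntegrable
          fun_prop
        · exact intervalIntegrable_const
        · exact mul_le_one₀ (h1 _) (h0 _) (h1 _)
      simp only [intervalIntegral.integral_const, sub_zero, smul_eq_mul, mul_one] at this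
      linarith
    · have := hcon i' hi' i hi h
      rw [if_neg h.ne']
      simp_rw [mul_comm (φ (_ + y i))]
      linarith
  have e4 : ∫ x in (0:ℝ)..1, g x ^ 2 ≤ m * (1 - δ ^ 2 / 2) + m ^ 2 * (δ ^ 2 / 2) := by
    rw [e2]
    refine (Finset.sum_le_sum e3).trans (le_of_eq ?_)
    simp_rw [Finset.sum_add_distrib, Finset.sum_const, card_range, nsmul_eq_mul]
    have : ∑ i ∈ range m, ∑ i' ∈ range m, (if i' = i then (1 - δ ^ 2 / 2 : ℝ) else 0) =
        m * (1 - δ ^ 2 / 2) := by
      have : ∀ i ∈ range m, ∑ i' ∈ range m, (if i' = i then (1 - δ ^ 2 / 2 : ℝ) else 0) =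
          1 - δ ^ 2 / 2 := by
        intro i hi
        rw [Finset.sum_ite_eq' (range m) i (fun _ => (1 - δ ^ 2 / 2 : ℝ)), if_pos hi]
      rw [Finset.sum_congr rfl this, Finset.sum_const, card_range, nsmul_eq_mul]
    rw [this]
    ring
  have e5 := cs (f := g) (g := fun _ => 1) hgc continuous_const
  simp only [mul_one, one_pow, intervalIntegral.integral_const, sub_zero, smul_eq_mul] at e5
  rw [e1] at e5
  have e6 : (m * δ) ^ 2 ≤ (m * ∫ x in (0:ℝ)..1, φ x) ^ 2 :=
    pow_le_pow_left₀ (by positivity) (mul_le_mul_of_nonneg_left hφ hm0.le) 2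
  have e7 : (m : ℝ) ≤ m ^ 2 * (δ ^ 2 / 2) := by
    rw [div_le_iff₀ hδ2] at hm
    nlinarith
  have e8 : (m * δ) ^ 2 = 2 * (m ^ 2 * (δ ^ 2 / 2)) := by ring
  have e9 : 0 < m * (δ ^ 2 / 2) := by positivity
  linarith

/-- the difference of two points on the circle -/
theorem circ_sub (α β : ℝ) : ‖Complex.exp ((α : ℂ) * Complex.I) - Complex.exp ((β : ℂ) * Complex.I)‖ =
    2 * |Real.sin ((α - β) / 2)| := by
  have h1 : Complex.exp ((α : ℂ) * Complex.I) - Complex.exp ((β : ℂ) * Complex.I) =
      Complex.exp ((β : ℂ) * Complex.I) * (Complex.exp (Complex.I * ((α - β : ℝ) : ℂ)) - 1) := by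
    rw [mul_sub, ← Complex.exp_add, mul_one]
    congr 2
    push_cast
    ring
  rw [h1, norm_mul, Complex.norm_exp_ofReal_mul_I, one_mul, Complex.norm_exp_I_mul_ofReal_sub_one,
    norm_mul, Real.norm_eq_abs, Real.norm_eq_abs]
  norm_num

theorem sin_ge {m i i' : ℕ} (hi : i < m) (h : i' < i) :
    2 / (m : ℝ) ≤ |Real.sin (Real.pi * (((i : ℝ) - i') / m))| := by
  have hm0 : (0 : ℝ) < m := by exact_mod_cast (by omega : 0 < m)
  have hpi := Real.pi_pos
  have e1 : (1 : ℝ) ≤ (i : ℝ) - i' := by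
    have : (i' : ℝ) + 1 ≤ i := by exact_mod_cast h
    linarith
  have e2 : (i : ℝ) - i' ≤ m - 1 := by
    have h1 : (i : ℝ) + 1 ≤ m := by exact_mod_cast hi
    have h2 : (0 : ℝ) ≤ i' := Nat.cast_nonneg _
    linarith
  refine le_trans ?_ (le_abs_self _)
  obtain ⟨t, ht⟩ : ∃ t : ℝ, t = ((i : ℝ) - i') / m := ⟨_, rfl⟩
  have t1 : 1 / (m : ℝ) ≤ t := by rw [ht]; exact div_le_div_of_nonneg_right e1 hm0.le
  have t2 : t ≤ 1 - 1 / (m : ℝ) := by
    rw [ht, div_le_iff₀ hm0]
    have : (1 - 1 / (m : ℝ)) * m = m - 1 := by field_simp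
    linarith
  have hm1 : 0 < 1 / (m : ℝ) := by positivity
  rw [← ht]
  have hs : ∀ y : ℝ, 0 ≤ y → y ≤ 1 / 2 → 2 * y ≤ Real.sin (Real.pi * y) := by
    intro y hy0 hy1
    have := Real.mul_le_sin (x := Real.pi * y) (by positivity) (by nlinarith)
    calc 2 * y = 2 / Real.pi * (Real.pi * y) := by field_simp
      _ ≤ _ := this
  rcases le_total t (1 / 2) with h | h
  · have := hs t (by linarith) h
    have e : 2 / (m : ℝ) = 2 * (1 / m) := by ring
    rw [e]
    linarith
  · have := hs (1 - t) (by linarith) (by linarith)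
    have h7 : Real.sin (Real.pi * (1 - t)) = Real.sin (Real.pi * t) := by
      rw [show Real.pi * (1 - t) = Real.pi - Real.pi * t by ring, Real.sin_pi_sub]
    rw [h7] at this
    have e : 2 / (m : ℝ) = 2 * (1 / m) := by ring
    rw [e]
    linarith

/-- separation of the frequencies -/
theorem sep {κ j m i i' : ℕ} (hκ : κ ≠ j) (hi : i < m) (h : i' < i) (y : ℕ → ℝ)
    (hy : y = fun i : ℕ => (i : ℝ) / (m * |(κ : ℝ) - j|)) :
    4 / (m : ℝ) ≤ ‖en κ (y i) * en j (y i') - en κ (y i') * en j (y i)‖ := by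
  have hm0 : (0 : ℝ) < m := by exact_mod_cast (by omega : 0 < m)
  have hd : (κ : ℝ) - j ≠ 0 := by
    rw [sub_ne_zero]
    exact_mod_cast hκ
  have hd0 : 0 < |(κ : ℝ) - j| := abs_pos.2 hd
  simp only [en_eq]
  rw [← Complex.exp_add, ← Complex.exp_add, ← add_mul, ← add_mul, ← Complex.ofReal_add,
    ← Complex.ofReal_add, circ_sub]
  have e1 : (2 * Real.pi * κ * y i + 2 * Real.pi * j * y i' -
      (2 * Real.pi * κ * y i' + 2 * Real.pi * j * y i)) / 2 =
      Real.pi * (((κ : ℝ) - j) * (y i - y i')) := by ring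
  have e2 : ((κ : ℝ) - j) * (y i - y i') = (κ - j) / |(κ : ℝ) - j| * (((i : ℝ) - i') / m) := by
    rw [hy]
    field_simp
  rw [e1, e2]
  have e3 : |Real.sin (Real.pi * ((κ - j) / |(κ : ℝ) - j| * (((i : ℝ) - i') / m)))| =
      |Real.sin (Real.pi * (((i : ℝ) - i') / m))| := by
    rcases lt_or_gt_of_ne hd with h | h
    · rw [abs_of_neg h, div_neg, div_self hd]
      rw [show Real.pi * (-1 * (((i : ℝ) - i') / m)) = -(Real.pi * (((i : ℝ) - i') / m)) by ring,
        Real.sin_neg, abs_neg]
    · rw [abs_of_pos h, div_self hd, one_mul]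
  rw [e3]
  have := sin_ge hi h
  have e4 : 4 / (m : ℝ) = 2 * (2 / m) := by ring
  rw [e4]
  linarith

/-- **Small ball inequality**: a trigonometric polynomial with few terms has a large mean value
with respect to every density. -/
theorem small_ball (n : ℕ) : ∀ δ : ℝ, 0 < δ → ∃ c : ℝ, 0 < c ∧ ∀ φ : ℝ → ℝ, Continuous φ →
    Function.Periodic φ 1 → (∀ x, 0 ≤ φ x) → (∀ x, φ x ≤ 1) → δ ≤ ∫ x in (0:ℝ)..1, φ x →
    ∀ W : Finset ℕ, W.card ≤ n → ∀ b : ℕ → ℂ, ∀ κ ∈ W,
      c * ‖b κ‖ ≤ ∫ x in (0:ℝ)..1, φ x * ‖tp W b x‖ := by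
  induction n with
  | zero =>
    intro δ hδ
    refine ⟨1, one_pos, fun φ _ _ _ _ _ W hW b κ hκ => ?_⟩
    rw [Nat.le_zero, Finset.card_eq_zero] at hW
    rw [hW] at hκ
    simp at hκ
  | succ n ih =>
    intro δ hδ
    obtain ⟨c', hc', hc⟩ := ih (δ ^ 2 / 2) (by positivity)
    obtain ⟨m, hm⟩ := exists_nat_ge (2 / δ ^ 2)
    have hm0 : (0 : ℝ) < m := lt_of_lt_of_le (by positivity) hm
    refine ⟨min δ (c' * (4 / m) / 2), lt_min hδ (by positivity), ?_⟩
    intro φ hφc hp h0 h1 hφ W hW b κ hκ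
    have hqc : Continuous (tp W b) := tp_cont W b
    by_cases hsing : ∀ j ∈ W, j = κ
    · have hWs : W = {κ} := by
        ext j
        rw [mem_singleton]
        exact ⟨fun hj => hsing j hj, fun hj => hj ▸ hκ⟩
      have e1 : ∀ x, φ x * ‖tp W b x‖ = φ x * ‖b κ‖ := by
        intro x
        rw [hWs]
        unfold tp
        rw [sum_singleton, norm_mul, en_norm, mul_one]
      simp_rw [e1]
      rw [intervalIntegral.integral_mul_const]
      exact mul_le_mul_of_nonneg_right ((min_le_left _ _).trans hφ) (norm_nonneg _)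
    · push Not at hsing
      obtain ⟨j, hj, hjκ⟩ := hsing
      obtain ⟨y, hy⟩ : ∃ y : ℕ → ℝ, y = fun i : ℕ => (i : ℝ) / (m * |(κ : ℝ) - j|) := ⟨_, rfl⟩
      obtain ⟨i, hi, i', hi', hii, hI⟩ := pigeon hφc hp h0 h1 hδ hφ hm y
      have hsep := sep (Ne.symm hjκ) hi hii y hy
      obtain ⟨b', hb'⟩ : ∃ b' : ℕ → ℂ, b' = fun k =>
        b k * (en k (y i) * en j (y i') - en k (y i') * en j (y i)) := ⟨_, rfl⟩
      have hq1 : ∀ x, tp (W.erase j) b' x =
          tp W b (x + y i) * en j (y i') - tp W b (x + y i') * en j (y i) := by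
        intro x
        have e1 : tp (W.erase j) b' x = tp W b' x := by
          unfold tp
          rw [← Finset.add_sum_erase W _ hj]
          have : b' j = 0 := by
            rw [hb']
            show b j * (en j (y i) * en j (y i') - en j (y i') * en j (y i)) = 0
            ring
          rw [this, zero_mul, zero_add]
        rw [e1]
        unfold tp
        rw [Finset.sum_mul, Finset.sum_mul, ← Finset.sum_sub_distrib]
        refine Finset.sum_congr rfl fun k _ => ?_
        rw [hb', en_add, en_add]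
        ring
      have hle : ∫ x in (0:ℝ)..1, (φ (x + y i) * φ (x + y i')) * ‖tp (W.erase j) b' x‖ ≤
          2 * ∫ x in (0:ℝ)..1, φ x * ‖tp W b x‖ := by
        have e1 : ∀ x, (φ (x + y i) * φ (x + y i')) * ‖tp (W.erase j) b' x‖ ≤
            φ (x + y i) * ‖tp W b (x + y i)‖ + φ (x + y i') * ‖tp W b (x + y i')‖ := by
          intro x
          rw [hq1]
          have e2 : ‖tp W b (x + y i) * en j (y i') - tp W b (x + y i') * en j (y i)‖ ≤
              ‖tp W b (x + y i)‖ + ‖tp W b (x + y i')‖ := by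
            refine (norm_sub_le _ _).trans (le_of_eq ?_)
            rw [norm_mul, norm_mul, en_norm, en_norm, mul_one, mul_one]
          have a1 := h0 (x + y i)
          have a2 := h0 (x + y i')
          have a3 := h1 (x + y i)
          have a4 := h1 (x + y i')
          have a5 : φ (x + y i) * φ (x + y i') ≤ φ (x + y i) := mul_le_of_le_one_right a1 a4
          have a6 : φ (x + y i) * φ (x + y i') ≤ φ (x + y i') := mul_le_of_le_one_left a2 a3
          have a7 := mul_le_mul_of_nonneg_left e2 (mul_nonneg a1 a2)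
          have a8 := mul_le_mul_of_nonneg_right a5 (norm_nonneg (tp W b (x + y i)))
          have a9 := mul_le_mul_of_nonneg_right a6 (norm_nonneg (tp W b (x + y i')))
          linarith
        have hper : Function.Periodic (fun x => φ x * ‖tp W b x‖) 1 := by
          intro x
          show φ (x + 1) * ‖tp W b (x + 1)‖ = φ x * ‖tp W b x‖
          rw [hp x, tp_per W b x]
        have e3 : ∫ x in (0:ℝ)..1, (φ (x + y i) * φ (x + y i')) * ‖tp (W.erase j) b' x‖ ≤
            ∫ x in (0:ℝ)..1, (φ (x + y i) * ‖tp W b (x + y i)‖ +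
              φ (x + y i') * ‖tp W b (x + y i')‖) := by
          refine intervalIntegral.integral_mono_on zero_le_one ?_ ?_ fun x _ => e1 x
          · apply Continuous.intervalIntegrable
            have := tp_cont (W.erase j) b'
            fun_prop
          · apply Continuous.intervalIntegrable
            fun_prop
        rw [intervalIntegral.integral_add] at e3
        · have e4 := int_shift hper (y i)
          have e5 := int_shift hper (y i')
          rw [e4, e5] at e3
          linarith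
        · apply Continuous.intervalIntegrable
          fun_prop
        · apply Continuous.intervalIntegrable
          fun_prop
      have hper2 : Function.Periodic (fun x => φ (x + y i) * φ (x + y i')) 1 := by
        intro x
        show φ (x + 1 + y i) * φ (x + 1 + y i') = φ (x + y i) * φ (x + y i')
        rw [show x + 1 + y i = (x + y i) + 1 by ring, show x + 1 + y i' = (x + y i') + 1 by ring,
          hp, hp]
      have hcard : (W.erase j).card ≤ n := by
        rw [Finset.card_erase_of_mem hj]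
        omega
      have hmain := hc (fun x => φ (x + y i) * φ (x + y i')) (by fun_prop) hper2
        (fun x => mul_nonneg (h0 _) (h0 _)) (fun x => mul_le_one₀ (h1 _) (h0 _) (h1 _)) hI
        (W.erase j) hcard b' κ (Finset.mem_erase.2 ⟨Ne.symm hjκ, hκ⟩)
      have e6 : ‖b' κ‖ = ‖b κ‖ * ‖en κ (y i) * en j (y i') - en κ (y i') * en j (y i)‖ := by
        rw [hb', norm_mul]
      rw [e6] at hmain
      have e7 : c' * (4 / m) / 2 * ‖b κ‖ ≤ ∫ x in (0:ℝ)..1, φ x * ‖tp W b x‖ := by
        have e8 : c' * (‖b κ‖ * (4 / m)) ≤ c' * (‖b κ‖ *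
            ‖en κ (y i) * en j (y i') - en κ (y i') * en j (y i)‖) :=
          mul_le_mul_of_nonneg_left (mul_le_mul_of_nonneg_left hsep (norm_nonneg _)) hc'.le
        have e9 : c' * (4 / m) / 2 * ‖b κ‖ = c' * (‖b κ‖ * (4 / m)) / 2 := by ring
        rw [e9]
        linarith
      exact (mul_le_mul_of_nonneg_right (min_le_right _ _) (norm_nonneg _)).trans e7

end Pool.Agent.X8.OH
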