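import Pool.Agent.X8.OH.Ball

/-!
# The small ball inequality with polynomial dependence on the mass of the density
-/

set_option autoImplicit false

open Finset Filter Topology MeasureTheory

namespace Pool.Agent.X8.OH

open Pool.Agent.X8.ET (en en_norm en_mul cs)

/-- **Small ball inequality**: a trigonometric polynomial with few terms has a large mean value
with respect to every density. -/
theorem small_ball_poly (n : ℕ) : ∃ c : ℝ, 0 < c ∧ ∃ e : ℕ, ∀ δ : ℝ, 0 < δ → δ ≤ 1 →
    ∀ φ : ℝ → ℝ, Continuous φ →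
    Function.Periodic φ 1 → (∀ x, 0 ≤ φ x) → (∀ x, φ x ≤ 1) → δ ≤ ∫ x in (0:ℝ)..1, φ x →
    ∀ W : Finset ℕ, W.card ≤ n → ∀ b : ℕ → ℂ, ∀ κ ∈ W,
      c * δ ^ e * ‖b κ‖ ≤ ∫ x in (0:ℝ)..1, φ x * ‖tp W b x‖ := by
  induction n with
  | zero =>
    refine ⟨1, one_pos, 0, fun δ _ _ φ _ _ _ _ _ W hW b κ hκ => ?_⟩
    rw [Nat.le_zero, Finset.card_eq_zero] at hW
    rw [hW] at hκ
    simp at hκ
  | succ n ih =>
    obtain ⟨c₁, hc₁, e₁, ih⟩ := ih
    refine ⟨min 1 (c₁ * (1 / 2) ^ e₁ * (2 / 3)), lt_min one_pos (by positivity), 2 * e₁ + 2, ?_⟩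
    intro δ hδ hδ1 φ hφc hp h0 h1 hφ W hW b κ hκ
    have hδsq : δ ^ 2 ≤ 1 := pow_le_one₀ hδ.le hδ1
    have hc := ih (δ ^ 2 / 2) (by positivity) (by linarith)
    obtain ⟨c', hc'e⟩ : ∃ c' : ℝ, c' = c₁ * (δ ^ 2 / 2) ^ e₁ := ⟨_, rfl⟩
    have hc' : 0 < c' := by rw [hc'e]; positivity
    rw [← hc'e] at hc
    obtain ⟨m, hme⟩ : ∃ m : ℕ, m = ⌈2 / δ ^ 2⌉₊ := ⟨_, rfl⟩
    have hm : 2 / δ ^ 2 ≤ m := by rw [hme]; exact Nat.le_ceil _
    have hm0 : (0 : ℝ) < m := lt_of_lt_of_le (by positivity) hm
    have hm3 : (m : ℝ) ≤ 3 / δ ^ 2 := by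
      have h2 := Nat.ceil_lt_add_one (show 0 ≤ 2 / δ ^ 2 by positivity)
      rw [← hme] at h2
      have h3 : (1 : ℝ) ≤ 1 / δ ^ 2 := by
        rw [le_div_iff₀ (by positivity), one_mul]
        exact hδsq
      have h4 : 3 / δ ^ 2 = 2 / δ ^ 2 + 1 / δ ^ 2 := by ring
      linarith
    have hkey : min 1 (c₁ * (1 / 2) ^ e₁ * (2 / 3)) * δ ^ (2 * e₁ + 2) ≤
        min δ (c' * (4 / m) / 2) := by
      apply le_min
      · calc min 1 (c₁ * (1 / 2) ^ e₁ * (2 / 3)) * δ ^ (2 * e₁ + 2) ≤ 1 * δ ^ (2 * e₁ + 2) :=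
              mul_le_mul_of_nonneg_right (min_le_left _ _) (by positivity)
          _ = δ ^ (2 * e₁ + 2) := one_mul _
          _ ≤ δ ^ 1 := pow_le_pow_of_le_one hδ.le hδ1 (by omega)
          _ = δ := pow_one δ
      · have h2 : δ ^ 2 / 3 ≤ 1 / m := by
          rw [div_le_div_iff₀ (by norm_num) hm0]
          rw [le_div_iff₀ (by positivity)] at hm3
          linarith
        calc min 1 (c₁ * (1 / 2) ^ e₁ * (2 / 3)) * δ ^ (2 * e₁ + 2) ≤
              (c₁ * (1 / 2) ^ e₁ * (2 / 3)) * δ ^ (2 * e₁ + 2) :=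
              mul_le_mul_of_nonneg_right (min_le_right _ _) (by positivity)
          _ = 2 * c' * (δ ^ 2 / 3) := by
              rw [hc'e, div_pow, pow_add, pow_mul, div_pow, one_pow]
              ring
          _ ≤ 2 * c' * (1 / m) := mul_le_mul_of_nonneg_left h2 (by positivity)
          _ = c' * (4 / m) / 2 := by ring
    refine (mul_le_mul_of_nonneg_right hkey (norm_nonneg _)).trans ?_
    clear hkey hm3 hme
    have hqc : Continuous (tp W b) := tp_cont W b
    by_cases hsing : ∀ j ∈ W, j = κ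
    · have hWs : W = {κ} := by
        ext j
        rw [mem_singleton]
        exact ⟨fun hj => hsing j hj, fun hj => hj ▸ hκ⟩
      have e1 : ∀ x, φ x * ‖tp W b x‖ = φ x * ‖b κ‖ := by
        intro x
        rw [hWs]
        unfold tp
        rw [sum_singleton, norm_mul, en_norm, mul_one]
      simp_rw [e1]
      rw [intervalIntegral.integral_mul_const]
      exact mul_le_mul_of_nonneg_right ((min_le_left _ _).trans hφ) (norm_nonneg _)
    · push Not at hsing
      obtain ⟨j, hj, hjκ⟩ := hsing
      obtain ⟨y, hy⟩ : ∃ y : ℕ → ℝ, y = fun i : ℕ => (i : ℝ) / (m * |(κ : ℝ) - j|) := ⟨_, rfl⟩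
      obtain ⟨i, hi, i', hi', hii, hI⟩ := pigeon hφc hp h0 h1 hδ hφ hm y
      have hsep := sep (Ne.symm hjκ) hi hii y hy
      obtain ⟨b', hb'⟩ : ∃ b' : ℕ → ℂ, b' = fun k =>
        b k * (en k (y i) * en j (y i') - en k (y i') * en j (y i)) := ⟨_, rfl⟩
      have hq1 : ∀ x, tp (W.erase j) b' x =
          tp W b (x + y i) * en j (y i') - tp W b (x + y i') * en j (y i) := by
        intro x
        have e1 : tp (W.erase j) b' x = tp W b' x := by
          unfold tp
          rw [← Finset.add_sum_erase W _ hj]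
          have : b' j = 0 := by
            rw [hb']
            show b j * (en j (y i) * en j (y i') - en j (y i') * en j (y i)) = 0
            ring
          rw [this, zero_mul, zero_add]
        rw [e1]
        unfold tp
        rw [Finset.sum_mul, Finset.sum_mul, ← Finset.sum_sub_distrib]
        refine Finset.sum_congr rfl fun k _ => ?_
        rw [hb', en_add, en_add]
        ring
      have hle : ∫ x in (0:ℝ)..1, (φ (x + y i) * φ (x + y i')) * ‖tp (W.erase j) b' x‖ ≤
          2 * ∫ x in (0:ℝ)..1, φ x * ‖tp W b x‖ := by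
        have e1 : ∀ x, (φ (x + y i) * φ (x + y i')) * ‖tp (W.erase j) b' x‖ ≤
            φ (x + y i) * ‖tp W b (x + y i)‖ + φ (x + y i') * ‖tp W b (x + y i')‖ := by
          intro x
          rw [hq1]
          have e2 : ‖tp W b (x + y i) * en j (y i') - tp W b (x + y i') * en j (y i)‖ ≤
              ‖tp W b (x + y i)‖ + ‖tp W b (x + y i')‖ := by
            refine (norm_sub_le _ _).trans (le_of_eq ?_)
            rw [norm_mul, norm_mul, en_norm, en_norm, mul_one, mul_one]
          have a1 := h0 (x + y i)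
          have a2 := h0 (x + y i')
          have a3 := h1 (x + y i)
          have a4 := h1 (x + y i')
          have a5 : φ (x + y i) * φ (x + y i') ≤ φ (x + y i) := mul_le_of_le_one_right a1 a4
          have a6 : φ (x + y i) * φ (x + y i') ≤ φ (x + y i') := mul_le_of_le_one_left a2 a3
          have a7 := mul_le_mul_of_nonneg_left e2 (mul_nonneg a1 a2)
          have a8 := mul_le_mul_of_nonneg_right a5 (norm_nonneg (tp W b (x + y i)))
          have a9 := mul_le_mul_of_nonneg_right a6 (norm_nonneg (tp W b (x + y i')))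
          linarith
        have hper : Function.Periodic (fun x => φ x * ‖tp W b x‖) 1 := by
          intro x
          show φ (x + 1) * ‖tp W b (x + 1)‖ = φ x * ‖tp W b x‖
          rw [hp x, tp_per W b x]
        have e3 : ∫ x in (0:ℝ)..1, (φ (x + y i) * φ (x + y i')) * ‖tp (W.erase j) b' x‖ ≤
            ∫ x in (0:ℝ)..1, (φ (x + y i) * ‖tp W b (x + y i)‖ +
              φ (x + y i') * ‖tp W b (x + y i')‖) := by
          refine intervalIntegral.integral_mono_on zero_le_one ?_ ?_ fun x _ => e1 x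
          · apply Continuous.intervalIntegrable
            have := tp_cont (W.erase j) b'
            fun_prop
          · apply Continuous.intervalIntegrable
            fun_prop
        rw [intervalIntegral.integral_add] at e3
        · have e4 := int_shift hper (y i)
          have e5 := int_shift hper (y i')
          rw [e4, e5] at e3
          linarith
        · apply Continuous.intervalIntegrable
          fun_prop
        · apply Continuous.intervalIntegrable
          fun_prop
      have hper2 : Function.Periodic (fun x => φ (x + y i) * φ (x + y i')) 1 := by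
        intro x
        show φ (x + 1 + y i) * φ (x + 1 + y i') = φ (x + y i) * φ (x + y i')
        rw [show x + 1 + y i = (x + y i) + 1 by ring, show x + 1 + y i' = (x + y i') + 1 by ring,
          hp, hp]
      have hcard : (W.erase j).card ≤ n := by
        rw [Finset.card_erase_of_mem hj]
        omega
      have hmain := hc (fun x => φ (x + y i) * φ (x + y i')) (by fun_prop) hper2
        (fun x => mul_nonneg (h0 _) (h0 _)) (fun x => mul_le_one₀ (h1 _) (h0 _) (h1 _)) hI
        (W.erase j) hcard b' κ (Finset.mem_erase.2 ⟨Ne.symm hjκ, hκ⟩)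
      have e6 : ‖b' κ‖ = ‖b κ‖ * ‖en κ (y i) * en j (y i') - en κ (y i') * en j (y i)‖ := by
        rw [hb', norm_mul]
      rw [e6] at hmain
      have e7 : c' * (4 / m) / 2 * ‖b κ‖ ≤ ∫ x in (0:ℝ)..1, φ x * ‖tp W b x‖ := by
        have e8 : c' * (‖b κ‖ * (4 / m)) ≤ c' * (‖b κ‖ *
            ‖en κ (y i) * en j (y i') - en κ (y i') * en j (y i)‖) :=
          mul_le_mul_of_nonneg_left (mul_le_mul_of_nonneg_left hsep (norm_nonneg _)) hc'.le
        have e9 : c' * (4 / m) / 2 * ‖b κ‖ = c' * (‖b κ‖ * (4 / m)) / 2 := by ring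
        rw [e9]
        linarith
      exact (mul_le_mul_of_nonneg_right (min_le_right _ _) (norm_nonneg _)).trans e7

end Pool.Agent.X8.OH
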