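import Mathlib

/-!
# Order `h`: the numerical part
-/

set_option autoImplicit false

namespace Pool.Agent.X8.OH

/-- adapted from `Pool.Agent.H303R3.ET.alg_h` -/
theorem alg_h {g f u m1 m0 x s C C' Y G : ℝ} (hg : 0 ≤ g) (hf : 1 ≤ f) (hu : 0 < u)
    (hm0 : 0 ≤ m0) (hs : 0 ≤ s) (hC : 0 ≤ C) (hY : 0 ≤ Y)
    (H1 : m1 ≤ s * (f * u) + x * Real.sqrt m0)
    (H2 : g * (f * m0) ≤ m1 + C * u) (H3 : G * (f * u) ≤ m1 + C' * u)
    (H4 : x ^ 2 ≤ Y * (f ^ 2 * u)) :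
    g * (G * f - (C + C') - 2 * s * f) ≤ Y * f := by
  have hf0 : 0 < f := by linarith
  have hfu : 0 < f * u := by positivity
  by_cases hm : m1 ≤ s * (f * u)
  · have h2 : (G * f) * u ≤ (s * f + C') * u := by
      have : (G * f) * u = G * (f * u) := by ring
      rw [this]
      have : (s * f + C') * u = s * (f * u) + C' * u := by ring
      rw [this]
      linarith
    have h3 : G * f ≤ s * f + C' := le_of_mul_le_mul_right h2 hu
    have h4 : G * f - (C + C') - 2 * s * f ≤ 0 := by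
      have : 0 ≤ s * f := by positivity
      linarith
    have h5 : g * (G * f - (C + C') - 2 * s * f) ≤ 0 := mul_nonpos_of_nonneg_of_nonpos hg h4
    have h6 : 0 ≤ Y * f := by positivity
    linarith
  · push Not at hm
    obtain ⟨d, hd⟩ : ∃ d : ℝ, d = m1 - s * (f * u) := ⟨_, rfl⟩
    have hd0 : 0 < d := by rw [hd]; linarith
    have hdx : d ≤ x * Real.sqrt m0 := by rw [hd]; linarith
    have hd2 : d ^ 2 ≤ x ^ 2 * m0 := by
      calc d ^ 2 ≤ (x * Real.sqrt m0) ^ 2 := pow_le_pow_left₀ hd0.le hdx 2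
        _ = x ^ 2 * m0 := by rw [mul_pow, Real.sq_sqrt hm0]
    have hd3 : d ^ 2 ≤ Y * (f ^ 2 * u) * m0 := hd2.trans (mul_le_mul_of_nonneg_right H4 hm0)
    have hd4 : g * d ^ 2 ≤ Y * (f * u) * (m1 + C * u) := by
      calc g * d ^ 2 ≤ g * (Y * (f ^ 2 * u) * m0) := mul_le_mul_of_nonneg_left hd3 hg
        _ = Y * (f * u) * (g * (f * m0)) := by ring
        _ ≤ Y * (f * u) * (m1 + C * u) := mul_le_mul_of_nonneg_left H2 (by positivity)
    have hpos : 0 < m1 + C * u := by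
      have : 0 ≤ s * (f * u) := by positivity
      have : 0 ≤ C * u := by positivity
      linarith
    have hd5 : (m1 - 2 * (s * (f * u)) - C * u) * (m1 + C * u) ≤ d ^ 2 := by
      rw [hd]
      nlinarith [sq_nonneg (s * (f * u) + C * u)]
    have hd6 : (g * (m1 - 2 * (s * (f * u)) - C * u)) * (m1 + C * u) ≤
        (Y * (f * u)) * (m1 + C * u) := by
      calc (g * (m1 - 2 * (s * (f * u)) - C * u)) * (m1 + C * u) =
            g * ((m1 - 2 * (s * (f * u)) - C * u) * (m1 + C * u)) := by ring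
        _ ≤ g * d ^ 2 := mul_le_mul_of_nonneg_left hd5 hg
        _ ≤ _ := hd4
    have hd7 := le_of_mul_le_mul_right hd6 hpos
    have hd8 : g * (G * (f * u) - C' * u - 2 * (s * (f * u)) - C * u) ≤ Y * (f * u) := by
      refine le_trans (mul_le_mul_of_nonneg_left ?_ hg) hd7
      linarith
    have hd9 : (g * (G * f - (C + C') - 2 * s * f)) * u ≤ (Y * f) * u := by
      calc _ = g * (G * (f * u) - C' * u - 2 * (s * (f * u)) - C * u) := by ring
        _ ≤ Y * (f * u) := hd8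
        _ = _ := by ring
    exact le_of_mul_le_mul_right hd9 hu

theorem num {g : ℕ} {x ℓ r B Br s f f1 T Q t M rN Λ m0 m1 m m' K C1 C2 ε H F1 : ℝ}
    (hε : 0 < ε) (hℓ : 4 < ℓ) (hx : 3 ≤ x) (hℓε : 1 ≤ ε * ℓ) (hH : 0 < H) (hF1 : 0 ≤ F1)
    (hm' : 0 < m') (hℓε2 : 4 ≤ H * m' * ℓ * ε ^ (g + 2))
    (hr : 1 - r = 2 * ℓ / x) (hr0 : 1 / 2 ≤ r) (hr1 : r < 1)
    (hB : 0 < B) (hs : 0 < s) (hc1 : (s ^ 2 * ℓ ^ 2) ^ (g + 2) ≤ x * B ^ (g + 2)) (hM0 : 0 ≤ M)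
    (hM : M * s ^ 2 * ℓ ^ 2 ≤ x * B) (hBr1 : B * (1 - 4 * ℓ⁻¹) ≤ Br)
    (hf : 1 ≤ f) (hmf : H * m' ≤ (1 - r ^ 2) * f ^ (g + 2)) (hf1 : 0 ≤ f1)
    (hf1u : f1 ^ (g + 2) ≤ H * K * (1 - r)⁻¹)
    (hK : 0 ≤ K) (hQ : 0 ≤ Q) (ht0 : 0 ≤ t) (ht : t ≤ Q * s) (hΛ0 : 0 ≤ Λ) (hΛ : Λ ≤ ℓ)
    (hT0 : 0 ≤ T) (hrN0 : 0 ≤ rN) (hrN : rN * x ^ 2 ≤ 1) (hm0 : 0 ≤ m0) (hm : 0 ≤ m)
    (hC1 : 0 ≤ C1) (hC2 : 0 ≤ C2)
    (hmain : m1 ≤ (H * √T + s * √(H * K * (H * f ^ (g + 1)))) * √m0 +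
      H * t * s * f1 ^ g * (4 * Λ))
    (hrec : ((g : ℝ) + 1) * (f * m0) ≤ m1 + C1 * s ^ 2 * f ^ g)
    (hlow : F1 * f ^ (g + 2) * Br ≤ f * m1 + C2 * s ^ 2 * f ^ (g + 1))
    (hup : T ≤ M * (Q * s) ^ 2 + m * B * (1 - r ^ 2)⁻¹ + (Q * s) ^ 2 * rN * (1 - r)⁻¹) :
    ((g : ℝ) + 1) * (F1 * (1 - 4 * ε) - (C1 + C2) * ε - 8 * (H * Q * (1 + 2 * K / m') ^ g) * ε) ≤
      (H * √((m + 6 * Q ^ 2 * ε) / (H * m')) + H * √(K * ε)) ^ 2 := by
  have hx0 : 0 < x := by linarith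
  have hℓ0 : 0 < ℓ := by linarith
  have hf0 : 0 < f := by linarith
  have h1r : 0 < 1 - r := by linarith
  obtain ⟨D, hD⟩ : ∃ D : ℝ, D = 1 - r ^ 2 := ⟨_, rfl⟩
  rw [← hD] at hmf hup
  have hD2 : D = (1 - r) * (1 + r) := by rw [hD]; ring
  have hD0 : 0 < D := by rw [hD2]; exact mul_pos h1r (by linarith)
  have hDle : D ≤ 4 * ℓ / x := by
    rw [hD2, hr]
    calc 2 * ℓ / x * (1 + r) ≤ 2 * ℓ / x * 2 :=
          mul_le_mul_of_nonneg_left (by linarith) (by positivity)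
      _ = _ := by ring
  have hDx : D * x ≤ 4 * ℓ := by
    calc D * x ≤ 4 * ℓ / x * x := mul_le_mul_of_nonneg_right hDle hx0.le
      _ = _ := by field_simp
  have hHm : 0 < H * m' := mul_pos hH hm'
  -- the small quantity
  obtain ⟨η, hη⟩ : ∃ η : ℝ, η = s ^ 2 / (B * f) := ⟨_, rfl⟩
  have hη0 : 0 < η := by rw [hη]; positivity
  have hηs : s ^ 2 = η * (B * f) := by rw [hη]; field_simp
  have hηℓ : η * ℓ ≤ ε := by
    have e1 : (η * ℓ ^ 2) ^ (g + 2) * (H * m') ≤ 4 * ℓ := by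
      have a1 : (η * ℓ ^ 2) ^ (g + 2) * (B * f) ^ (g + 2) ≤ x * B ^ (g + 2) := by
        rw [← mul_pow]
        have : η * ℓ ^ 2 * (B * f) = s ^ 2 * ℓ ^ 2 := by rw [hηs]; ring
        rw [this]
        exact hc1
      rw [mul_pow B f] at a1
      have hBp : 0 < B ^ (g + 2) := by positivity
      have a2 : ((η * ℓ ^ 2) ^ (g + 2) * f ^ (g + 2)) * B ^ (g + 2) ≤ x * B ^ (g + 2) := by
        calc _ = (η * ℓ ^ 2) ^ (g + 2) * (B ^ (g + 2) * f ^ (g + 2)) := by ring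
          _ ≤ _ := a1
      have a3 := le_of_mul_le_mul_right a2 hBp
      calc (η * ℓ ^ 2) ^ (g + 2) * (H * m') ≤ (η * ℓ ^ 2) ^ (g + 2) * (D * f ^ (g + 2)) :=
            mul_le_mul_of_nonneg_left hmf (by positivity)
        _ = ((η * ℓ ^ 2) ^ (g + 2) * f ^ (g + 2)) * D := by ring
        _ ≤ x * D := mul_le_mul_of_nonneg_right a3 hD0.le
        _ ≤ 4 * ℓ := by linarith
    have e2 : (η * ℓ) ^ (g + 2) * ℓ ^ 2 * (H * m') ≤ 4 * ℓ := by
      refine le_trans ?_ e1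
      apply mul_le_mul_of_nonneg_right _ hHm.le
      have b1 : (η * ℓ ^ 2) ^ (g + 2) = (η * ℓ) ^ (g + 2) * (ℓ ^ g * ℓ ^ 2) := by
        rw [← pow_add, ← mul_pow]
        congr 1
        ring
      rw [b1]
      apply mul_le_mul_of_nonneg_left _ (by positivity)
      have : (1 : ℝ) ≤ ℓ ^ g := one_le_pow₀ (by linarith)
      exact le_mul_of_one_le_left (sq_nonneg ℓ) this
    have e3 : (η * ℓ) ^ (g + 2) * (H * m' * ℓ) ≤ 4 := by
      have : ((η * ℓ) ^ (g + 2) * (H * m' * ℓ)) * ℓ ≤ 4 * ℓ := by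
        calc _ = (η * ℓ) ^ (g + 2) * ℓ ^ 2 * (H * m') := by ring
          _ ≤ _ := e2
      exact le_of_mul_le_mul_right this hℓ0
    have e4 : (η * ℓ) ^ (g + 2) * (H * m' * ℓ) ≤ ε ^ (g + 2) * (H * m' * ℓ) := by linarith
    have e5 := le_of_mul_le_mul_right e4 (by positivity)
    exact le_of_pow_le_pow_left₀ (by omega) hε.le e5
  have hηε : η ≤ ε := by
    have : η * 1 ≤ η * ℓ := mul_le_mul_of_nonneg_left (by linarith) hη0.le
    linarith
  have hiℓ : ℓ⁻¹ ≤ ε := by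
    rw [inv_le_iff_one_le_mul₀ hℓ0]
    linarith
  -- size of f1
  obtain ⟨C3, hC3⟩ : ∃ C3 : ℝ, C3 = 1 + 2 * K / m' := ⟨_, rfl⟩
  have hC31 : 1 ≤ C3 := by rw [hC3]; have : 0 ≤ 2 * K / m' := by positivity
                           linarith
  have hf1le : f1 ≤ C3 * f := by
    apply le_of_pow_le_pow_left₀ (n := g + 2) (by omega) (by positivity)
    refine hf1u.trans ?_
    have a1 : H * K * (1 - r)⁻¹ ≤ 2 * K / m' * f ^ (g + 2) := by
      have a2 : H * m' ≤ (1 - r) * 2 * f ^ (g + 2) := by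
        refine hmf.trans (mul_le_mul_of_nonneg_right ?_ (by positivity))
        rw [hD2]
        exact mul_le_mul_of_nonneg_left (by linarith) h1r.le
      have a3 : H * K * (1 - r)⁻¹ = K / m' * (1 - r)⁻¹ * (H * m') := by
        field_simp
      have a4 : 2 * K / m' * f ^ (g + 2) = K / m' * (1 - r)⁻¹ * ((1 - r) * 2 * f ^ (g + 2)) := by
        field_simp
      rw [a3, a4]
      exact mul_le_mul_of_nonneg_left a2 (by positivity)
    refine a1.trans ?_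
    rw [mul_pow]
    apply mul_le_mul_of_nonneg_right _ (by positivity)
    calc 2 * K / m' ≤ C3 := by rw [hC3]; linarith
      _ = C3 ^ 1 := (pow_one _).symm
      _ ≤ C3 ^ (g + 2) := pow_le_pow_right₀ hC31 (by omega)
  -- the algebraic lemma
  obtain ⟨u, hu⟩ : ∃ u : ℝ, u = f ^ g * B := ⟨_, rfl⟩
  have hu0 : 0 < u := by rw [hu]; positivity
  have H1 : m1 ≤ (4 * (H * Q * C3 ^ g) * ε) * (f * u) +
      (H * √T + s * √(H * K * (H * f ^ (g + 1)))) * √m0 := by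
    refine hmain.trans ?_
    rw [add_comm]
    apply add_le_add _ le_rfl
    calc H * t * s * f1 ^ g * (4 * Λ) ≤ H * (Q * s) * s * (C3 * f) ^ g * (4 * ℓ) := by
          gcongr
      _ = 4 * (H * Q * C3 ^ g) * (s ^ 2 * ℓ) * f ^ g := by rw [mul_pow]; ring
      _ = 4 * (H * Q * C3 ^ g) * (η * ℓ) * (f * u) := by rw [hηs, hu]; ring
      _ ≤ 4 * (H * Q * C3 ^ g) * ε * (f * u) := by gcongr
  have H2 : ((g : ℝ) + 1) * (f * m0) ≤ m1 + (C1 * (η * f)) * u := by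
    refine hrec.trans (le_of_eq ?_)
    rw [hηs, hu]
    ring
  have H3 : (F1 * (1 - 4 * ℓ⁻¹)) * (f * u) ≤ m1 + (C2 * (η * f)) * u := by
    have a1 : f * ((F1 * (1 - 4 * ℓ⁻¹)) * (f * u)) ≤ f * (m1 + (C2 * (η * f)) * u) := by
      calc f * ((F1 * (1 - 4 * ℓ⁻¹)) * (f * u)) = F1 * f ^ (g + 2) * (B * (1 - 4 * ℓ⁻¹)) := by
            rw [hu]; ring
        _ ≤ F1 * f ^ (g + 2) * Br := mul_le_mul_of_nonneg_left hBr1 (by positivity)
        _ ≤ f * m1 + C2 * s ^ 2 * f ^ (g + 1) := hlow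
        _ = _ := by rw [hηs, hu]; ring
    exact le_of_mul_le_mul_left a1 hf0
  -- the energy
  have hs2 : s ^ 2 * ℓ ^ 2 ≤ x * B := by
    apply le_of_pow_le_pow_left₀ (n := g + 2) (by omega) (by positivity)
    refine hc1.trans ?_
    rw [mul_pow]
    apply mul_le_mul_of_nonneg_right _ (by positivity)
    calc x = x ^ 1 := (pow_one _).symm
      _ ≤ x ^ (g + 2) := pow_le_pow_right₀ (by linarith) (by omega)
  have hDT : D * T ≤ B * (m + 6 * Q ^ 2 * ε) := by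
    have e1 := mul_le_mul_of_nonneg_left hup hD0.le
    refine e1.trans ?_
    have e2 : D * (M * (Q * s) ^ 2) ≤ B * (4 * Q ^ 2 * ε) := by
      have a1 : D * (M * (Q * s) ^ 2) ≤ 4 * ℓ / x * (M * (Q * s) ^ 2) :=
        mul_le_mul_of_nonneg_right hDle (by positivity)
      have a2 : 4 * ℓ / x * (M * (Q * s) ^ 2) =
          4 * Q ^ 2 * ℓ⁻¹ * ((M * s ^ 2 * ℓ ^ 2) / x) := by
        field_simp
      have a3 : (M * s ^ 2 * ℓ ^ 2) / x ≤ B := by
        rw [div_le_iff₀ hx0]; linarith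
      refine a1.trans ?_
      rw [a2]
      calc 4 * Q ^ 2 * ℓ⁻¹ * ((M * s ^ 2 * ℓ ^ 2) / x) ≤ 4 * Q ^ 2 * ε * B := by gcongr
        _ = _ := by ring
    have e3 : D * (m * B * D⁻¹) = B * m := by
      field_simp
    have e4 : D * ((Q * s) ^ 2 * rN * (1 - r)⁻¹) ≤ B * (2 * Q ^ 2 * ε) := by
      have a1 : D * ((Q * s) ^ 2 * rN * (1 - r)⁻¹) = (1 + r) * (Q ^ 2 * (s ^ 2 * rN)) := by
        rw [hD2]
        field_simp
      have a2 : s ^ 2 * rN ≤ B * ε := by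
        have b1 : s ^ 2 * rN * x * ℓ ^ 2 ≤ B := by
          calc s ^ 2 * rN * x * ℓ ^ 2 = (s ^ 2 * ℓ ^ 2) * (rN * x) := by ring
            _ ≤ (x * B) * (rN * x) := mul_le_mul_of_nonneg_right hs2 (by positivity)
            _ = B * (rN * x ^ 2) := by ring
            _ ≤ B * 1 := mul_le_mul_of_nonneg_left hrN hB.le
            _ = B := mul_one B
        have b2 : s ^ 2 * rN * ℓ ≤ s ^ 2 * rN * x * ℓ ^ 2 := by
          have c1 : 0 ≤ s ^ 2 * rN := by positivity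
          have c2 : ℓ ≤ x * ℓ ^ 2 := by nlinarith
          calc s ^ 2 * rN * ℓ ≤ s ^ 2 * rN * (x * ℓ ^ 2) := mul_le_mul_of_nonneg_left c2 c1
            _ = _ := by ring
        have b3 : s ^ 2 * rN = (s ^ 2 * rN * ℓ) * ℓ⁻¹ := by field_simp
        rw [b3]
        exact mul_le_mul (b2.trans b1) hiℓ (by positivity) hB.le
      rw [a1]
      calc (1 + r) * (Q ^ 2 * (s ^ 2 * rN)) ≤ 2 * (Q ^ 2 * (B * ε)) := by
            refine mul_le_mul (by linarith) ?_ (by positivity) (by norm_num)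
            exact mul_le_mul_of_nonneg_left a2 (sq_nonneg _)
        _ = _ := by ring
    rw [mul_add, mul_add, e3]
    linarith
  have hTT : T ≤ (m + 6 * Q ^ 2 * ε) / (H * m') * (f ^ (g + 2) * B) := by
    rw [div_mul_eq_mul_div, le_div_iff₀ hHm]
    calc T * (H * m') ≤ T * (D * f ^ (g + 2)) := mul_le_mul_of_nonneg_left hmf hT0
      _ = (D * T) * f ^ (g + 2) := by ring
      _ ≤ (B * (m + 6 * Q ^ 2 * ε)) * f ^ (g + 2) := mul_le_mul_of_nonneg_right hDT (by positivity)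
      _ = _ := by ring
  have hsT : √T ≤ √((m + 6 * Q ^ 2 * ε) / (H * m')) * √(f ^ (g + 2) * B) := by
    rw [← Real.sqrt_mul (by positivity)]
    exact Real.sqrt_le_sqrt hTT
  have hsE : s * √(H * K * (H * f ^ (g + 1))) ≤ H * √(K * ε) * √(f ^ (g + 2) * B) := by
    have a1 : s * √(H * K * (H * f ^ (g + 1))) = H * √(s ^ 2 * (K * f ^ (g + 1))) := by
      have : H * K * (H * f ^ (g + 1)) = H ^ 2 * (K * f ^ (g + 1)) := by ring
      rw [this, Real.sqrt_mul (by positivity), Real.sqrt_sq hH.le, Real.sqrt_mul (sq_nonneg s),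
        Real.sqrt_sq hs.le]
      ring
    rw [a1, mul_assoc, ← Real.sqrt_mul (by positivity)]
    apply mul_le_mul_of_nonneg_left _ hH.le
    apply Real.sqrt_le_sqrt
    calc s ^ 2 * (K * f ^ (g + 1)) = η * (K * f ^ (g + 2) * B) := by rw [hηs]; ring
      _ ≤ ε * (K * f ^ (g + 2) * B) := mul_le_mul_of_nonneg_right hηε (by positivity)
      _ = _ := by ring
  have H4 : (H * √T + s * √(H * K * (H * f ^ (g + 1)))) ^ 2 ≤
      (H * √((m + 6 * Q ^ 2 * ε) / (H * m')) + H * √(K * ε)) ^ 2 * (f ^ 2 * u) := by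
    have a1 : H * √T + s * √(H * K * (H * f ^ (g + 1))) ≤
        (H * √((m + 6 * Q ^ 2 * ε) / (H * m')) + H * √(K * ε)) * √(f ^ (g + 2) * B) := by
      have := mul_le_mul_of_nonneg_left hsT hH.le
      rw [add_mul]
      linarith
    have a2 := pow_le_pow_left₀ (by positivity) a1 2
    rw [mul_pow _ (√(f ^ (g + 2) * B)), Real.sq_sqrt (by positivity)] at a2
    refine a2.trans (le_of_eq ?_)
    rw [hu]
    ring
  have hfin := alg_h (g := (g : ℝ) + 1) (f := f) (u := u) (m1 := m1) (m0 := m0)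
    (x := H * √T + s * √(H * K * (H * f ^ (g + 1)))) (s := 4 * (H * Q * C3 ^ g) * ε)
    (C := C1 * (η * f)) (C' := C2 * (η * f))
    (Y := (H * √((m + 6 * Q ^ 2 * ε) / (H * m')) + H * √(K * ε)) ^ 2) (G := F1 * (1 - 4 * ℓ⁻¹))
    (by positivity) hf hu0 hm0 (by positivity) (by positivity) (by positivity) H1 H2 H3 H4
  have hfin2 : (((g : ℝ) + 1) * (F1 * (1 - 4 * ℓ⁻¹) - (C1 + C2) * η -
      8 * (H * Q * C3 ^ g) * ε)) * f ≤
      (H * √((m + 6 * Q ^ 2 * ε) / (H * m')) + H * √(K * ε)) ^ 2 * f := by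
    refine le_trans (le_of_eq ?_) hfin
    ring
  have hfin3 := le_of_mul_le_mul_right hfin2 hf0
  refine le_trans ?_ hfin3
  apply mul_le_mul_of_nonneg_left _ (by positivity)
  rw [← hC3]
  have b1 : F1 * (1 - 4 * ε) ≤ F1 * (1 - 4 * ℓ⁻¹) :=
    mul_le_mul_of_nonneg_left (by linarith) hF1
  have b2 : (C1 + C2) * η ≤ (C1 + C2) * ε := mul_le_mul_of_nonneg_left hηε (by positivity)
  linarith

end Pool.Agent.X8.OH
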