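import Pool.Agent.X8.OH.Lim
import Pool.Agent.X8.OH.Num
import Pool.Agent.X8.ET.Grow

/-!
# Order `h`: growing windows
-/

set_option autoImplicit false

open Finset Filter Topology MeasureTheory

namespace Pool.Agent.X8.OH

open Pool.Agent.H303R3 (tup mem_tup fr Rn summable_fr)
open Pool.Agent.H303R3.ET (Mo fr_upper fr_lower fr_pow)

/-- the energy of a sequence which is close to `t` on `[M, N]` -/
theorem energy_up (S : ℕ → ℝ) {M N : ℕ} {t H m : ℝ} (hm : 0 ≤ m) (hH : ∀ n, |S n - t| ≤ H)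
    (h : ∀ n, M ≤ n → n ≤ N → (S n - t) ^ 2 ≤ m) {ρ : ℝ} (h0 : 0 ≤ ρ) (h1 : ρ < 1) :
    ∑' n, (S n - t) ^ 2 * (ρ ^ 2) ^ n ≤
      M * H ^ 2 + m * (1 - ρ ^ 2)⁻¹ + H ^ 2 * ρ ^ N * (1 - ρ)⁻¹ := by
  have hR0 : 0 ≤ ρ ^ 2 := by positivity
  have hR1 : ρ ^ 2 < 1 := by nlinarith
  have hH0 : 0 ≤ H := (abs_nonneg _).trans (hH 0)
  obtain ⟨D, hD⟩ : ∃ D : ℕ → ℝ, D = fun n => if n < M then H ^ 2 else 0 := ⟨_, rfl⟩
  have hDs : Summable D := summable_of_ne_finset_zero (s := range M) fun n hn => by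
    rw [hD]
    show (if n < M then H ^ 2 else 0) = 0
    rw [if_neg (by simpa using hn)]
  have hDt : ∑' n, D n = M * H ^ 2 := by
    rw [tsum_eq_sum (s := range M) fun n hn => by
      rw [hD]
      show (if n < M then H ^ 2 else 0) = 0
      rw [if_neg (by simpa using hn)]]
    rw [hD, Finset.sum_congr rfl (g := fun _ => H ^ 2) (fun n hn => by
      show (if n < M then H ^ 2 else 0) = _
      rw [if_pos (by simpa using hn)])]
    rw [Finset.sum_const, card_range, nsmul_eq_mul]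
  have hg1 := summable_geometric_of_lt_one hR0 hR1
  have hg2 := summable_geometric_of_lt_one h0 h1
  have hD0 : ∀ n, 0 ≤ D n := by
    intro n
    rw [hD]
    show 0 ≤ (if n < M then H ^ 2 else 0)
    split_ifs
    · positivity
    · exact le_rfl
  have hpt : ∀ n, (S n - t) ^ 2 * (ρ ^ 2) ^ n ≤
      D n + m * (ρ ^ 2) ^ n + H ^ 2 * ρ ^ N * ρ ^ n := by
    intro n
    have hp0 : 0 ≤ (ρ ^ 2) ^ n := by positivity
    have hp1 : (ρ ^ 2) ^ n ≤ 1 := pow_le_one₀ hR0 hR1.le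
    have h2 : (S n - t) ^ 2 ≤ H ^ 2 := by
      rw [← sq_abs]
      exact pow_le_pow_left₀ (abs_nonneg _) (hH n) 2
    have h3 : 0 ≤ m * (ρ ^ 2) ^ n := by positivity
    have h4 : 0 ≤ H ^ 2 * ρ ^ N * ρ ^ n := by positivity
    by_cases hn : n < M
    · have h5 : D n = H ^ 2 := by rw [hD]; exact if_pos hn
      rw [h5]
      have h6 : (S n - t) ^ 2 * (ρ ^ 2) ^ n ≤ (S n - t) ^ 2 :=
        mul_le_of_le_one_right (sq_nonneg _) hp1
      linarith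
    · by_cases hn2 : n ≤ N
      · have h6 := mul_le_mul_of_nonneg_right (h n (by omega) hn2) hp0
        linarith [hD0 n]
      · have h6 := mul_le_mul_of_nonneg_right h2 hp0
        have h7 : (ρ ^ 2) ^ n ≤ ρ ^ N * ρ ^ n := by
          rw [← pow_add, ← pow_mul]
          exact pow_le_pow_of_le_one h0 h1.le (by omega)
        have h8 := mul_le_mul_of_nonneg_left h7 (sq_nonneg H)
        linarith [hD0 n]
  have hsum := (hDs.add (hg1.mul_left m)).add (hg2.mul_left (H ^ 2 * ρ ^ N))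
  have h5 : ∑' n, (S n - t) ^ 2 * (ρ ^ 2) ^ n ≤
      ∑' n, (D n + m * (ρ ^ 2) ^ n + H ^ 2 * ρ ^ N * ρ ^ n) := by
    refine Summable.tsum_le_tsum hpt ?_ hsum
    exact Summable.of_nonneg_of_le (fun n => by positivity) hpt hsum
  rw [(hDs.add (hg1.mul_left m)).tsum_add (hg2.mul_left (H ^ 2 * ρ ^ N)),
    hDs.tsum_add (hg1.mul_left m), tsum_mul_left, tsum_mul_left, hDt,
    tsum_geometric_of_lt_one hR0 hR1, tsum_geometric_of_lt_one h0 h1] at h5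
  exact h5

/-- choice of the small parameter -/
theorem choose_eps {g : ℕ} {m m' K C1 C2 H Q F1 : ℝ} (hH : H = ((g + 2).factorial : ℝ))
    (hF1 : F1 = ((g + 1).factorial : ℝ)) (hm : 0 ≤ m) (hm' : 0 < m')
    (hmm : m < (1 - 1 / ((g : ℝ) + 2)) * m') :
    ∃ ε : ℝ, 0 < ε ∧ (H * √((m + 6 * Q ^ 2 * ε) / (H * m')) + H * √(K * ε)) ^ 2 <
      ((g : ℝ) + 1) * (F1 * (1 - 4 * ε) - (C1 + C2) * ε -
        8 * (H * Q * (1 + 2 * K / m') ^ g) * ε) := by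
  have hH0 : 0 < H := by rw [hH]; exact_mod_cast Nat.factorial_pos _
  have hF0 : 0 < F1 := by rw [hF1]; exact_mod_cast Nat.factorial_pos _
  have hHF : H = ((g : ℝ) + 2) * F1 := by
    rw [hH, hF1, Nat.factorial_succ]
    push_cast
    ring
  have hg2 : (0 : ℝ) < (g : ℝ) + 2 := by positivity
  have hcont1 : Tendsto (fun ε : ℝ => (H * √((m + 6 * Q ^ 2 * ε) / (H * m')) + H * √(K * ε)) ^ 2)
      (𝓝[>] 0) (𝓝 ((H * √((m + 6 * Q ^ 2 * 0) / (H * m')) + H * √(K * 0)) ^ 2)) := by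
    apply Tendsto.mono_left _ nhdsWithin_le_nhds
    exact (by fun_prop : Continuous fun ε : ℝ =>
      (H * √((m + 6 * Q ^ 2 * ε) / (H * m')) + H * √(K * ε)) ^ 2).tendsto 0
  have hcont2 : Tendsto (fun ε : ℝ => ((g : ℝ) + 1) * (F1 * (1 - 4 * ε) - (C1 + C2) * ε -
        8 * (H * Q * (1 + 2 * K / m') ^ g) * ε)) (𝓝[>] 0)
        (𝓝 (((g : ℝ) + 1) * (F1 * (1 - 4 * 0) - (C1 + C2) * 0 -
        8 * (H * Q * (1 + 2 * K / m') ^ g) * 0))) := by
    apply Tendsto.mono_left _ nhdsWithin_le_nhds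
    exact (by fun_prop : Continuous fun ε : ℝ => ((g : ℝ) + 1) * (F1 * (1 - 4 * ε) -
      (C1 + C2) * ε - 8 * (H * Q * (1 + 2 * K / m') ^ g) * ε)).tendsto 0
  have hlt : (H * √((m + 6 * Q ^ 2 * 0) / (H * m')) + H * √(K * 0)) ^ 2 <
      ((g : ℝ) + 1) * (F1 * (1 - 4 * 0) - (C1 + C2) * 0 -
        8 * (H * Q * (1 + 2 * K / m') ^ g) * 0) := by
    rw [mul_zero, mul_zero, mul_zero, mul_zero, mul_zero, add_zero, Real.sqrt_zero, mul_zero,
      add_zero, mul_pow, Real.sq_sqrt (by positivity)]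
    have e1 : H ^ 2 * (m / (H * m')) = H * m / m' := by
      field_simp
    rw [e1, div_lt_iff₀ hm', sub_zero, sub_zero, sub_zero, mul_one, hHF]
    have e2 : (1 - 1 / ((g : ℝ) + 2)) * m' * ((g : ℝ) + 2) = ((g : ℝ) + 1) * m' := by
      field_simp
      ring
    have e3 := mul_lt_mul_of_pos_right hmm hg2
    rw [e2] at e3
    have e4 := mul_lt_mul_of_pos_right e3 hF0
    linarith
  have hev := hcont1.eventually_lt hcont2 hlt
  obtain ⟨ε, h1, h2⟩ := (hev.and self_mem_nhdsWithin).exists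
  exact ⟨ε, h2, h1⟩

/-- **Growing windows**, order `h = g + 2`. -/
theorem growing (A : Set ℕ) (hne : A.Nonempty) (g K : ℕ)
    (hK : ∀ n, Rn A (Mo (k := g + 2)) n ≤ K) (m m' : ℝ)
    (hm : 0 ≤ m) (hmm : m < (1 - 1 / ((g : ℝ) + 2)) * m')
    (hA : ∀ᶠ R : ℝ in 𝓝[<] 1, m' ≤ (1 - R) * fr A R ^ (g + 2) / (g + 2).factorial) :
    ∀ᶠ N : ℕ in atTop, ∀ (W : Finset ℕ) (w : ℕ → ℝ), (∀ k, 0 ≤ w k) → (∀ k ∉ W, w k = 0) →
      0 < ∑ k ∈ W, w k →
      ((∑ k ∈ W, w k) ^ 2 * Real.log N ^ 2) ^ (g + 2) ≤ N * (∑ k ∈ W, w k ^ 2) ^ (g + 2) →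
      (∀ k ∈ W, k * (∑ k ∈ W, w k) ^ 2 * Real.log N ^ 2 ≤ N * ∑ k ∈ W, w k ^ 2) →
      ∀ t : ℝ, ∃ n ≤ N, (∀ k ∈ W, k ≤ n) ∧
        m * ∑ k ∈ W, w k ^ 2 ≤ (Sr A (g + 2) w n - t) ^ 2 := by
  obtain ⟨H, hH⟩ : ∃ H : ℝ, H = ((g + 2).factorial : ℝ) := ⟨_, rfl⟩
  obtain ⟨F1, hF1⟩ : ∃ F1 : ℝ, F1 = ((g + 1).factorial : ℝ) := ⟨_, rfl⟩
  have hH0 : 0 < H := by rw [hH]; exact_mod_cast Nat.factorial_pos _
  have hF0 : 0 < F1 := by rw [hF1]; exact_mod_cast Nat.factorial_pos _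
  have hg2 : (0 : ℝ) < (g : ℝ) + 2 := by positivity
  have hm'0 : 0 < m' := by
    have h1 : 0 < 1 - 1 / ((g : ℝ) + 2) := by
      rw [sub_pos, div_lt_one hg2]
      have : (0 : ℝ) ≤ g := Nat.cast_nonneg g
      linarith
    have h2 := lt_of_le_of_lt hm hmm
    exact pos_of_mul_pos_right h2 h1.le
  obtain ⟨Q, hQ⟩ : ∃ Q : ℝ, Q = 2 * K + √m := ⟨_, rfl⟩
  have hQ0 : 0 ≤ Q := hQ ▸ by positivity
  have hK0 : (0 : ℝ) ≤ K := Nat.cast_nonneg K
  -- tuples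
  obtain ⟨K', hK'⟩ : ∃ K' : ℕ, K' = (g + 2).factorial * K := ⟨_, rfl⟩
  have htup : ∀ j, j ≤ g + 2 → ∀ n, (tup A j n).card ≤ K' := by
    intro j hj
    exact Pool.Agent.H303R3.ET.tup_bd hne (k := g + 2) (K' := K')
      (fun n => hK' ▸ tt_le A hK n) (g + 2 - j) j (by omega)
  obtain ⟨C2, hC20, hC2⟩ := mo_low htup (g + 1) (by omega)
  obtain ⟨C1, hC1⟩ : ∃ C1 : ℝ, C1 = ((g : ℝ) + 1) * K' * (g + 1).factorial := ⟨_, rfl⟩
  have hC10 : 0 ≤ C1 := by rw [hC1]; positivity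
  obtain ⟨ε, hε0, hε⟩ := choose_eps (K := K) (C1 := C1) (C2 := C2) (Q := Q) hH hF1 hm hm'0 hmm
  -- the limits
  have hlog : Tendsto (fun N : ℕ => Real.log N) atTop atTop :=
    Real.tendsto_log_atTop.comp tendsto_natCast_atTop_atTop
  have hbig := hlog.eventually_gt_atTop 4
  have hbig2 := (hlog.const_mul_atTop hε0).eventually_ge_atTop 1
  have hbig3 := (hlog.const_mul_atTop (show 0 < H * m' * ε ^ (g + 2) by positivity)).eventually_ge_atTop 4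
  obtain ⟨ρ, hρ⟩ : ∃ ρ : ℕ → ℝ, ρ = fun N : ℕ => 1 - 2 * Real.log N / N := ⟨_, rfl⟩
  have hρlim : Tendsto (fun N : ℕ => 2 * Real.log N / N) atTop (𝓝 0) := by
    have h1 : Tendsto (fun x : ℝ => Real.log x / x) atTop (𝓝 0) := by
      have := Real.isLittleO_log_id_atTop.tendsto_div_nhds_zero
      simpa using this
    have h2 := (h1.comp tendsto_natCast_atTop_atTop).const_mul 2
    rw [mul_zero] at h2
    refine h2.congr fun N => ?_
    simp only [Function.comp]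
    ring
  have hsmall := hρlim.eventually_lt_const (show (0 : ℝ) < 1 / 2 by norm_num)
  have hsmall2 := hρlim.eventually_lt_const (show (0 : ℝ) < H * m' / 2 by positivity)
  have hR : Tendsto (fun N : ℕ => ρ N ^ 2) atTop (𝓝[<] 1) := by
    refine tendsto_nhdsWithin_iff.2 ⟨?_, ?_⟩
    · have h1 : Tendsto (fun N : ℕ => (1 - 2 * Real.log N / N) ^ 2) atTop (𝓝 ((1 - 0) ^ 2)) :=
        (hρlim.const_sub 1).pow 2
      rw [hρ]
      simpa using h1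
    · filter_upwards [hsmall, hbig, eventually_ge_atTop 1] with N h1 h2 h3
      have hN : (0 : ℝ) < N := by exact_mod_cast h3
      have h4 : 0 < 2 * Real.log N / N := by positivity
      rw [hρ, Set.mem_Iio]
      show (1 - 2 * Real.log N / N) ^ 2 < 1
      nlinarith
  filter_upwards [hsmall, hsmall2, hbig, hbig2, hbig3, hR.eventually hA, eventually_ge_atTop 3]
    with N hN2 hN2' hN3 hN3' hN3'' hN4 hN5
  intro W w hw hW hpos hc1 hc2 t
  by_contra hcon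
  push Not at hcon
  -- notation
  obtain ⟨x, hx⟩ : ∃ x : ℝ, x = (N : ℝ) := ⟨_, rfl⟩
  obtain ⟨ℓ, hℓ⟩ : ∃ ℓ : ℝ, ℓ = Real.log N := ⟨_, rfl⟩
  obtain ⟨s, hs⟩ : ∃ s : ℝ, s = ∑ k ∈ W, w k := ⟨_, rfl⟩
  obtain ⟨B, hB⟩ : ∃ B : ℝ, B = ∑ k ∈ W, w k ^ 2 := ⟨_, rfl⟩
  obtain ⟨r, hr⟩ : ∃ r : ℝ, r = ρ N := ⟨_, rfl⟩
  obtain ⟨f, hf⟩ : ∃ f : ℝ, f = fr A (r ^ 2) := ⟨_, rfl⟩
  have hr' : r = 1 - 2 * ℓ / x := by rw [hr, hρ, hℓ, hx]
  rw [← hr, ← hf, ← hH] at hN4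
  rw [← hℓ] at hN2 hN2' hN3 hN3' hN3'' hc1 hc2
  rw [← hx] at hN2 hN2' hc1 hc2
  rw [← hs] at hpos hc1 hc2
  rw [← hB] at hc1 hc2 hcon
  have hx3 : (3 : ℝ) ≤ x := by rw [hx]; exact_mod_cast hN5
  have hx0 : 0 < x := by linarith
  have hℓ0 : 0 < ℓ := by linarith
  have hr0 : 1 / 2 ≤ r := by rw [hr']; linarith
  have h2l : 0 < 2 * ℓ / x := by positivity
  have hr1 : r < 1 := by rw [hr']; linarith
  have hrn : 0 ≤ r := by linarith
  have hR0 : 0 ≤ r ^ 2 := by positivity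
  have hR1 : r ^ 2 < 1 := by nlinarith
  have e1 : 1 - r = 2 * ℓ / x := by rw [hr']; ring
  have hf0 : 0 ≤ f := hf ▸ Pool.Agent.H303R3.fr_nonneg A hR0
  have hmf : H * m' ≤ (1 - r ^ 2) * f ^ (g + 2) := by
    rw [le_div_iff₀ hH0] at hN4
    linarith
  have hf1 : 1 ≤ f := by
    apply le_of_pow_le_pow_left₀ (n := g + 2) (by omega) hf0
    rw [one_pow]
    have h1 : (1 - r ^ 2) ≤ H * m' := by
      have : 1 - r ^ 2 = (1 - r) * (1 + r) := by ring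
      rw [this, e1]
      calc 2 * ℓ / x * (1 + r) ≤ 2 * ℓ / x * 2 :=
            mul_le_mul_of_nonneg_left (by linarith) h2l.le
        _ ≤ _ := by linarith
    have h2 : (1 - r ^ 2) * 1 ≤ (1 - r ^ 2) * f ^ (g + 2) := by linarith
    exact le_of_mul_le_mul_left h2 (by linarith)
  have hBs : B ≤ s ^ 2 := by rw [hB, hs]; exact ET.sq_le_sq_sum hw
  have hs2 : 0 < s ^ 2 := by positivity
  have hBpos : 0 < B := by
    have h1 : 0 < (s ^ 2 * ℓ ^ 2) ^ (g + 2) := by positivity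
    have h2 : 0 < x * B ^ (g + 2) := lt_of_lt_of_le h1 hc1
    have h3 : 0 < B ^ (g + 2) := pos_of_mul_pos_right h2 hx0.le
    have h4 : 0 ≤ B := by rw [hB]; exact Finset.sum_nonneg fun k _ => sq_nonneg _
    rcases h4.lt_or_eq with h5 | h5
    · exact h5
    · rw [← h5, zero_pow (by omega)] at h3
      exact absurd h3 (lt_irrefl 0)
  -- the largest element of the window
  obtain ⟨M, hM⟩ : ∃ M : ℕ, M = W.sup id := ⟨_, rfl⟩
  have hWM : ∀ k ∈ W, k ≤ M := fun k hk => hM ▸ Finset.le_sup (f := id) hk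
  have hne : W.Nonempty := by
    rw [Finset.nonempty_iff_ne_empty]
    rintro rfl
    rw [hs] at hpos
    simp at hpos
  have hMW : M ∈ W := by
    obtain ⟨k, hk, hk2⟩ := Finset.exists_mem_eq_sup W hne id
    rw [hM, hk2]
    exact hk
  have hMb := hc2 M hMW
  have hM1 : (M : ℝ) * ℓ ^ 2 ≤ x := by
    have h1 : (M : ℝ) * ℓ ^ 2 * s ^ 2 ≤ x * s ^ 2 := by
      calc (M : ℝ) * ℓ ^ 2 * s ^ 2 = M * s ^ 2 * ℓ ^ 2 := by ring
        _ ≤ x * B := hMb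
        _ ≤ x * s ^ 2 := mul_le_mul_of_nonneg_left hBs hx0.le
    exact le_of_mul_le_mul_right h1 hs2
  have hMN : M ≤ N := by
    have h1 : (M : ℝ) ≤ M * ℓ ^ 2 := by
      have : (1 : ℝ) ≤ ℓ ^ 2 := by nlinarith
      nlinarith [(Nat.cast_nonneg M : (0 : ℝ) ≤ M)]
    have h2 : (M : ℝ) ≤ N := by rw [← hx]; linarith
    exact_mod_cast h2
  -- the size of `t`
  have hSK : ∀ n, Sr A (g + 2) w n ≤ K * s := fun n => hs ▸ Sj_le A hw hW
    (u := rr A (g + 2)) (fun m => by unfold rr; exact_mod_cast hK m) hK0 n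
  have hS0 : ∀ n, 0 ≤ Sr A (g + 2) w n := fun n =>
    Finset.sum_nonneg fun _ _ => mul_nonneg (hw _) (rr_nonneg _ _ _)
  have hsm : √(m * B) ≤ √m * s := by
    rw [Real.sqrt_mul hm]
    refine mul_le_mul_of_nonneg_left ?_ (Real.sqrt_nonneg _)
    have h1 := Real.sqrt_le_sqrt hBs
    rwa [Real.sqrt_sq hpos.le] at h1
  have htb : |t| ≤ (K + √m) * s := by
    have h1 := hcon M hMN hWM
    have h2 : |Sr A (g + 2) w M - t| ≤ √(m * B) := by
      apply Real.le_sqrt_of_sq_le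
      rw [sq_abs]
      exact h1.le
    have h3 : |t| ≤ |Sr A (g + 2) w M - t| + |Sr A (g + 2) w M| := by
      have := abs_sub_abs_le_abs_sub t (Sr A (g + 2) w M)
      rw [abs_sub_comm t] at this
      linarith
    rw [abs_of_nonneg (hS0 M)] at h3
    have := hSK M
    linarith
  have hHb : ∀ n, |Sr A (g + 2) w n - t| ≤ Q * s := by
    intro n
    have h1 : |Sr A (g + 2) w n - t| ≤ |Sr A (g + 2) w n| + |t| := abs_sub _ _
    rw [abs_of_nonneg (hS0 n)] at h1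
    have := hSK n
    rw [hQ]
    linarith
  have hup := energy_up (Sr A (g + 2) w) (M := M) (N := N) (t := t) (H := Q * s) (m := m * B)
    (by positivity) hHb (fun n h1 h2 => (hcon n h2 fun k hk => (hWM k hk).trans h1).le) hrn hr1
  have hmain := main_ineq A g K K' hK htup W w hw hW t hr0 hr1 (hf ▸ hf1)
  have hrec := mo_rec hw hW (htup g (by omega)) (htup (g + 1) (by omega)) hR0 hR1 (hf ▸ hf1)
  have hlow := hC2 W w hw hW (r ^ 2) hR0 hR1 (hf ▸ hf1)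
  rw [← hs, ← hf, ← hH] at hmain
  rw [← hs, ← hf] at hrec hlow
  obtain ⟨T, hT⟩ : ∃ T : ℝ, T = ∑' n, (Sr A (g + 2) w n - t) ^ 2 * (r ^ 2) ^ n := ⟨_, rfl⟩
  rw [← hT] at hmain hup
  obtain ⟨Br, hBr⟩ : ∃ Br : ℝ, Br = ∑ k ∈ W, w k ^ 2 * (r ^ 2) ^ k := ⟨_, rfl⟩
  rw [← hBr, ← hF1] at hlow
  have hBl := ET.B_ge (w := w) hWM hrn hr1
  have hBr' : Br = ∑ k ∈ W, w k ^ 2 * r ^ (2 * k) := by
    rw [hBr]
    exact Finset.sum_congr rfl fun k _ => by rw [pow_mul]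
  rw [← hB, ← hBr'] at hBl
  have hT0 : 0 ≤ T := hT ▸ tsum_nonneg fun n => by positivity
  -- elementary estimates
  have e3 : B * (1 - 4 * ℓ⁻¹) ≤ Br := by
    refine le_trans (mul_le_mul_of_nonneg_left ?_ hBpos.le) hBl
    rw [e1]
    have h1 : 2 * (M : ℝ) * (2 * ℓ / x) = 4 * ℓ⁻¹ * (M * ℓ ^ 2 / x) := by
      field_simp
      ring
    rw [h1]
    have h2 : (M : ℝ) * ℓ ^ 2 / x ≤ 1 := (div_le_one hx0).2 hM1
    have h3 : 0 < 4 * ℓ⁻¹ := by positivity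
    have h4 := mul_le_mul_of_nonneg_left h2 h3.le
    linarith
  have e5 : Real.log (2 / (1 - r)) ≤ ℓ := by
    have h1 : 2 / (1 - r) = x / ℓ := by
      rw [e1]
      field_simp
    rw [h1, hℓ, ← hx]
    apply Real.log_le_log
    · rw [hx, ← hℓ, ← hx]
      positivity
    · rw [hx, ← hℓ, ← hx]
      exact div_le_self hx0.le (by linarith)
  have e6 : 0 ≤ Real.log (2 / (1 - r)) := by
    apply Real.log_nonneg
    rw [le_div_iff₀ (by linarith)]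
    linarith
  have e7 : r ^ N * x ^ 2 ≤ 1 := by
    have h1 : r ≤ Real.exp (-(2 * ℓ / x)) := by
      have := Real.add_one_le_exp (-(2 * ℓ / x))
      rw [hr']
      linarith
    have h2 : r ^ N ≤ Real.exp (-(2 * ℓ)) := by
      calc r ^ N ≤ Real.exp (-(2 * ℓ / x)) ^ N := pow_le_pow_left₀ hrn h1 N
        _ = Real.exp (-(2 * ℓ)) := by
          rw [← Real.exp_nat_mul, ← hx]
          congr 1
          field_simp
    have h3 : Real.exp (-(2 * ℓ)) = (x ^ 2)⁻¹ := by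
      rw [Real.exp_neg, two_mul, Real.exp_add, hℓ, Real.exp_log (by rw [← hx]; exact hx0), ← hx, sq]
    rw [h3] at h2
    calc r ^ N * x ^ 2 ≤ (x ^ 2)⁻¹ * x ^ 2 := mul_le_mul_of_nonneg_right h2 (by positivity)
      _ = 1 := by field_simp
  have hf1u : fr A r ^ (g + 2) ≤ H * K * (1 - r)⁻¹ := by
    rw [hH]
    exact fr_upper A (k := g + 2) hK hrn hr1
  have hrec' : ((g : ℝ) + 1) * (f * mo A w g (r ^ 2)) ≤ mo A w (g + 1) (r ^ 2) +
      C1 * s ^ 2 * f ^ g := by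
    rw [hC1]
    exact hrec
  have hfin := num (g := g) (x := x) (ℓ := ℓ) (r := r) (B := B) (Br := Br) (s := s) (f := f)
    (f1 := fr A r) (T := T) (Q := Q) (t := |t|) (M := M) (rN := r ^ N)
    (Λ := Real.log (2 / (1 - r))) (m0 := mo A w g (r ^ 2)) (m1 := mo A w (g + 1) (r ^ 2))
    (m := m) (m' := m') (K := K) (C1 := C1) (C2 := C2) (ε := ε) (H := H) (F1 := F1)
    hε0 hN3 hx3 hN3' hH0 hF0.le hm'0 (by linarith) e1 hr0 hr1 hBpos hpos hc1
    (Nat.cast_nonneg _) hMb e3 hf1 hmf (Pool.Agent.H303R3.fr_nonneg A hrn) hf1u hK0 hQ0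
    (abs_nonneg _) (htb.trans (mul_le_mul_of_nonneg_right (by rw [hQ]; linarith) hpos.le)) e6 e5
    hT0 (by positivity) e7 (mo_nonneg A w g hR0) hm hC10 hC20 hmain hrec' hlow hup
  linarith

end Pool.Agent.X8.OH
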