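import Pool.Agent.X8.OH.Ana

/-!
# Order `h`: the Abel means of the representation function
-/

set_option autoImplicit false

open Finset Filter Topology MeasureTheory

namespace Pool.Agent.X8.OH

open Pool.Agent.H303R3 (tup mem_tup fr Rn summable_fr)
open Pool.Agent.H303R3.ET (Mo fr_upper fr_lower fr_pow)

theorem tt_tsum (A : Set ℕ) (h : ℕ) {q : ℝ} (h0 : 0 ≤ q) (h1 : q < 1) :
    ∑' n, tt A h n * q ^ n = fr A q ^ h := fr_pow (k := h) A h0 h1

/-- the Abel mean of the representation function of a basis -/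
theorem basis_ev (A : Set ℕ) {h : ℕ} (hh : 1 ≤ h)
    (hA : ∀ᶠ n in atTop, 1 ≤ Rn A (Mo (k := h)) n) (K : ℕ)
    (hK : ∀ n, Rn A (Mo (k := h)) n ≤ K) {m : ℝ} (hm : m < 1) :
    ∀ᶠ q : ℝ in 𝓝[<] 1, m ≤ (1 - q) * fr A q ^ h / h.factorial := by
  obtain ⟨n₀, hn₀⟩ := eventually_atTop.1 hA
  have hH0 : (0 : ℝ) < h.factorial := by exact_mod_cast Nat.factorial_pos h
  obtain ⟨δ, hδ⟩ : ∃ δ : ℝ, δ = (1 - m) / 2 := ⟨_, rfl⟩
  have hδ0 : 0 < δ := by rw [hδ]; linarith
  obtain ⟨R, hR⟩ : ∃ R : ℝ, R = h.factorial * K / δ + 1 := ⟨_, rfl⟩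
  have hR1 : 1 ≤ R := by
    rw [hR]
    have : 0 ≤ (h.factorial * K : ℝ) / δ := by positivity
    linarith
  have hI : ∀ᶠ q : ℝ in 𝓝[<] 1, q ∈ Set.Ioo (0 : ℝ) 1 := Ioo_mem_nhdsLT (by norm_num)
  -- `q ^ n₀ → 1`
  have hq : Tendsto (fun q : ℝ => q ^ n₀) (𝓝[<] 1) (𝓝 1) := by
    have : Tendsto (fun q : ℝ => q ^ n₀) (𝓝 1) (𝓝 (1 ^ n₀)) := (continuous_pow n₀).tendsto 1
    rw [one_pow] at this
    exact this.mono_left nhdsWithin_le_nhds
  have h1q : Tendsto (fun q : ℝ => 1 - q) (𝓝[<] 1) (𝓝[>] 0) := by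
    refine tendsto_nhdsWithin_iff.2 ⟨?_, ?_⟩
    · have : Tendsto (fun q : ℝ => 1 - q) (𝓝 1) (𝓝 (1 - 1)) :=
        (continuous_const.sub continuous_id).tendsto 1
      rw [sub_self] at this
      exact this.mono_left nhdsWithin_le_nhds
    · filter_upwards [hI] with q hq
      rw [Set.mem_Ioi]
      linarith [hq.2]
  have hinf : Tendsto (fun q : ℝ => q ^ n₀ * (1 - q)⁻¹) (𝓝[<] 1) atTop :=
    hq.pos_mul_atTop one_pos (tendsto_inv_nhdsGT_zero.comp h1q)
  filter_upwards [hI, hinf.eventually_ge_atTop (R ^ h), hq.eventually_const_le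
    (show 1 - δ < 1 by linarith)] with q q1 q2 q3
  have h0 : 0 ≤ q := q1.1.le
  have h1 : q < 1 := q1.2
  have hp : 0 < 1 - q := by linarith
  have hlow := fr_lower A (k := h) (n1 := n₀) hn₀ h0 h1
  have hfR : R ≤ fr A q :=
    le_of_pow_le_pow_left₀ (by omega) (Pool.Agent.H303R3.fr_nonneg A h0) (q2.trans hlow)
  have hf : 1 ≤ fr A q := hR1.trans hfR
  have hf0 : 0 < fr A q := by linarith
  obtain ⟨e1, e2⟩ := EE_tsum A h h0 h1 hf
  have srr : Summable fun n => rr A h n * q ^ n :=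
    (bdd_summable (B := K) (fun n => by
      rw [abs_of_nonneg (rr_nonneg _ _ _)]
      unfold rr
      exact_mod_cast hK n) h0 h1).of_norm
  have hrr : q ^ n₀ * (1 - q)⁻¹ ≤ ∑' n, rr A h n * q ^ n := by
    rw [← tsum_geometric_of_lt_one h0 h1, ← tsum_mul_left, ← srr.sum_add_tsum_nat_add n₀]
    have : 0 ≤ ∑ i ∈ range n₀, rr A h i * q ^ i :=
      Finset.sum_nonneg fun i _ => mul_nonneg (rr_nonneg _ _ _) (by positivity)
    refine le_trans ?_ (le_add_of_nonneg_left this)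
    refine Summable.tsum_le_tsum (fun n => ?_)
      ((summable_geometric_of_lt_one h0 h1).mul_left _)
      ((summable_nat_add_iff (f := fun n : ℕ => rr A h n * q ^ n) n₀).2 srr)
    have h3 : (1 : ℝ) ≤ rr A h (n + n₀) := by
      unfold rr
      exact_mod_cast hn₀ (n + n₀) (by omega)
    rw [← pow_add, add_comm n₀ n]
    have : 0 ≤ q ^ (n + n₀) := by positivity
    nlinarith
  have htt : fr A q ^ h = h.factorial * ∑' n, rr A h n * q ^ n - ∑' n, EE A h n * q ^ n := by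
    rw [← tt_tsum A h h0 h1, ← tsum_mul_left, ← (srr.mul_left _).tsum_sub e1]
    refine tsum_congr fun n => ?_
    unfold EE
    ring
  have hup := fr_upper A (k := h) hK h0 h1
  have hsm : (1 - q) * fr A q ^ (h - 1) ≤ δ := by
    have e3 : fr A q ^ h = fr A q ^ (h - 1) * fr A q := by
      rw [← pow_succ]
      congr 1
      omega
    have e4 : (1 - q) * (fr A q ^ (h - 1) * fr A q) ≤ h.factorial * K := by
      rw [← e3]
      have := mul_le_mul_of_nonneg_left hup hp.le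
      calc (1 - q) * fr A q ^ h ≤ (1 - q) * (h.factorial * K * (1 - q)⁻¹) := this
        _ = _ := by field_simp
    have e5 : (1 - q) * fr A q ^ (h - 1) * R ≤ h.factorial * K := by
      refine le_trans ?_ e4
      calc (1 - q) * fr A q ^ (h - 1) * R ≤ (1 - q) * fr A q ^ (h - 1) * fr A q :=
            mul_le_mul_of_nonneg_left hfR (by positivity)
        _ = _ := by ring
    have e6 : (h.factorial * K : ℝ) ≤ δ * R := by
      rw [hR, mul_add, mul_div_cancel₀ _ hδ0.ne']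
      linarith
    exact le_of_mul_le_mul_right (e5.trans e6) (by linarith)
  rw [le_div_iff₀ hH0, htt, mul_sub]
  have e7 : (1 - q) * ∑' n, EE A h n * q ^ n ≤ h.factorial * δ := by
    calc (1 - q) * ∑' n, EE A h n * q ^ n ≤ (1 - q) * (h.factorial * fr A q ^ (h - 1)) :=
          mul_le_mul_of_nonneg_left e2 hp.le
      _ = h.factorial * ((1 - q) * fr A q ^ (h - 1)) := by ring
      _ ≤ _ := mul_le_mul_of_nonneg_left hsm hH0.le
  have e8 : h.factorial * (1 - δ) ≤ (1 - q) * (h.factorial * ∑' n, rr A h n * q ^ n) := by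
    calc h.factorial * (1 - δ) ≤ h.factorial * q ^ n₀ := mul_le_mul_of_nonneg_left q3 hH0.le
      _ = h.factorial * ((1 - q) * (q ^ n₀ * (1 - q)⁻¹)) := by
          have : (1 - q) * (q ^ n₀ * (1 - q)⁻¹) = q ^ n₀ := by field_simp
          rw [this]
      _ ≤ h.factorial * ((1 - q) * ∑' n, rr A h n * q ^ n) :=
          mul_le_mul_of_nonneg_left (mul_le_mul_of_nonneg_left hrr hp.le) hH0.le
      _ = _ := by ring
  have e9 : m * h.factorial = h.factorial * (1 - δ) - h.factorial * δ := by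
    rw [hδ]; ring
  rw [e9]
  linarith

open Real Classical in
/-- the generating function of a set with `a_n ≤ C n ^ h` -/
theorem fr_ge (A : Set ℕ) (hinf : A.Infinite) {h : ℕ} (hh : 1 ≤ h) (C : ℝ) (hC0 : 0 < C)
    (hC : ∀ n : ℕ, 1 ≤ n → (Nat.nth (fun a => a ∈ A) (n - 1) : ℝ) ≤ C * (n : ℝ) ^ h)
    {s : ℝ} (hs : 0 < s) :
    (s * C) ^ (-1 / (h : ℝ)) * Real.Gamma (1 / (h : ℝ) + 1) ≤ fr A (Real.exp (-s)) + 1 := by
  have hb : 0 < s * C := mul_pos hs hC0
  have hh0 : (0 : ℝ) < h := by exact_mod_cast hh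
  have e0 : ∀ x : ℝ, Real.exp (-(s * C) * x ^ h) = Real.exp (-(s * C) * x ^ (h : ℝ)) := by
    intro x
    rw [Real.rpow_natCast]
  have hint : IntegrableOn (fun x : ℝ => Real.exp (-(s * C) * x ^ h)) (Set.Ioi 0) := by
    simp_rw [e0]
    by_contra hcon
    have h1 := integral_undef hcon
    rw [integral_exp_neg_mul_rpow hh0 hb] at h1
    have h2 : 0 < (s * C) ^ (-1 / (h : ℝ)) * Real.Gamma (1 / (h : ℝ) + 1) :=
      mul_pos (Real.rpow_pos_of_pos hb _) (Real.Gamma_pos_of_pos (by positivity))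
    linarith
  have hlim : Tendsto (fun N : ℕ => ∫ x in (0 : ℝ)..(N : ℝ), Real.exp (-(s * C) * x ^ h)) atTop
      (𝓝 (∫ x in Set.Ioi (0 : ℝ), Real.exp (-(s * C) * x ^ h))) :=
    MeasureTheory.intervalIntegral_tendsto_integral_Ioi 0 hint tendsto_natCast_atTop_atTop
  have hval : ∫ x in Set.Ioi (0 : ℝ), Real.exp (-(s * C) * x ^ h) =
      (s * C) ^ (-1 / (h : ℝ)) * Real.Gamma (1 / (h : ℝ) + 1) := by
    simp_rw [e0]
    exact integral_exp_neg_mul_rpow hh0 hb
  rw [hval] at hlim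
  refine le_of_tendsto' hlim fun N => ?_
  have hanti : AntitoneOn (fun x : ℝ => Real.exp (-(s * C) * x ^ h)) (Set.Icc (0 : ℝ) (0 + N)) := by
    intro x hx y hy hxy
    apply Real.exp_le_exp.2
    have : x ^ h ≤ y ^ h := pow_le_pow_left₀ hx.1 hxy h
    nlinarith
  have h1 := hanti.integral_le_sum
  rw [zero_add] at h1
  refine h1.trans ?_
  have hρ0 : 0 ≤ Real.exp (-s) := (Real.exp_pos _).le
  have hρ1 : Real.exp (-s) < 1 := by
    rw [Real.exp_lt_one_iff]
    linarith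
  have hgs := summable_fr A hρ0 hρ1
  have hmono : StrictMono (Nat.nth (fun a => a ∈ A)) := Nat.nth_strictMono hinf
  rcases Nat.eq_zero_or_pos N with rfl | hN
  · simp only [range_zero, sum_empty]
    have := Pool.Agent.H303R3.fr_nonneg A hρ0
    linarith
  obtain ⟨M, rfl⟩ : ∃ M, N = M + 1 := ⟨N - 1, by omega⟩
  rw [Finset.sum_range_succ']
  refine add_le_add ?_ ?_
  · calc ∑ k ∈ range M, Real.exp (-(s * C) * (0 + ((k + 1 : ℕ) : ℝ)) ^ h)
        ≤ ∑ k ∈ range M, Real.exp (-s) ^ (Nat.nth (fun a => a ∈ A) k) := by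
          refine Finset.sum_le_sum fun k _ => ?_
          rw [← Real.exp_nat_mul]
          apply Real.exp_le_exp.2
          have h2 := hC (k + 1) (by omega)
          rw [Nat.add_sub_cancel] at h2
          rw [zero_add]
          nlinarith
      _ = ∑ a ∈ (range M).image (Nat.nth (fun a => a ∈ A)),
            (if a ∈ A then (1 : ℝ) else 0) * Real.exp (-s) ^ a := by
          rw [Finset.sum_image (fun x _ y _ h => hmono.injective h)]
          refine Finset.sum_congr rfl fun k _ => ?_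
          have hk : Nat.nth (fun a => a ∈ A) k ∈ A := Nat.nth_mem_of_infinite hinf k
          rw [if_pos hk, one_mul]
      _ ≤ fr A (Real.exp (-s)) := by
          unfold fr
          refine hgs.sum_le_tsum _ fun n _ => ?_
          split_ifs <;> positivity
  · simp only [Nat.cast_zero, add_zero]
    rw [Real.exp_le_one_iff]
    have : (0 : ℝ) ^ h = 0 := zero_pow (by omega)
    rw [this]
    simp

open Real in
/-- the Abel mean of the representation function of a set with `a_n ≤ C n ^ h` -/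
theorem growth_ev (A : Set ℕ) (hinf : A.Infinite) {h : ℕ} (hh : 1 ≤ h) (C : ℝ)
    (hC : ∀ n : ℕ, 1 ≤ n → (Nat.nth (fun a => a ∈ A) (n - 1) : ℝ) ≤ C * (n : ℝ) ^ h)
    {m : ℝ} (hm : m < Real.Gamma (1 / (h : ℝ) + 1) ^ h / (h.factorial * C)) :
    ∀ᶠ q : ℝ in 𝓝[<] 1, m ≤ (1 - q) * fr A q ^ h / h.factorial := by
  have hH0 : (0 : ℝ) < h.factorial := by exact_mod_cast Nat.factorial_pos h
  have hh0 : (0 : ℝ) < h := by exact_mod_cast hh
  have hC0 : 0 < C := by
    have h1 := hC 2 (by norm_num)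
    have h2 : 0 < Nat.nth (fun a => a ∈ A) (2 - 1) :=
      lt_of_le_of_lt (Nat.zero_le _) (Nat.nth_strictMono hinf (by norm_num : 0 < 2 - 1))
    have h3 : (0 : ℝ) < Nat.nth (fun a => a ∈ A) (2 - 1) := by exact_mod_cast h2
    by_contra h4
    push Not at h4
    have h5 : (0 : ℝ) < ((2 : ℕ) : ℝ) ^ h := by positivity
    have h6 : C * ((2 : ℕ) : ℝ) ^ h ≤ 0 := mul_nonpos_of_nonpos_of_nonneg h4 h5.le
    linarith
  obtain ⟨Γ, hΓ⟩ : ∃ Γ : ℝ, Γ = Real.Gamma (1 / (h : ℝ) + 1) := ⟨_, rfl⟩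
  have hΓ0 : 0 < Γ := by rw [hΓ]; exact Real.Gamma_pos_of_pos (by positivity)
  rw [← hΓ] at hm
  have hmap : Tendsto (fun ρ : ℝ => -Real.log ρ) (𝓝[<] 1) (𝓝[>] 0) := by
    refine tendsto_nhdsWithin_iff.2 ⟨?_, ?_⟩
    · have h1 : Tendsto (fun ρ : ℝ => -Real.log ρ) (𝓝 1) (𝓝 (-Real.log 1)) :=
        (Real.continuousAt_log one_ne_zero).neg
      rw [Real.log_one, neg_zero] at h1
      exact h1.mono_left nhdsWithin_le_nhds
    · have h3 : ∀ᶠ ρ : ℝ in 𝓝[<] 1, ρ ∈ Set.Ioo (0 : ℝ) 1 := Ioo_mem_nhdsLT (by norm_num)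
      filter_upwards [h3] with ρ hρ
      rw [Set.mem_Ioi]
      linarith [Real.log_neg hρ.1 hρ.2]
  -- `t = s ^ (1 / h)`
  obtain ⟨c, hc⟩ : ∃ c : ℝ, c = C ^ (-1 / (h : ℝ)) := ⟨_, rfl⟩
  have hc0 : 0 < c := by rw [hc]; exact Real.rpow_pos_of_pos hC0 _
  have hch : c ^ h = C⁻¹ := by
    rw [hc, ← Real.rpow_natCast, ← Real.rpow_mul hC0.le]
    have : -1 / (h : ℝ) * h = -1 := by field_simp
    rw [this, Real.rpow_neg_one]
  have ht : Tendsto (fun s : ℝ => s ^ (1 / (h : ℝ))) (𝓝[>] 0) (𝓝 0) := by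
    have h1 : Tendsto (fun s : ℝ => s ^ (1 / (h : ℝ))) (𝓝 0) (𝓝 ((0 : ℝ) ^ (1 / (h : ℝ)))) :=
      (Real.continuousAt_rpow_const 0 (1 / (h : ℝ)) (Or.inr (by positivity))).tendsto
    rw [Real.zero_rpow (by positivity)] at h1
    exact h1.mono_left nhdsWithin_le_nhds
  have hlim : Tendsto (fun s : ℝ => (1 + s)⁻¹ * (c * Γ - s ^ (1 / (h : ℝ))) ^ h) (𝓝[>] 0)
      (𝓝 (C⁻¹ * Γ ^ h)) := by
    have h1 : Tendsto (fun s : ℝ => (1 + s)⁻¹) (𝓝[>] 0) (𝓝 ((1 + 0)⁻¹)) := by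
      refine Tendsto.mono_left ?_ nhdsWithin_le_nhds
      exact Tendsto.inv₀ ((continuous_const.add continuous_id).tendsto 0) (by norm_num)
    have h2 := h1.mul ((ht.const_sub (c * Γ)).pow h)
    have h3 : ((1 : ℝ) + 0)⁻¹ * (c * Γ - 0) ^ h = C⁻¹ * Γ ^ h := by
      rw [sub_zero, mul_pow, hch]; norm_num
    rw [h3] at h2
    exact h2
  have hm2 : m * h.factorial < C⁻¹ * Γ ^ h := by
    rw [lt_div_iff₀ (by positivity)] at hm
    have : m * h.factorial * C < Γ ^ h := by linarith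
    rw [← lt_div_iff₀ hC0] at this
    rw [inv_mul_eq_div]
    exact this
  have hsmall : ∀ᶠ s : ℝ in 𝓝[>] 0, s ^ (1 / (h : ℝ)) < c * Γ :=
    ht.eventually_lt_const (by positivity)
  have key : ∀ᶠ s : ℝ in 𝓝[>] 0, m * h.factorial ≤
      (1 - Real.exp (-s)) * fr A (Real.exp (-s)) ^ h := by
    filter_upwards [hlim.eventually_const_lt hm2, hsmall, self_mem_nhdsWithin] with s h1 h2 h3
    have hs : (0 : ℝ) < s := h3
    have h4 := fr_ge A hinf hh C hC0 hC hs
    rw [← hΓ] at h4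
    obtain ⟨τ, hτ⟩ : ∃ τ : ℝ, τ = s ^ (1 / (h : ℝ)) := ⟨_, rfl⟩
    have hτ0 : 0 < τ := by rw [hτ]; exact Real.rpow_pos_of_pos hs _
    have hτh : τ ^ h = s := by
      rw [hτ, ← Real.rpow_natCast, ← Real.rpow_mul hs.le]
      have : 1 / (h : ℝ) * h = 1 := by field_simp
      rw [this, Real.rpow_one]
    have h5 : (s * C) ^ (-1 / (h : ℝ)) = c / τ := by
      rw [Real.mul_rpow hs.le hC0.le, hc, hτ]
      have : s ^ (-1 / (h : ℝ)) = (s ^ (1 / (h : ℝ)))⁻¹ := by
        rw [← Real.rpow_neg hs.le]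
        congr 1
        ring
      rw [this]
      ring
    rw [← hτ] at h1 h2
    rw [h5] at h4
    have h6 : (c * Γ - τ) / τ ≤ fr A (Real.exp (-s)) := by
      have : (c * Γ - τ) / τ = c / τ * Γ - 1 := by field_simp
      rw [this]
      linarith
    have h7 : 0 ≤ (c * Γ - τ) / τ := div_nonneg (by linarith) hτ0.le
    have h8 : ((c * Γ - τ) / τ) ^ h ≤ fr A (Real.exp (-s)) ^ h := pow_le_pow_left₀ h7 h6 h
    have h9 : s / (1 + s) ≤ 1 - Real.exp (-s) := by
      have h10 : 1 + s ≤ Real.exp s := by linarith [Real.add_one_le_exp s]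
      have h11 : Real.exp (-s) ≤ (1 + s)⁻¹ := by
        rw [Real.exp_neg]
        exact inv_anti₀ (by linarith) h10
      have h12 : s / (1 + s) = 1 - (1 + s)⁻¹ := by
        field_simp
        ring
      linarith
    calc m * h.factorial ≤ (1 + s)⁻¹ * (c * Γ - τ) ^ h := h1.le
      _ = s / (1 + s) * ((c * Γ - τ) / τ) ^ h := by
          rw [div_pow, hτh]
          field_simp
      _ ≤ (1 - Real.exp (-s)) * fr A (Real.exp (-s)) ^ h := by
          have h13 : 0 ≤ s / (1 + s) := by positivity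
          exact mul_le_mul h9 h8 (by positivity) (h13.trans h9)
  have h3 : ∀ᶠ ρ : ℝ in 𝓝[<] 1, ρ ∈ Set.Ioo (0 : ℝ) 1 := Ioo_mem_nhdsLT (by norm_num)
  filter_upwards [hmap.eventually key, h3] with ρ h4 h5
  rw [neg_neg, Real.exp_log h5.1] at h4
  rw [le_div_iff₀ hH0]
  exact h4

end Pool.Agent.X8.OH
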