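import Pool.Agent.X8.OH.Lim
import Pool.Agent.X8.OH.Ball

/-!
# Order `h`: the analytic inequality for arbitrary complex weights
-/

set_option autoImplicit false

open Finset Filter Topology MeasureTheory

namespace Pool.Agent.X8.OH

open Pool.Agent.H303R3 (tup mem_tup fr Rn Rr)
open Pool.Agent.H303R3.ET (Mo)
open Pool.Agent.X8.ET (Fs cv co co_norm cv_co ca ca_nonneg ca_summable Fs_mul Fs_cont Fs_summable
  Fs_norm_le cv_summable parseval cs geo geo_summable Fs_geo kernel en en_norm w_summable Fs_sub)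

theorem Fs_per (c : ℕ → ℂ) : Function.Periodic (Fs c) 1 := by
  intro x
  unfold Fs
  exact tsum_congr fun n => by rw [en_per n x]

theorem Fs_fin {W : Finset ℕ} {c : ℕ → ℂ} (hc : ∀ k ∉ W, c k = 0) (x : ℝ) :
    Fs c x = tp W c x := by
  unfold Fs tp
  exact tsum_eq_sum fun k hk => by rw [hc k hk, zero_mul]

theorem int_le_sqrt {f : ℝ → ℝ} (hf : Continuous f) (h0 : ∀ x, 0 ≤ f x) :
    ∫ x in (0:ℝ)..1, f x ≤ √(∫ x in (0:ℝ)..1, f x ^ 2) := by
  apply Real.le_sqrt_of_sq_le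
  have e5 := cs (f := f) (g := fun _ => 1) hf continuous_const
  simpa only [mul_one, one_pow, intervalIntegral.integral_const, sub_zero, smul_eq_mul] using e5

/-- the trigonometric polynomial which is subtracted -/
noncomputable def PP (Θ : Finset ℝ) (α : ℝ → ℂ) (n : ℕ) : ℂ := ∑ θ ∈ Θ, α θ * en n θ

theorem PP_kernel (Θ : Finset ℝ) (α : ℝ → ℂ) {ρ : ℝ} (h0 : 1 / 2 ≤ ρ) (h1 : ρ < 1) :
    (Summable fun n => ‖PP Θ α n * ((ρ ^ n : ℝ) : ℂ)‖) ∧
    ∫ x in (0:ℝ)..1, ‖Fs (fun n => PP Θ α n * ((ρ ^ n : ℝ) : ℂ)) x‖ ≤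
      (∑ θ ∈ Θ, ‖α θ‖) * (4 * Real.log (2 / (1 - ρ))) := by
  have hρ : 0 ≤ ρ := by linarith
  have hgeo := geo_summable hρ h1
  have hb : ∀ n, ‖PP Θ α n‖ ≤ ∑ θ ∈ Θ, ‖α θ‖ := by
    intro n
    unfold PP
    refine (norm_sum_le _ _).trans (Finset.sum_le_sum fun θ _ => ?_)
    rw [norm_mul, en_norm, mul_one]
  have hs : Summable fun n => ‖PP Θ α n * ((ρ ^ n : ℝ) : ℂ)‖ := by
    refine Summable.of_nonneg_of_le (fun n => norm_nonneg _) (fun n => ?_)
      (hgeo.mul_left (∑ θ ∈ Θ, ‖α θ‖))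
    rw [norm_mul]
    exact mul_le_mul_of_nonneg_right (hb n) (norm_nonneg _)
  refine ⟨hs, ?_⟩
  have hE : ∀ x, Fs (fun n => PP Θ α n * ((ρ ^ n : ℝ) : ℂ)) x =
      ∑ θ ∈ Θ, α θ * Fs (geo ρ) (x + θ) := by
    intro x
    have e1 : ∀ θ : ℝ, α θ * Fs (geo ρ) (x + θ) = ∑' n, α θ * (geo ρ n * en n (x + θ)) := by
      intro θ
      unfold Fs
      rw [tsum_mul_left]
    simp_rw [e1]
    rw [← Summable.tsum_finsetSum]
    · unfold Fs
      refine tsum_congr fun n => ?_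
      show PP Θ α n * ((ρ ^ n : ℝ) : ℂ) * en n x = _
      unfold PP
      rw [Finset.sum_mul, Finset.sum_mul]
      refine Finset.sum_congr rfl fun θ _ => ?_
      rw [en_add]
      unfold geo
      ring
    · intro θ _
      exact ((Fs_summable hgeo (x + θ)).of_norm).mul_left _
  have hc := Fs_cont hgeo
  have hle : ∀ x, ‖Fs (fun n => PP Θ α n * ((ρ ^ n : ℝ) : ℂ)) x‖ ≤
      ∑ θ ∈ Θ, ‖α θ‖ * ‖Fs (geo ρ) (x + θ)‖ := by
    intro x
    rw [hE]
    refine (norm_sum_le _ _).trans (Finset.sum_le_sum fun θ _ => ?_)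
    rw [norm_mul]
  have h2 : ∫ x in (0:ℝ)..1, ‖Fs (fun n => PP Θ α n * ((ρ ^ n : ℝ) : ℂ)) x‖ ≤
      ∫ x in (0:ℝ)..1, ∑ θ ∈ Θ, ‖α θ‖ * ‖Fs (geo ρ) (x + θ)‖ := by
    refine intervalIntegral.integral_mono_on zero_le_one ?_ ?_ fun x _ => hle x
    · exact ((Fs_cont hs).norm).intervalIntegrable _ _
    · apply Continuous.intervalIntegrable
      exact continuous_finsetSum _ fun θ _ => by fun_prop
  refine h2.trans ?_
  rw [intervalIntegral.integral_finsetSum, Finset.sum_mul]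
  · refine Finset.sum_le_sum fun θ _ => ?_
    rw [intervalIntegral.integral_const_mul]
    refine mul_le_mul_of_nonneg_left ?_ (norm_nonneg _)
    have hper : Function.Periodic (fun x => ‖Fs (geo ρ) x‖) 1 := by
      intro x
      show ‖Fs (geo ρ) (x + 1)‖ = ‖Fs (geo ρ) x‖
      rw [Fs_per]
    have := int_shift hper θ
    rw [this]
    exact kernel h0 h1
  · intro θ _
    apply Continuous.intervalIntegrable
    fun_prop

/-- the level function -/
noncomputable def lev (F : ℝ → ℂ) (f : ℝ) (x : ℝ) : ℝ := min 1 (max 0 (‖F x‖ ^ 2 / (f / 8) - 1))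

theorem lev_nonneg (F : ℝ → ℂ) (f x : ℝ) : 0 ≤ lev F f x :=
  le_min zero_le_one (le_max_left _ _)

theorem lev_le (F : ℝ → ℂ) (f x : ℝ) : lev F f x ≤ 1 := min_le_left _ _

theorem lev_cont {F : ℝ → ℂ} (hF : Continuous F) (f : ℝ) : Continuous (lev F f) := by
  unfold lev
  exact continuous_const.min (continuous_const.max (((hF.norm.pow 2).div_const _).sub
    continuous_const))

theorem lev_mul {F : ℝ → ℂ} {f : ℝ} (hf : 0 < f) (h : ℕ) (x : ℝ) :
    √(f / 8) ^ h * lev F f x ≤ ‖F x‖ ^ h := by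
  by_cases hx : ‖F x‖ ^ 2 ≤ f / 8
  · have : lev F f x = 0 := by
      unfold lev
      have h1 : ‖F x‖ ^ 2 / (f / 8) - 1 ≤ 0 := by
        have : ‖F x‖ ^ 2 / (f / 8) ≤ 1 := (div_le_one (by positivity)).2 hx
        linarith
      rw [max_eq_left h1]
      exact min_eq_right zero_le_one
    rw [this, mul_zero]
    positivity
  · push Not at hx
    have h1 : √(f / 8) ≤ ‖F x‖ := by
      rw [Real.sqrt_le_left (norm_nonneg _)]
      exact hx.le
    calc √(f / 8) ^ h * lev F f x ≤ √(f / 8) ^ h * 1 :=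
          mul_le_mul_of_nonneg_left (lev_le _ _ _) (by positivity)
      _ = √(f / 8) ^ h := mul_one _
      _ ≤ ‖F x‖ ^ h := pow_le_pow_left₀ (Real.sqrt_nonneg _) h1 h

theorem lev_int {F : ℝ → ℂ} (hF : Continuous F) {f C : ℝ} (hf : 0 < f) (hC : 1 ≤ C) {g : ℕ}
    (h2 : ∫ x in (0:ℝ)..1, ‖F x‖ ^ 2 = f)
    (h4 : ∫ x in (0:ℝ)..1, (‖F x‖ ^ (g + 2)) ^ 2 ≤ C * f ^ (g + 2)) :
    1 / (8 * C) ≤ ∫ x in (0:ℝ)..1, lev F f x := by
  have hC0 : 0 < C := by linarith
  have hA : 0 < 4 * C * f := by positivity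
  have hpt : ∀ x, ‖F x‖ ^ 2 ≤ f / 4 + 4 * C * f * lev F f x +
      ((4 * C * f) ^ (g + 1))⁻¹ * (‖F x‖ ^ (g + 2)) ^ 2 := by
    intro x
    obtain ⟨X, hX⟩ : ∃ X : ℝ, X = ‖F x‖ ^ 2 := ⟨_, rfl⟩
    have hX0 : 0 ≤ X := by rw [hX]; positivity
    have hXp : (‖F x‖ ^ (g + 2)) ^ 2 = X ^ (g + 1) * X := by
      rw [hX]; ring
    rw [hXp, ← hX]
    have hl0 := lev_nonneg F f x
    have h5 : 0 ≤ 4 * C * f * lev F f x := by positivity
    have h6 : 0 ≤ ((4 * C * f) ^ (g + 1))⁻¹ * (X ^ (g + 1) * X) := by positivity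
    by_cases hx : X ≤ f / 4
    · linarith
    · push Not at hx
      have h7 : lev F f x = 1 := by
        unfold lev
        rw [← hX]
        have h8 : 1 ≤ X / (f / 8) - 1 := by
          have : 2 ≤ X / (f / 8) := by
            rw [le_div_iff₀ (by positivity)]
            linarith
          linarith
        rw [max_eq_right (by linarith)]
        exact min_eq_left h8
      rw [h7, mul_one]
      rw [h7, mul_one] at h5
      by_cases hx2 : X ≤ 4 * C * f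
      · have : 0 < f / 4 := by positivity
        linarith
      · push Not at hx2
        have h9 : X ≤ ((4 * C * f) ^ (g + 1))⁻¹ * (X ^ (g + 1) * X) := by
          rw [← mul_assoc]
          apply le_mul_of_one_le_left hX0
          rw [inv_mul_eq_div, one_le_div (by positivity)]
          exact pow_le_pow_left₀ hA.le hx2.le _
        have : 0 < f / 4 := by positivity
        linarith
  have hl := lev_cont hF f
  have hint : ∫ x in (0:ℝ)..1, ‖F x‖ ^ 2 ≤ ∫ x in (0:ℝ)..1, (f / 4 + 4 * C * f * lev F f x +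
      ((4 * C * f) ^ (g + 1))⁻¹ * (‖F x‖ ^ (g + 2)) ^ 2) := by
    refine intervalIntegral.integral_mono_on zero_le_one ?_ ?_ fun x _ => hpt x
    · apply Continuous.intervalIntegrable
      fun_prop
    · apply Continuous.intervalIntegrable
      fun_prop
  rw [intervalIntegral.integral_add, intervalIntegral.integral_add,
    intervalIntegral.integral_const_mul, intervalIntegral.integral_const_mul, h2] at hint
  rotate_left
  · exact intervalIntegrable_const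
  · apply Continuous.intervalIntegrable
    fun_prop
  · apply Continuous.intervalIntegrable
    fun_prop
  · apply Continuous.intervalIntegrable
    fun_prop
  simp only [intervalIntegral.integral_const, sub_zero, smul_eq_mul, one_mul] at hint
  have h5 : ((4 * C * f) ^ (g + 1))⁻¹ * ∫ x in (0:ℝ)..1, (‖F x‖ ^ (g + 2)) ^ 2 ≤ f / 4 := by
    have e1 : ((4 * C * f) ^ (g + 1))⁻¹ * ∫ x in (0:ℝ)..1, (‖F x‖ ^ (g + 2)) ^ 2 ≤
        ((4 * C * f) ^ (g + 1))⁻¹ * (C * f ^ (g + 2)) :=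
      mul_le_mul_of_nonneg_left h4 (by positivity)
    refine e1.trans ?_
    have e2 : ((4 * C * f) ^ (g + 1))⁻¹ * (C * f ^ (g + 2)) = ((4 * C) ^ (g + 1))⁻¹ * C * f := by
      rw [mul_pow (4 * C) f]
      field_simp
      ring
    rw [e2]
    have e3 : ((4 * C) ^ (g + 1))⁻¹ * C ≤ 1 / 4 := by
      rw [inv_mul_le_iff₀ (by positivity)]
      have : 4 * C ≤ (4 * C) ^ (g + 1) := by
        calc 4 * C = (4 * C) ^ 1 := (pow_one _).symm
          _ ≤ (4 * C) ^ (g + 1) := pow_le_pow_right₀ (by linarith) (by omega)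
      linarith
    calc ((4 * C) ^ (g + 1))⁻¹ * C * f ≤ 1 / 4 * f := mul_le_mul_of_nonneg_right e3 hf.le
      _ = _ := by ring
  rw [div_le_iff₀ (by positivity)]
  have h6 : f / 2 ≤ 4 * C * f * ∫ x in (0:ℝ)..1, lev F f x := by linarith
  have h7 : (1 / 2) * f ≤ (4 * C * ∫ x in (0:ℝ)..1, lev F f x) * f := by linarith
  have h8 := le_of_mul_le_mul_right h7 hf
  linarith

/-- the window sums with complex weights -/
noncomputable def Sc (A : Set ℕ) (h : ℕ) (c : ℕ → ℂ) (n : ℕ) : ℂ :=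
  ∑ p ∈ antidiagonal n, c p.1 * ((rr A h p.2 : ℝ) : ℂ)

/-- **The analytic inequality for complex weights.** -/
theorem lin_ineq (A : Set ℕ) (hne : A.Nonempty) (g K L : ℕ)
    (hK : ∀ n, Rn A (Mo (k := g + 2)) n ≤ K) (W : Finset ℕ) (c : ℕ → ℂ)
    (hcW : ∀ k ∉ W, c k = 0) (hc1 : ∀ k, ‖c k‖ ≤ 1) (hcard : W.card ≤ L)
    (Θ : Finset ℝ) (α : ℝ → ℂ) {ρ : ℝ} (h0 : 1 / 2 ≤ ρ) (h1 : ρ < 1)
    (hf : 1 ≤ fr A (ρ ^ 2)) {C cL : ℝ} (hC : 1 ≤ C)
    (hCf : ((g + 2).factorial * K : ℝ) ^ 2 * (1 - ρ ^ 2)⁻¹ ≤ C * fr A (ρ ^ 2) ^ (g + 2))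
    (hball : ∀ φ : ℝ → ℝ, Continuous φ →
      Function.Periodic φ 1 → (∀ x, 0 ≤ φ x) → (∀ x, φ x ≤ 1) →
      1 / (8 * C) ≤ ∫ x in (0:ℝ)..1, φ x → ∀ W : Finset ℕ, W.card ≤ L → ∀ b : ℕ → ℂ, ∀ κ ∈ W,
      cL * ‖b κ‖ ≤ ∫ x in (0:ℝ)..1, φ x * ‖tp W b x‖) (κ : ℕ) (hκ : κ ∈ W) :
    √(fr A (ρ ^ 2) / 8) ^ (g + 2) * (cL * (‖c κ‖ * ρ ^ κ)) ≤
      (g + 2).factorial * √(∑' n, ‖Sc A (g + 2) c n - PP Θ α n‖ ^ 2 * (ρ ^ 2) ^ n) +
      (g + 2).factorial * ((∑ θ ∈ Θ, ‖α θ‖) * (4 * Real.log (2 / (1 - ρ)))) +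
      L * √(((g + 2).factorial * K : ℝ) * ((g + 2).factorial * fr A (ρ ^ 2) ^ (g + 1))) := by
  have hρ : 0 ≤ ρ := by linarith
  have hR0 : 0 ≤ ρ ^ 2 := by positivity
  have hR1 : ρ ^ 2 < 1 := by nlinarith
  obtain ⟨H, hH⟩ : ∃ H : ℝ, H = ((g + 2).factorial : ℝ) := ⟨_, rfl⟩
  have hH0 : 0 ≤ H := hH ▸ Nat.cast_nonneg _
  obtain ⟨f, hfd⟩ : ∃ f : ℝ, f = fr A (ρ ^ 2) := ⟨_, rfl⟩
  have hf0 : 0 < f := by rw [hfd]; linarith
  have hKn : (0 : ℝ) ≤ K := Nat.cast_nonneg K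
  -- tuples
  obtain ⟨K', hK'⟩ : ∃ K' : ℕ, K' = (g + 2).factorial * K := ⟨_, rfl⟩
  have htup : ∀ j, j ≤ g + 2 → ∀ n, (tup A j n).card ≤ K' := by
    intro j hj
    exact Pool.Agent.H303R3.ET.tup_bd hne (k := g + 2) (K' := K')
      (fun n => hK' ▸ tt_le A hK n) (g + 2 - j) j (by omega)
  -- summability
  have sia : Summable fun n => ‖ia A n * ρ ^ n‖ := bdd_summable (ia_bdd A) hρ h1
  have stt : ∀ j, j ≤ g + 2 → Summable fun n => ‖tt A j n * ρ ^ n‖ := fun j hj =>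
    bdd_summable (B := K') (fun n => by
      rw [abs_of_nonneg (tt_nonneg _ _ _)]
      unfold tt
      exact_mod_cast htup j hj n) hρ h1
  have srr : Summable fun n => ‖rr A (g + 2) n * ρ ^ n‖ :=
    bdd_summable (B := K) (fun n => by
      rw [abs_of_nonneg (rr_nonneg _ _ _)]
      unfold rr
      exact_mod_cast hK n) hρ h1
  have sEE : Summable fun n => ‖EE A (g + 2) n * ρ ^ n‖ :=
    bdd_summable (B := (g + 2).factorial * K) (fun n => by
      rw [abs_of_nonneg (EE_nonneg _ _ _)]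
      exact EE_le A hK n) hρ h1
  have cia := co_summable sia
  have crr := co_summable srr
  have cEE := co_summable sEE
  have ctt := co_summable (stt (g + 2) le_rfl)
  obtain ⟨cρ, hcρ⟩ : ∃ cρ : ℕ → ℂ, cρ = fun k => c k * ((ρ ^ k : ℝ) : ℂ) := ⟨_, rfl⟩
  have hcρW : ∀ k ∉ W, cρ k = 0 := fun k hk => by
    rw [hcρ]
    show c k * ((ρ ^ k : ℝ) : ℂ) = 0
    rw [hcW k hk, zero_mul]
  have ccρ : Summable fun n => ‖cρ n‖ :=
    summable_of_ne_finset_zero (s := W) fun k hk => by rw [hcρW k hk, norm_zero]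
  obtain ⟨hPs, hPk⟩ := PP_kernel Θ α h0 h1
  -- functions
  obtain ⟨G, hG⟩ : ∃ G : ℝ → ℂ, G = Fs cρ := ⟨_, rfl⟩
  obtain ⟨F, hF⟩ : ∃ F : ℝ → ℂ, F = Fs (co fun k => ia A k * ρ ^ k) := ⟨_, rfl⟩
  obtain ⟨R, hR⟩ : ∃ R : ℝ → ℂ, R = Fs (co fun k => rr A (g + 2) k * ρ ^ k) := ⟨_, rfl⟩
  obtain ⟨E, hE⟩ : ∃ E : ℝ → ℂ, E = Fs (co fun k => EE A (g + 2) k * ρ ^ k) := ⟨_, rfl⟩
  obtain ⟨P, hP⟩ : ∃ P : ℝ → ℂ, P = Fs (fun n => PP Θ α n * ((ρ ^ n : ℝ) : ℂ)) := ⟨_, rfl⟩
  have hGc : Continuous G := hG ▸ Fs_cont ccρ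
  have hFc : Continuous F := hF ▸ Fs_cont cia
  have hRc : Continuous R := hR ▸ Fs_cont crr
  have hEc : Continuous E := hE ▸ Fs_cont cEE
  have hPc : Continuous P := hP ▸ Fs_cont hPs
  have hpow : ∀ j, j ≤ g + 2 → ∀ x, Fs (co fun n => tt A j n * ρ ^ n) x = F x ^ j := by
    intro j hj x
    rw [hF]
    exact Fs_pow A hρ h1 htup x j hj
  -- the representation function
  have hHR : ∀ x, (H : ℂ) * R x = F x ^ (g + 2) + E x := by
    intro x
    have e1 : Fs (fun n => (H : ℂ) * co (fun k => rr A (g + 2) k * ρ ^ k) n) x = H * R x := by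
      unfold Fs
      rw [hR]
      unfold Fs
      rw [← tsum_mul_left]
      exact tsum_congr fun n => by ring
    have sH : Summable fun n => ‖(H : ℂ) * co (fun k => rr A (g + 2) k * ρ ^ k) n‖ := by
      simp_rw [norm_mul]
      exact crr.mul_left _
    have e2 := Fs_sub sH ctt 1 x
    have e3 : (fun n => (H : ℂ) * co (fun k => rr A (g + 2) k * ρ ^ k) n -
        1 * co (fun n => tt A (g + 2) n * ρ ^ n) n) = co fun k => EE A (g + 2) k * ρ ^ k := by
      funext n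
      unfold co EE
      rw [hH]
      push_cast
      ring
    rw [e3, e1, hpow (g + 2) le_rfl, one_mul, ← hE] at e2
    rw [e2]
    ring
  -- the deviation
  have hcvS : cv cρ (co fun k => rr A (g + 2) k * ρ ^ k) =
      fun n => Sc A (g + 2) c n * ((ρ ^ n : ℝ) : ℂ) := by
    funext n
    unfold cv Sc co
    rw [Finset.sum_mul]
    refine Finset.sum_congr rfl fun p hp => ?_
    rw [HasAntidiagonal.mem_antidiagonal] at hp
    rw [hcρ, ← hp, pow_add]
    push_cast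
    ring
  have sSc : Summable fun n => ‖Sc A (g + 2) c n * ((ρ ^ n : ℝ) : ℂ)‖ := by
    have := cv_summable ccρ crr
    rw [hcvS] at this
    exact this
  obtain ⟨v, hv⟩ : ∃ v : ℕ → ℂ, v = fun n => Sc A (g + 2) c n * ((ρ ^ n : ℝ) : ℂ) -
    1 * (PP Θ α n * ((ρ ^ n : ℝ) : ℂ)) := ⟨_, rfl⟩
  have svs : Summable fun n => ‖v n‖ := by
    rw [hv]
    refine Summable.of_nonneg_of_le (fun n => norm_nonneg _) (fun n => norm_sub_le _ _)
      (sSc.add ?_)
    simp_rw [one_mul]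
    exact hPs
  obtain ⟨V, hV⟩ : ∃ V : ℝ → ℂ, V = Fs v := ⟨_, rfl⟩
  have hVc : Continuous V := hV ▸ Fs_cont svs
  have hVeq : ∀ x, V x = G x * R x - P x := by
    intro x
    rw [hV, hv, Fs_sub sSc hPs, ← hcvS, ← Fs_mul ccρ crr, hG, hR, hP, one_mul]
  have hT : ∫ x in (0:ℝ)..1, ‖V x‖ ^ 2 =
      ∑' n, ‖Sc A (g + 2) c n - PP Θ α n‖ ^ 2 * (ρ ^ 2) ^ n := by
    rw [hV, parseval svs]
    refine tsum_congr fun n => ?_
    have : v n = (Sc A (g + 2) c n - PP Θ α n) * ((ρ ^ n : ℝ) : ℂ) := by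
      rw [hv]
      ring
    rw [this, norm_mul, Complex.norm_real, Real.norm_eq_abs, mul_pow, sq_abs, ← pow_mul, ← pow_mul,
      mul_comm n 2]
  have hE2 : ∫ x in (0:ℝ)..1, ‖E x‖ ^ 2 ≤ (H * K) * (H * f ^ (g + 1)) := by
    rw [hE, parseval cEE, hfd]
    obtain ⟨e1, e2⟩ := EE_tsum A (g + 2) hR0 hR1 hf
    have e3 : ∀ n, ‖co (fun k => EE A (g + 2) k * ρ ^ k) n‖ ^ 2 ≤
        (H * K) * (EE A (g + 2) n * (ρ ^ 2) ^ n) := by
      intro n
      rw [co_norm, sq_abs, mul_pow, ← pow_mul, mul_comm n 2, pow_mul]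
      have e4 := EE_nonneg A (g + 2) n
      have e5 := EE_le A hK n
      rw [← hH] at e5
      have e6 : 0 ≤ (ρ ^ 2) ^ n := by positivity
      calc EE A (g + 2) n ^ 2 * (ρ ^ 2) ^ n = EE A (g + 2) n * (EE A (g + 2) n * (ρ ^ 2) ^ n) := by
            ring
        _ ≤ _ := mul_le_mul_of_nonneg_right e5 (by positivity)
    have e7 : Summable fun n => ‖co (fun k => EE A (g + 2) k * ρ ^ k) n‖ ^ 2 :=
      Summable.of_nonneg_of_le (fun n => by positivity) e3 (e1.mul_left _)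
    refine (Summable.tsum_le_tsum e3 e7 (e1.mul_left _)).trans ?_
    rw [tsum_mul_left]
    refine mul_le_mul_of_nonneg_left ?_ (mul_nonneg hH0 hKn)
    rw [hH]
    exact e2
  -- the moments of `F`
  have hF2 : ∫ x in (0:ℝ)..1, ‖F x‖ ^ 2 = f := by
    rw [hF, parseval cia, hfd, ← ia_tsum]
    refine tsum_congr fun n => ?_
    rw [co_norm, sq_abs, mul_pow, ← pow_mul, ← pow_mul, mul_comm n 2]
    congr 1
    unfold ia
    split_ifs <;> norm_num
  have hF4 : ∫ x in (0:ℝ)..1, (‖F x‖ ^ (g + 2)) ^ 2 ≤ C * f ^ (g + 2) := by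
    have e1 : ∀ x, (‖F x‖ ^ (g + 2)) ^ 2 = ‖Fs (co fun n => tt A (g + 2) n * ρ ^ n) x‖ ^ 2 := by
      intro x
      rw [hpow (g + 2) le_rfl, norm_pow]
    simp_rw [e1]
    rw [parseval ctt]
    have e2 : ∀ n, ‖co (fun n => tt A (g + 2) n * ρ ^ n) n‖ ^ 2 ≤
        ((g + 2).factorial * K : ℝ) ^ 2 * (ρ ^ 2) ^ n := by
      intro n
      rw [co_norm, sq_abs, mul_pow, ← pow_mul, mul_comm n 2, pow_mul]
      refine mul_le_mul_of_nonneg_right ?_ (by positivity)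
      refine pow_le_pow_left₀ (tt_nonneg _ _ _) ?_ 2
      unfold tt
      exact_mod_cast tt_le A hK n
    have hg := summable_geometric_of_lt_one hR0 hR1
    have e3 : Summable fun n => ‖co (fun n => tt A (g + 2) n * ρ ^ n) n‖ ^ 2 :=
      Summable.of_nonneg_of_le (fun n => by positivity) e2 (hg.mul_left _)
    refine (Summable.tsum_le_tsum e2 e3 (hg.mul_left _)).trans ?_
    rw [tsum_mul_left, tsum_geometric_of_lt_one hR0 hR1, hfd]
    exact hCf
  have hlev := lev_int hFc hf0 hC hF2 hF4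
  have hlevp : Function.Periodic (lev F f) 1 := by
    intro x
    unfold lev
    have : F (x + 1) = F x := by rw [hF]; exact Fs_per _ x
    rw [this]
  have hb := hball (lev F f) (lev_cont hFc f) hlevp (lev_nonneg F f) (lev_le F f) hlev W hcard cρ κ hκ
  have hGtp : ∀ x, tp W cρ x = G x := fun x => by rw [hG, Fs_fin hcρW]
  simp_rw [hGtp] at hb
  have hcκ : ‖cρ κ‖ = ‖c κ‖ * ρ ^ κ := by
    rw [hcρ, norm_mul, Complex.norm_real, Real.norm_of_nonneg (by positivity)]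
  rw [hcκ] at hb
  -- pointwise bounds
  have hGle : ∀ x, ‖G x‖ ≤ L := by
    intro x
    rw [← hGtp]
    unfold tp
    refine (norm_sum_le _ _).trans ?_
    calc ∑ k ∈ W, ‖cρ k * en k x‖ ≤ ∑ _k ∈ W, (1 : ℝ) := by
          refine Finset.sum_le_sum fun k _ => ?_
          rw [norm_mul, en_norm, mul_one, hcρ, norm_mul, Complex.norm_real,
            Real.norm_of_nonneg (by positivity : (0 : ℝ) ≤ ρ ^ k)]
          exact mul_le_one₀ (hc1 k) (by positivity) (pow_le_one₀ hρ h1.le)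
      _ = W.card := by simp
      _ ≤ L := by exact_mod_cast hcard
  have hpt : ∀ x, √(f / 8) ^ (g + 2) * (lev F f x * ‖G x‖) ≤
      H * ‖V x‖ + H * ‖P x‖ + L * ‖E x‖ := by
    intro x
    have e1 : G x * F x ^ (g + 2) = H * (V x + P x) - G x * E x := by
      have := hHR x
      have e2 : F x ^ (g + 2) = H * R x - E x := by rw [this]; ring
      rw [e2, hVeq]
      ring
    have e2 : ‖G x‖ * ‖F x‖ ^ (g + 2) ≤ H * ‖V x‖ + H * ‖P x‖ + L * ‖E x‖ := by
      have e3 : ‖G x‖ * ‖F x‖ ^ (g + 2) = ‖G x * F x ^ (g + 2)‖ := by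
        rw [norm_mul, norm_pow]
      rw [e3, e1]
      refine (norm_sub_le _ _).trans ?_
      rw [norm_mul, Complex.norm_real, Real.norm_of_nonneg hH0]
      have e4 : ‖G x * E x‖ ≤ L * ‖E x‖ := by
        rw [norm_mul]
        exact mul_le_mul_of_nonneg_right (hGle x) (norm_nonneg _)
      have e5 := mul_le_mul_of_nonneg_left (norm_add_le (V x) (P x)) hH0
      linarith
    refine le_trans ?_ e2
    have e6 := mul_le_mul_of_nonneg_right (lev_mul (F := F) hf0 (g + 2) x) (norm_nonneg (G x))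
    linarith
  have hlc := lev_cont hFc f
  have hint : ∫ x in (0:ℝ)..1, √(f / 8) ^ (g + 2) * (lev F f x * ‖G x‖) ≤
      ∫ x in (0:ℝ)..1, (H * ‖V x‖ + H * ‖P x‖ + L * ‖E x‖) := by
    refine intervalIntegral.integral_mono_on zero_le_one ?_ ?_ fun x _ => hpt x
    · apply Continuous.intervalIntegrable
      fun_prop
    · apply Continuous.intervalIntegrable
      fun_prop
  rw [intervalIntegral.integral_const_mul, intervalIntegral.integral_add,
    intervalIntegral.integral_add, intervalIntegral.integral_const_mul,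
    intervalIntegral.integral_const_mul, intervalIntegral.integral_const_mul] at hint
  rotate_left
  · apply Continuous.intervalIntegrable
    fun_prop
  · apply Continuous.intervalIntegrable
    fun_prop
  · apply Continuous.intervalIntegrable
    fun_prop
  · apply Continuous.intervalIntegrable
    fun_prop
  have c1 : ∫ x in (0:ℝ)..1, ‖V x‖ ≤
      √(∑' n, ‖Sc A (g + 2) c n - PP Θ α n‖ ^ 2 * (ρ ^ 2) ^ n) := by
    rw [← hT]
    exact int_le_sqrt hVc.norm fun x => norm_nonneg _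
  have c2 : ∫ x in (0:ℝ)..1, ‖E x‖ ≤ √((H * K) * (H * f ^ (g + 1))) :=
    (int_le_sqrt hEc.norm fun x => norm_nonneg _).trans (Real.sqrt_le_sqrt hE2)
  rw [← hP] at hPk
  have d1 := mul_le_mul_of_nonneg_left c1 hH0
  have d2 := mul_le_mul_of_nonneg_left c2 (Nat.cast_nonneg L : (0 : ℝ) ≤ L)
  have d3 := mul_le_mul_of_nonneg_left hPk hH0
  have d4 := mul_le_mul_of_nonneg_left hb (show 0 ≤ √(f / 8) ^ (g + 2) by positivity)
  rw [← hH, ← hfd]
  linarith

end Pool.Agent.X8.OH
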