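import Pool.Agent.X8.OH.Lin
import Pool.Agent.X8.OH.Gro

/-!
# Order `h`: linear relations between translates, final argument
-/

set_option autoImplicit false

open Finset Filter Topology MeasureTheory

namespace Pool.Agent.X8.OH

open Pool.Agent.H303R3 (tup mem_tup fr Rn Rr)
open Pool.Agent.H303R3.ET (Mo)
open Pool.Agent.X8.ET (en en_norm)

/-- lower bound for the energy, numerical part -/
theorem num_lin {g : ℕ} {x ℓ lam f H K L a Λ q cL c4 m' T : ℝ} (hx : 0 < x) (hlam : 0 < lam)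
    (hf : 1 ≤ f) (hH : 0 < H) (hK : 0 ≤ K) (hL : 0 ≤ L) (ha : 0 ≤ a) (hℓ : 0 < ℓ)
    (hΛ : Λ ≤ ℓ) (hcL : 0 < cL) (hm' : 0 < m') (hT : 0 ≤ T)
    (hc4 : c4 = cL ^ 2 * m' / (32 * 8 ^ (g + 2) * H))
    (hfx : H * m' * x ≤ 2 * lam * f ^ (g + 2)) (haℓ : a * ℓ ^ 2 ≤ √x) (hq : 1 / 2 ≤ q)
    (hbig1 : (32 * H) ^ 2 * (2 * lam) * 8 ^ (g + 2) ≤ cL ^ 2 * (H * m') * ℓ ^ 2)
    (hbig2 : 64 * (8 ^ (g + 2) * (L ^ 2 * (H * K * H))) ≤ cL ^ 2 * f)
    (hmain : √(f / 8) ^ (g + 2) * (cL * q) ≤ H * √T + H * (a * (4 * Λ)) +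
      L * √(H * K * (H * f ^ (g + 1)))) :
    c4 * (x / lam) ≤ T := by
  obtain ⟨Y, hY⟩ : ∃ Y : ℝ, Y = √(f / 8) ^ (g + 2) * cL := ⟨_, rfl⟩
  have hf0 : 0 < f := by linarith
  have h8 : (0 : ℝ) < 8 ^ (g + 2) := by positivity
  have hY0 : 0 < Y := by rw [hY]; positivity
  have hY2 : Y ^ 2 = cL ^ 2 * f ^ (g + 2) / 8 ^ (g + 2) := by
    rw [hY, mul_pow, ← pow_mul, mul_comm (g + 2) 2, pow_mul, Real.sq_sqrt (by positivity), div_pow]
    ring
  -- the size of `f`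
  have hYx : cL ^ 2 * (H * m') * x ≤ 2 * lam * 8 ^ (g + 2) * Y ^ 2 := by
    rw [hY2]
    have e1 := mul_le_mul_of_nonneg_left hfx (show 0 ≤ cL ^ 2 by positivity)
    have e2 : 2 * lam * 8 ^ (g + 2) * (cL ^ 2 * f ^ (g + 2) / 8 ^ (g + 2)) =
        cL ^ 2 * (2 * lam * f ^ (g + 2)) := by field_simp
    rw [e2]
    linarith
  -- first error
  have e1 : H * (a * (4 * Λ)) ≤ Y / 8 := by
    have a1 : H * (a * (4 * Λ)) ≤ 4 * H * (a * ℓ) := by
      have := mul_le_mul_of_nonneg_left hΛ (show 0 ≤ 4 * H * a by positivity)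
      linarith
    refine a1.trans ?_
    have a2 : a * ℓ * ℓ ≤ √x := by
      calc a * ℓ * ℓ = a * ℓ ^ 2 := by ring
        _ ≤ √x := haℓ
    have a3 : (32 * H * (a * ℓ)) ^ 2 ≤ Y ^ 2 := by
      have b1 : (a * ℓ * ℓ) ^ 2 ≤ x := by
        have := pow_le_pow_left₀ (by positivity) a2 2
        rwa [Real.sq_sqrt hx.le] at this
      have b2 : (cL ^ 2 * (H * m') * ℓ ^ 2) * (32 * H * (a * ℓ)) ^ 2 ≤
          (cL ^ 2 * (H * m') * ℓ ^ 2) * Y ^ 2 := by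
        calc (cL ^ 2 * (H * m') * ℓ ^ 2) * (32 * H * (a * ℓ)) ^ 2 =
              (cL ^ 2 * (H * m')) * (32 * H) ^ 2 * (a * ℓ * ℓ) ^ 2 := by ring
          _ ≤ (cL ^ 2 * (H * m')) * (32 * H) ^ 2 * x :=
            mul_le_mul_of_nonneg_left b1 (by positivity)
          _ = (32 * H) ^ 2 * (cL ^ 2 * (H * m') * x) := by ring
          _ ≤ (32 * H) ^ 2 * (2 * lam * 8 ^ (g + 2) * Y ^ 2) :=
            mul_le_mul_of_nonneg_left hYx (by positivity)
          _ = ((32 * H) ^ 2 * (2 * lam) * 8 ^ (g + 2)) * Y ^ 2 := by ring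
          _ ≤ _ := mul_le_mul_of_nonneg_right hbig1 (by positivity)
      exact le_of_mul_le_mul_left b2 (by positivity)
    have a4 := le_of_pow_le_pow_left₀ (n := 2) (by norm_num) hY0.le a3
    linarith
  -- second error
  have e2 : L * √(H * K * (H * f ^ (g + 1))) ≤ Y / 8 := by
    have a1 : (8 * (L * √(H * K * (H * f ^ (g + 1))))) ^ 2 ≤ Y ^ 2 := by
      rw [hY2, le_div_iff₀ h8]
      calc (8 * (L * √(H * K * (H * f ^ (g + 1))))) ^ 2 * 8 ^ (g + 2) =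
            64 * L ^ 2 * (√(H * K * (H * f ^ (g + 1)))) ^ 2 * 8 ^ (g + 2) := by ring
        _ = (64 * (8 ^ (g + 2) * (L ^ 2 * (H * K * H)))) * f ^ (g + 1) := by
            rw [Real.sq_sqrt (by positivity)]
            ring
        _ ≤ (cL ^ 2 * f) * f ^ (g + 1) := mul_le_mul_of_nonneg_right hbig2 (by positivity)
        _ = _ := by ring
    have a4 := le_of_pow_le_pow_left₀ (n := 2) (by norm_num) hY0.le a1
    linarith
  -- conclusion
  have e3 : Y / 2 ≤ √(f / 8) ^ (g + 2) * (cL * q) := by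
    have : √(f / 8) ^ (g + 2) * (cL * q) = Y * q := by rw [hY]; ring
    rw [this]
    have := mul_le_mul_of_nonneg_left hq hY0.le
    linarith
  have e4 : Y / 4 ≤ H * √T := by linarith
  have e5 : (Y / 4) ^ 2 ≤ H ^ 2 * T := by
    have := pow_le_pow_left₀ (by positivity) e4 2
    rwa [mul_pow, Real.sq_sqrt hT] at this
  have e6 : c4 * (x / lam) * (H ^ 2 * (2 * lam * 8 ^ (g + 2))) ≤
      T * (H ^ 2 * (2 * lam * 8 ^ (g + 2))) := by
    have b1 : c4 * (x / lam) * (H ^ 2 * (2 * lam * 8 ^ (g + 2))) =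
        (cL ^ 2 * (H * m') * x) / 16 := by
      rw [hc4]
      field_simp
      ring
    rw [b1]
    calc (cL ^ 2 * (H * m') * x) / 16 ≤ (2 * lam * 8 ^ (g + 2) * Y ^ 2) / 16 := by linarith
      _ = (2 * lam * 8 ^ (g + 2)) * (Y / 4) ^ 2 := by ring
      _ ≤ (2 * lam * 8 ^ (g + 2)) * (H ^ 2 * T) := mul_le_mul_of_nonneg_left e5 (by positivity)
      _ = _ := by ring
  exact le_of_mul_le_mul_right e6 (by positivity)

open Classical in
/-- upper bound for the energy in terms of the number of exceptions -/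
theorem energy_cnt (S : ℕ → ℂ) {M N : ℕ} {B δ : ℝ} (hB : ∀ n, ‖S n‖ ≤ B) (hδ : 0 ≤ δ)
    {ρ : ℝ} (h0 : 0 ≤ ρ) (h1 : ρ < 1) :
    ∑' n, ‖S n‖ ^ 2 * (ρ ^ 2) ^ n ≤
      B ^ 2 * (((range (N + 1)).filter (fun n => M ≤ n ∧ δ ≤ ‖S n‖)).card + M) +
      δ ^ 2 * (1 - ρ)⁻¹ + B ^ 2 * ρ ^ N * (1 - ρ)⁻¹ := by
  have hR0 : 0 ≤ ρ ^ 2 := by positivity
  have hR1 : ρ ^ 2 < 1 := by nlinarith
  have hB0 : 0 ≤ B := (norm_nonneg _).trans (hB 0)
  obtain ⟨Bad, hBad⟩ : ∃ Bad : Finset ℕ,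
    Bad = (range (N + 1)).filter (fun n => M ≤ n ∧ δ ≤ ‖S n‖) := ⟨_, rfl⟩
  obtain ⟨D, hD⟩ : ∃ D : ℕ → ℝ, D = fun n => if n ∈ Bad ∪ range M then B ^ 2 else 0 := ⟨_, rfl⟩
  have hDs : Summable D := summable_of_ne_finset_zero (s := Bad ∪ range M) fun n hn => by
    rw [hD]
    show (if n ∈ Bad ∪ range M then B ^ 2 else 0) = 0
    rw [if_neg hn]
  have hDt : ∑' n, D n ≤ B ^ 2 * (Bad.card + M) := by
    rw [tsum_eq_sum (s := Bad ∪ range M) fun n hn => by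
      rw [hD]
      show (if n ∈ Bad ∪ range M then B ^ 2 else 0) = 0
      rw [if_neg hn]]
    rw [hD, Finset.sum_congr rfl (g := fun _ => B ^ 2) (fun n hn => by
      show (if n ∈ Bad ∪ range M then B ^ 2 else 0) = _
      rw [if_pos hn])]
    rw [Finset.sum_const, nsmul_eq_mul, mul_comm]
    refine mul_le_mul_of_nonneg_left ?_ (sq_nonneg _)
    have h1 := Finset.card_union_le Bad (range M)
    rw [card_range] at h1
    exact_mod_cast h1
  have hg2 := summable_geometric_of_lt_one h0 h1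
  have hD0 : ∀ n, 0 ≤ D n := by
    intro n
    rw [hD]
    show 0 ≤ (if n ∈ Bad ∪ range M then B ^ 2 else 0)
    split_ifs
    · positivity
    · exact le_rfl
  have hpt : ∀ n, ‖S n‖ ^ 2 * (ρ ^ 2) ^ n ≤
      D n + δ ^ 2 * ρ ^ n + B ^ 2 * ρ ^ N * ρ ^ n := by
    intro n
    have hp0 : 0 ≤ (ρ ^ 2) ^ n := by positivity
    have hp1 : (ρ ^ 2) ^ n ≤ 1 := pow_le_one₀ hR0 hR1.le
    have hp2 : (ρ ^ 2) ^ n ≤ ρ ^ n := by
      rw [← pow_mul]
      exact pow_le_pow_of_le_one h0 h1.le (by omega)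
    have h2 : ‖S n‖ ^ 2 ≤ B ^ 2 := pow_le_pow_left₀ (norm_nonneg _) (hB n) 2
    have h3 : 0 ≤ δ ^ 2 * ρ ^ n := by positivity
    have h4 : 0 ≤ B ^ 2 * ρ ^ N * ρ ^ n := by positivity
    by_cases hn : n ∈ Bad ∪ range M
    · have h5 : D n = B ^ 2 := by rw [hD]; exact if_pos hn
      rw [h5]
      have h6 : ‖S n‖ ^ 2 * (ρ ^ 2) ^ n ≤ ‖S n‖ ^ 2 := mul_le_of_le_one_right (sq_nonneg _) hp1
      linarith
    · rw [Finset.mem_union, not_or, mem_range, not_lt, hBad, Finset.mem_filter, mem_range] at hn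
      by_cases hn2 : n ≤ N
      · have h7 : ‖S n‖ < δ := by
          by_contra h8
          push Not at h8
          exact hn.1 ⟨by omega, hn.2, h8⟩
        have h8 : ‖S n‖ ^ 2 ≤ δ ^ 2 := pow_le_pow_left₀ (norm_nonneg _) h7.le 2
        have h9 : ‖S n‖ ^ 2 * (ρ ^ 2) ^ n ≤ δ ^ 2 * ρ ^ n :=
          mul_le_mul h8 hp2 hp0 (sq_nonneg _)
        linarith [hD0 n]
      · have h6 := mul_le_mul_of_nonneg_right h2 hp0
        have h7 : (ρ ^ 2) ^ n ≤ ρ ^ N * ρ ^ n := by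
          rw [← pow_add, ← pow_mul]
          exact pow_le_pow_of_le_one h0 h1.le (by omega)
        have h8 := mul_le_mul_of_nonneg_left h7 (sq_nonneg B)
        linarith [hD0 n]
  have hsum := (hDs.add (hg2.mul_left (δ ^ 2))).add (hg2.mul_left (B ^ 2 * ρ ^ N))
  have h5 : ∑' n, ‖S n‖ ^ 2 * (ρ ^ 2) ^ n ≤
      ∑' n, (D n + δ ^ 2 * ρ ^ n + B ^ 2 * ρ ^ N * ρ ^ n) := by
    refine Summable.tsum_le_tsum hpt ?_ hsum
    exact Summable.of_nonneg_of_le (fun n => by positivity) hpt hsum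
  rw [(hDs.add (hg2.mul_left (δ ^ 2))).tsum_add (hg2.mul_left (B ^ 2 * ρ ^ N)),
    hDs.tsum_add (hg2.mul_left (δ ^ 2)), tsum_mul_left, tsum_mul_left,
    tsum_geometric_of_lt_one h0 h1] at h5
  rw [← hBad]
  linarith

open Classical in
/-- **Linear relations between translates of a bounded representation function**, order
`h = g + 2`. -/
theorem lin_growing (g K L : ℕ) (B m' : ℝ) (hm' : 0 < m') (hB : 0 ≤ B) :
    ∃ δ : ℝ, 0 < δ ∧ ∀ A : Set ℕ, A.Nonempty → (∀ n, Rn A (Mo (k := g + 2)) n ≤ K) →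
    (∀ᶠ R : ℝ in 𝓝[<] 1, m' ≤ (1 - R) * fr A R ^ (g + 2) / (g + 2).factorial) →
    ∀ᶠ N : ℕ in atTop, ∀ W : Finset ℕ, W.card ≤ L → (∀ k ∈ W, (k : ℝ) ≤ δ * N) →
      ∀ c : ℕ → ℂ, (∀ k ∉ W, c k = 0) → (∀ k, ‖c k‖ ≤ 1) → (∃ κ ∈ W, ‖c κ‖ = 1) →
      ∀ (Θ : Finset ℝ) (α : ℝ → ℂ), (∀ n, ‖PP Θ α n‖ ≤ B) →
      (∑ θ ∈ Θ, ‖α θ‖) * Real.log N ^ 2 ≤ √N →
      δ * N ≤ ((range (N + 1)).filter (fun n => (∀ k ∈ W, k ≤ n) ∧
        δ ≤ ‖Sc A (g + 2) c n - PP Θ α n‖)).card := by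
  obtain ⟨H, hH⟩ : ∃ H : ℝ, H = ((g + 2).factorial : ℝ) := ⟨_, rfl⟩
  have hH0 : 0 < H := by rw [hH]; exact_mod_cast Nat.factorial_pos _
  have hK0 : (0 : ℝ) ≤ K := Nat.cast_nonneg K
  have hL0 : (0 : ℝ) ≤ L := Nat.cast_nonneg L
  obtain ⟨C, hC⟩ : ∃ C : ℝ, C = (H * K) ^ 2 / (H * m') + 1 := ⟨_, rfl⟩
  have hC1 : 1 ≤ C := by
    rw [hC]
    have : 0 ≤ (H * K) ^ 2 / (H * m') := by positivity
    linarith
  obtain ⟨cL, hcL, hball⟩ := small_ball L (1 / (8 * C)) (by positivity)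
  obtain ⟨c4, hc4⟩ : ∃ c4 : ℝ, c4 = cL ^ 2 * m' / (32 * 8 ^ (g + 2) * H) := ⟨_, rfl⟩
  have hc40 : 0 < c4 := by rw [hc4]; positivity
  obtain ⟨B1, hB1⟩ : ∃ B1 : ℝ, B1 = L * K + B + 1 := ⟨_, rfl⟩
  have hB11 : 1 ≤ B1 := by
    rw [hB1]
    have : 0 ≤ (L : ℝ) * K := by positivity
    linarith
  obtain ⟨lam, hlam⟩ : ∃ lam : ℝ, lam = 2 + 4 * B1 ^ 2 / c4 := ⟨_, rfl⟩
  have hlam2 : 2 ≤ lam := by
    rw [hlam]
    have : 0 ≤ 4 * B1 ^ 2 / c4 := by positivity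
    linarith
  have hlamB : B1 ^ 2 ≤ c4 / 4 * lam := by
    rw [hlam]
    have : c4 / 4 * (2 + 4 * B1 ^ 2 / c4) = c4 / 2 + B1 ^ 2 := by
      field_simp
      ring
    rw [this]
    linarith
  obtain ⟨δ, hδ⟩ : ∃ δ : ℝ, δ = min (1 / (2 * lam)) (min (c4 / (8 * lam * B1 ^ 2))
    (min (c4 / 8) 1)) := ⟨_, rfl⟩
  have hδ0 : 0 < δ := by
    rw [hδ]
    exact lt_min (by positivity) (lt_min (by positivity) (lt_min (by positivity) one_pos))
  have hδ1 : δ * lam ≤ 1 / 2 := by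
    have : δ ≤ 1 / (2 * lam) := by rw [hδ]; exact min_le_left _ _
    calc δ * lam ≤ 1 / (2 * lam) * lam := mul_le_mul_of_nonneg_right this (by linarith)
      _ = 1 / 2 := by field_simp
  have hδ2 : B1 ^ 2 * δ ≤ c4 / (8 * lam) := by
    have : δ ≤ c4 / (8 * lam * B1 ^ 2) := by
      rw [hδ]; exact (min_le_right _ _).trans (min_le_left _ _)
    calc B1 ^ 2 * δ ≤ B1 ^ 2 * (c4 / (8 * lam * B1 ^ 2)) :=
          mul_le_mul_of_nonneg_left this (by positivity)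
      _ = c4 / (8 * lam) := by field_simp
  have hδ3 : δ ^ 2 ≤ c4 / 8 := by
    have h1 : δ ≤ c4 / 8 := by
      rw [hδ]; exact (min_le_right _ _).trans ((min_le_right _ _).trans (min_le_left _ _))
    have h2 : δ ≤ 1 := by
      rw [hδ]; exact (min_le_right _ _).trans ((min_le_right _ _).trans (min_le_right _ _))
    nlinarith
  refine ⟨δ, hδ0, fun A hne hK hA => ?_⟩
  -- the parameter
  have hcast : Tendsto (fun N : ℕ => (N : ℝ)) atTop atTop := tendsto_natCast_atTop_atTop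
  have hlog : Tendsto (fun N : ℕ => Real.log N) atTop atTop :=
    Real.tendsto_log_atTop.comp tendsto_natCast_atTop_atTop
  have hlog2 : Tendsto (fun N : ℕ => cL ^ 2 * (H * m') * Real.log N ^ 2) atTop atTop :=
    ((tendsto_pow_atTop (by norm_num)).comp hlog).const_mul_atTop (by positivity)
  have ev1 := hlog2.eventually_ge_atTop ((32 * H) ^ 2 * (2 * lam) * 8 ^ (g + 2))
  have ev2 := hlog.eventually_gt_atTop 0
  -- `f` is large
  obtain ⟨F0, hF0⟩ : ∃ F0 : ℝ, F0 = 64 * (8 ^ (g + 2) * (L ^ 2 * (H * K * H))) / cL ^ 2 + 1 :=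
    ⟨_, rfl⟩
  have hF01 : 1 ≤ F0 := by
    rw [hF0]
    have : 0 ≤ 64 * (8 ^ (g + 2) * (L ^ 2 * (H * K * H))) / cL ^ 2 := by positivity
    linarith
  have ev3 := (hcast.const_mul_atTop (show 0 < H * m' by positivity)).eventually_ge_atTop
    (2 * lam * F0 ^ (g + 2))
  have ev4 := hcast.eventually_ge_atTop (2 * lam)
  have hρlim : Tendsto (fun N : ℕ => lam / N) atTop (𝓝 0) :=
    tendsto_const_nhds.div_atTop hcast
  have hR : Tendsto (fun N : ℕ => (1 - lam / N) ^ 2) atTop (𝓝[<] 1) := by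
    refine tendsto_nhdsWithin_iff.2 ⟨?_, ?_⟩
    · have h1 : Tendsto (fun N : ℕ => (1 - lam / N) ^ 2) atTop (𝓝 ((1 - 0) ^ 2)) :=
        (hρlim.const_sub 1).pow 2
      simpa using h1
    · filter_upwards [ev4] with N h1
      have hN : (0 : ℝ) < N := by linarith
      have h4 : 0 < lam / N := by positivity
      have h5 : lam / N ≤ 1 / 2 := by
        rw [div_le_iff₀ hN]; linarith
      rw [Set.mem_Iio]
      nlinarith
  filter_upwards [ev1, ev2, ev3, ev4, hR.eventually hA] with N n1 n2 n3 n4 n5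
  intro W hW hWδ c hcW hc1 hκ Θ α hP hα
  obtain ⟨κ, hκW, hκ1⟩ := hκ
  obtain ⟨x, hx⟩ : ∃ x : ℝ, x = (N : ℝ) := ⟨_, rfl⟩
  rw [← hx] at n1 n2 n3 n4 n5 hα hWδ
  have hx0 : 0 < x := by linarith
  obtain ⟨ρ, hρ⟩ : ∃ ρ : ℝ, ρ = 1 - lam / x := ⟨_, rfl⟩
  rw [← hρ] at n5
  have hlx0 : 0 < lam / x := by positivity
  have hlx : lam / x ≤ 1 / 2 := by
    rw [div_le_iff₀ hx0]; linarith
  have h0 : 1 / 2 ≤ ρ := by rw [hρ]; linarith
  have h1 : ρ < 1 := by rw [hρ]; linarith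
  have hρ0 : 0 ≤ ρ := by linarith
  have hR0 : 0 ≤ ρ ^ 2 := by positivity
  have hR1 : ρ ^ 2 < 1 := by nlinarith
  have e1 : 1 - ρ = lam / x := by rw [hρ]; ring
  obtain ⟨f, hf⟩ : ∃ f : ℝ, f = fr A (ρ ^ 2) := ⟨_, rfl⟩
  rw [← hf, ← hH, le_div_iff₀ hH0] at n5
  have hD : 1 - ρ ^ 2 ≤ 2 * (lam / x) := by
    have : 1 - ρ ^ 2 = (1 - ρ) * (1 + ρ) := by ring
    rw [this, e1]
    have := mul_le_mul_of_nonneg_left (show 1 + ρ ≤ 2 by linarith) hlx0.le
    linarith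
  have hf0 : 0 ≤ f := hf ▸ Pool.Agent.H303R3.fr_nonneg A hR0
  have hfx : H * m' * x ≤ 2 * lam * f ^ (g + 2) := by
    have h2 : m' * H ≤ 2 * (lam / x) * f ^ (g + 2) :=
      n5.trans (mul_le_mul_of_nonneg_right hD (by positivity))
    calc H * m' * x = (m' * H) * x := by ring
      _ ≤ (2 * (lam / x) * f ^ (g + 2)) * x := mul_le_mul_of_nonneg_right h2 hx0.le
      _ = _ := by field_simp
  have hfF : F0 ≤ f := by
    apply le_of_pow_le_pow_left₀ (n := g + 2) (by omega) hf0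
    have h2 : 2 * lam * F0 ^ (g + 2) ≤ 2 * lam * f ^ (g + 2) := n3.trans hfx
    exact le_of_mul_le_mul_left h2 (by linarith)
  have hf1 : 1 ≤ f := hF01.trans hfF
  have hDinv : (H * K) ^ 2 * (1 - ρ ^ 2)⁻¹ ≤ C * f ^ (g + 2) := by
    have hDp : 0 < 1 - ρ ^ 2 := by linarith
    have h2 : (1 - ρ ^ 2)⁻¹ ≤ f ^ (g + 2) / (H * m') := by
      rw [inv_eq_one_div, div_le_div_iff₀ hDp (by positivity)]
      linarith
    calc (H * K) ^ 2 * (1 - ρ ^ 2)⁻¹ ≤ (H * K) ^ 2 * (f ^ (g + 2) / (H * m')) :=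
          mul_le_mul_of_nonneg_left h2 (by positivity)
      _ = (H * K) ^ 2 / (H * m') * f ^ (g + 2) := by ring
      _ ≤ C * f ^ (g + 2) := by
          apply mul_le_mul_of_nonneg_right _ (by positivity)
          rw [hC]; linarith
  have hmain := lin_ineq A hne g K L hK W c hcW hc1 hW Θ α h0 h1 (hf ▸ hf1) hC1
    (by rw [← hH, ← hf]; exact hDinv) hball κ hκW
  rw [← hH, ← hf, hκ1, one_mul] at hmain
  obtain ⟨T, hT⟩ : ∃ T : ℝ, T = ∑' n, ‖Sc A (g + 2) c n - PP Θ α n‖ ^ 2 * (ρ ^ 2) ^ n := ⟨_, rfl⟩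
  rw [← hT] at hmain
  have hT0 : 0 ≤ T := hT ▸ tsum_nonneg fun n => by positivity
  have hΛ : Real.log (2 / (1 - ρ)) ≤ Real.log x := by
    apply Real.log_le_log
    · apply div_pos (by norm_num)
      linarith
    · rw [e1, div_div_eq_mul_div, div_le_iff₀ (by linarith)]
      nlinarith
  have hq : 1 / 2 ≤ ρ ^ κ := by
    have h2 := one_add_mul_le_pow (a := ρ - 1) (by linarith) κ
    have h3 : 1 + (ρ - 1) = ρ := by ring
    rw [h3] at h2
    refine le_trans ?_ h2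
    have h4 := hWδ κ hκW
    have h5 : (κ : ℝ) * (lam / x) ≤ 1 / 2 := by
      calc (κ : ℝ) * (lam / x) ≤ (δ * x) * (lam / x) := mul_le_mul_of_nonneg_right h4 hlx0.le
        _ = δ * lam := by field_simp
        _ ≤ 1 / 2 := hδ1
    rw [hρ]
    linarith
  have hlow := num_lin (g := g) (x := x) (ℓ := Real.log x) (lam := lam) (f := f) (H := H) (K := K)
    (L := L) (a := ∑ θ ∈ Θ, ‖α θ‖) (Λ := Real.log (2 / (1 - ρ))) (q := ρ ^ κ) (cL := cL)
    (c4 := c4) (m' := m') (T := T) hx0 (by linarith) hf1 hH0 hK0 hL0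
    (Finset.sum_nonneg fun θ _ => norm_nonneg _) n2 hΛ hcL hm' hT0 hc4 hfx hα hq n1
    (by
      have : 64 * (8 ^ (g + 2) * ((L : ℝ) ^ 2 * (H * K * H))) ≤ cL ^ 2 * F0 := by
        rw [hF0, mul_add, mul_div_cancel₀ _ (by positivity)]
        have : 0 < cL ^ 2 * 1 := by positivity
        linarith
      exact this.trans (mul_le_mul_of_nonneg_left hfF (by positivity))) hmain
  -- upper bound
  obtain ⟨M, hM⟩ : ∃ M : ℕ, M = W.sup id := ⟨_, rfl⟩
  have hWM : ∀ k ∈ W, k ≤ M := fun k hk => hM ▸ Finset.le_sup (f := id) hk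
  have hMW : M ∈ W := by
    obtain ⟨k, hk, hk2⟩ := Finset.exists_mem_eq_sup W ⟨κ, hκW⟩ id
    rw [hM, hk2]
    exact hk
  have hSb : ∀ n, ‖Sc A (g + 2) c n - PP Θ α n‖ ≤ B1 := by
    intro n
    have h2 : ‖Sc A (g + 2) c n‖ ≤ L * K := by
      unfold Sc
      refine (norm_sum_le _ _).trans ?_
      rw [Finset.Nat.sum_antidiagonal_eq_sum_range_succ
        (fun i j => ‖c i * ((rr A (g + 2) j : ℝ) : ℂ)‖)]
      calc ∑ k ∈ range (n + 1), ‖c k * ((rr A (g + 2) (n - k) : ℝ) : ℂ)‖ ≤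
            ∑ k ∈ range (n + 1), (if k ∈ W then (K : ℝ) else 0) := by
            refine Finset.sum_le_sum fun k _ => ?_
            split_ifs with hk
            · rw [norm_mul, Complex.norm_real, Real.norm_of_nonneg (rr_nonneg _ _ _)]
              have h3 : rr A (g + 2) (n - k) ≤ K := by unfold rr; exact_mod_cast hK _
              calc ‖c k‖ * rr A (g + 2) (n - k) ≤ 1 * K :=
                    mul_le_mul (hc1 k) h3 (rr_nonneg _ _ _) zero_le_one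
                _ = K := one_mul _
            · rw [hcW k hk, zero_mul, norm_zero]
        _ ≤ ∑ _k ∈ W, (K : ℝ) := by
            rw [← Finset.sum_filter]
            exact Finset.sum_le_sum_of_subset_of_nonneg (fun k hk => (Finset.mem_filter.1 hk).2)
              fun _ _ _ => hK0
        _ = W.card * K := by rw [Finset.sum_const, nsmul_eq_mul]
        _ ≤ L * K := mul_le_mul_of_nonneg_right (by exact_mod_cast hW) hK0
    have h3 := norm_sub_le (Sc A (g + 2) c n) (PP Θ α n)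
    have h4 := hP n
    rw [hB1]
    linarith
  have hup := energy_cnt (fun n => Sc A (g + 2) c n - PP Θ α n) (M := M) (N := N) (B := B1)
    (δ := δ) hSb hδ0.le hρ0 h1
  rw [← hT] at hup
  obtain ⟨b, hb⟩ : ∃ b : ℕ, b = ((range (N + 1)).filter (fun n => M ≤ n ∧
    δ ≤ ‖Sc A (g + 2) c n - PP Θ α n‖)).card := ⟨_, rfl⟩
  have hbeq : (range (N + 1)).filter (fun n => (∀ k ∈ W, k ≤ n) ∧
      δ ≤ ‖Sc A (g + 2) c n - PP Θ α n‖) = (range (N + 1)).filter (fun n => M ≤ n ∧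
      δ ≤ ‖Sc A (g + 2) c n - PP Θ α n‖) := by
    ext n
    simp only [Finset.mem_filter]
    constructor
    · rintro ⟨h2, h3, h4⟩
      exact ⟨h2, h3 M hMW, h4⟩
    · rintro ⟨h2, h3, h4⟩
      exact ⟨h2, fun k hk => (hWM k hk).trans h3, h4⟩
  rw [hbeq, ← hb]
  rw [← hb, e1, inv_div] at hup
  have hMδ : (M : ℝ) ≤ δ * x := hWδ M hMW
  have hρN : ρ ^ N ≤ 1 / lam := by
    have h2 : ρ ≤ Real.exp (-(lam / x)) := by
      have := Real.add_one_le_exp (-(lam / x))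
      rw [hρ]
      linarith
    have h3 : ρ ^ N ≤ Real.exp (-lam) := by
      calc ρ ^ N ≤ Real.exp (-(lam / x)) ^ N := pow_le_pow_left₀ hρ0 h2 N
        _ = Real.exp (-lam) := by
          rw [← Real.exp_nat_mul, ← hx]
          congr 1
          field_simp
    refine h3.trans ?_
    rw [Real.exp_neg, inv_eq_one_div]
    apply one_div_le_one_div_of_le (by linarith)
    have := Real.add_one_le_exp lam
    linarith
  have hxl : 0 < x / lam := by positivity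
  have u1 : B1 ^ 2 * ρ ^ N * (x / lam) ≤ c4 / 4 * (x / lam) := by
    apply mul_le_mul_of_nonneg_right _ hxl.le
    calc B1 ^ 2 * ρ ^ N ≤ (c4 / 4 * lam) * (1 / lam) :=
          mul_le_mul hlamB hρN (by positivity) (by positivity)
      _ = c4 / 4 := by field_simp
  have u2 : δ ^ 2 * (x / lam) ≤ c4 / 8 * (x / lam) := mul_le_mul_of_nonneg_right hδ3 hxl.le
  have u3 : B1 ^ 2 * (b + M) ≤ B1 ^ 2 * b + c4 / 8 * (x / lam) := by
    have : B1 ^ 2 * M ≤ c4 / 8 * (x / lam) := by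
      calc B1 ^ 2 * (M : ℝ) ≤ B1 ^ 2 * (δ * x) := mul_le_mul_of_nonneg_left hMδ (by positivity)
        _ = (B1 ^ 2 * δ) * x := by ring
        _ ≤ c4 / (8 * lam) * x := mul_le_mul_of_nonneg_right hδ2 hx0.le
        _ = _ := by field_simp
    linarith
  have u4 : c4 / 2 * (x / lam) ≤ B1 ^ 2 * b := by linarith
  have u5 : B1 ^ 2 * (δ * x) ≤ B1 ^ 2 * b := by
    refine le_trans ?_ u4
    calc B1 ^ 2 * (δ * x) = (B1 ^ 2 * δ) * x := by ring
      _ ≤ c4 / (8 * lam) * x := mul_le_mul_of_nonneg_right hδ2 hx0.le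
      _ = c4 / 8 * (x / lam) := by field_simp
      _ ≤ c4 / 2 * (x / lam) := mul_le_mul_of_nonneg_right (by linarith) hxl.le
  rw [← hx]
  exact le_of_mul_le_mul_left u5 (by positivity)

end Pool.Agent.X8.OH
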