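import Pool.Agent.X8.OH.LinFin
import Pool.Agent.X8.OH.BallPoly

/-!
# Linear relations between translates: the statement for a single `N`
-/

set_option autoImplicit false

open Finset Filter Topology MeasureTheory

namespace Pool.Agent.X8.OH

open Pool.Agent.H303R3 (tup mem_tup fr Rn Rr)
open Pool.Agent.H303R3.ET (Mo)
open Pool.Agent.X8.ET (en en_norm)

open Classical in
/-- **Linear relations**, for a single `N`. -/
theorem lin_at (g K L : ℕ) {B m' cL c4 B1 lam δ C F0 ℓ H : ℝ} (hm' : 0 < m') (hB : 0 ≤ B)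
    (hH : H = ((g + 2).factorial : ℝ)) (hC1 : 1 ≤ C) (hCm : (H * K) ^ 2 ≤ C * (H * m'))
    (hcL : 0 < cL)
    (hball : ∀ φ : ℝ → ℝ, Continuous φ →
      Function.Periodic φ 1 → (∀ x, 0 ≤ φ x) → (∀ x, φ x ≤ 1) →
      1 / (8 * C) ≤ ∫ x in (0:ℝ)..1, φ x → ∀ W : Finset ℕ, W.card ≤ L → ∀ b : ℕ → ℂ, ∀ κ ∈ W,
      cL * ‖b κ‖ ≤ ∫ x in (0:ℝ)..1, φ x * ‖tp W b x‖)
    (hc4 : c4 = cL ^ 2 * m' / (32 * 8 ^ (g + 2) * H)) (hB1 : B1 = L * K + B + 1)
    (hlam2 : 2 ≤ lam) (hlamB : B1 ^ 2 ≤ c4 / 4 * lam) (hδ0 : 0 < δ) (hδ1 : δ * lam ≤ 1 / 2)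
    (hδ2 : B1 ^ 2 * δ ≤ c4 / (8 * lam)) (hδ3 : δ ^ 2 ≤ c4 / 8)
    (hF01 : 1 ≤ F0) (hF0 : 64 * (8 ^ (g + 2) * ((L : ℝ) ^ 2 * (H * K * H))) ≤ cL ^ 2 * F0)
    (A : Set ℕ) (hne : A.Nonempty) (hK : ∀ n, Rn A (Mo (k := g + 2)) n ≤ K) (N : ℕ)
    (n1 : (32 * H) ^ 2 * (2 * lam) * 8 ^ (g + 2) ≤ cL ^ 2 * (H * m') * ℓ ^ 2)
    (n2 : 0 < ℓ) (n2' : Real.log N ≤ ℓ)
    (n3 : 2 * lam * F0 ^ (g + 2) ≤ H * m' * N) (n4 : 2 * lam ≤ N)
    (n5 : m' ≤ (1 - (1 - lam / N) ^ 2) * fr A ((1 - lam / N) ^ 2) ^ (g + 2) / (g + 2).factorial) :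
    ∀ W : Finset ℕ, W.card ≤ L → (∀ k ∈ W, (k : ℝ) ≤ δ * N) →
      ∀ c : ℕ → ℂ, (∀ k ∉ W, c k = 0) → (∀ k, ‖c k‖ ≤ 1) → (∃ κ ∈ W, ‖c κ‖ = 1) →
      ∀ (Θ : Finset ℝ) (α : ℝ → ℂ), (∀ n, ‖PP Θ α n‖ ≤ B) →
      (∑ θ ∈ Θ, ‖α θ‖) * ℓ ^ 2 ≤ √N →
      δ * N ≤ ((range (N + 1)).filter (fun n => (∀ k ∈ W, k ≤ n) ∧
        δ ≤ ‖Sc A (g + 2) c n - PP Θ α n‖)).card := by
  have hH0 : 0 < H := by rw [hH]; exact_mod_cast Nat.factorial_pos _
  have hK0 : (0 : ℝ) ≤ K := Nat.cast_nonneg K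
  have hL0 : (0 : ℝ) ≤ L := Nat.cast_nonneg L
  have hc40 : 0 < c4 := by rw [hc4]; positivity
  have hB11 : 1 ≤ B1 := by
    rw [hB1]
    have : 0 ≤ (L : ℝ) * K := by positivity
    linarith
  intro W hW hWδ c hcW hc1 hκ Θ α hP hα
  obtain ⟨κ, hκW, hκ1⟩ := hκ
  obtain ⟨x, hx⟩ : ∃ x : ℝ, x = (N : ℝ) := ⟨_, rfl⟩
  rw [← hx] at n2' n3 n4 n5 hα hWδ
  have hx0 : 0 < x := by linarith
  obtain ⟨ρ, hρ⟩ : ∃ ρ : ℝ, ρ = 1 - lam / x := ⟨_, rfl⟩
  rw [← hρ] at n5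
  have hlx0 : 0 < lam / x := by positivity
  have hlx : lam / x ≤ 1 / 2 := by
    rw [div_le_iff₀ hx0]; linarith
  have h0 : 1 / 2 ≤ ρ := by rw [hρ]; linarith
  have h1 : ρ < 1 := by rw [hρ]; linarith
  have hρ0 : 0 ≤ ρ := by linarith
  have hR0 : 0 ≤ ρ ^ 2 := by positivity
  have hR1 : ρ ^ 2 < 1 := by nlinarith
  have e1 : 1 - ρ = lam / x := by rw [hρ]; ring
  obtain ⟨f, hf⟩ : ∃ f : ℝ, f = fr A (ρ ^ 2) := ⟨_, rfl⟩
  rw [← hf, ← hH, le_div_iff₀ hH0] at n5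
  have hD : 1 - ρ ^ 2 ≤ 2 * (lam / x) := by
    have : 1 - ρ ^ 2 = (1 - ρ) * (1 + ρ) := by ring
    rw [this, e1]
    have := mul_le_mul_of_nonneg_left (show 1 + ρ ≤ 2 by linarith) hlx0.le
    linarith
  have hf0 : 0 ≤ f := hf ▸ Pool.Agent.H303R3.fr_nonneg A hR0
  have hfx : H * m' * x ≤ 2 * lam * f ^ (g + 2) := by
    have h2 : m' * H ≤ 2 * (lam / x) * f ^ (g + 2) :=
      n5.trans (mul_le_mul_of_nonneg_right hD (by positivity))
    calc H * m' * x = (m' * H) * x := by ring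
      _ ≤ (2 * (lam / x) * f ^ (g + 2)) * x := mul_le_mul_of_nonneg_right h2 hx0.le
      _ = _ := by field_simp
  have hfF : F0 ≤ f := by
    apply le_of_pow_le_pow_left₀ (n := g + 2) (by omega) hf0
    have h2 : 2 * lam * F0 ^ (g + 2) ≤ 2 * lam * f ^ (g + 2) := n3.trans hfx
    exact le_of_mul_le_mul_left h2 (by linarith)
  have hf1 : 1 ≤ f := hF01.trans hfF
  have hDinv : (H * K) ^ 2 * (1 - ρ ^ 2)⁻¹ ≤ C * f ^ (g + 2) := by
    have hDp : 0 < 1 - ρ ^ 2 := by linarith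
    have h2 : (1 - ρ ^ 2)⁻¹ ≤ f ^ (g + 2) / (H * m') := by
      rw [inv_eq_one_div, div_le_div_iff₀ hDp (by positivity)]
      linarith
    calc (H * K) ^ 2 * (1 - ρ ^ 2)⁻¹ ≤ (H * K) ^ 2 * (f ^ (g + 2) / (H * m')) :=
          mul_le_mul_of_nonneg_left h2 (by positivity)
      _ = (H * K) ^ 2 / (H * m') * f ^ (g + 2) := by ring
      _ ≤ C * f ^ (g + 2) := by
          apply mul_le_mul_of_nonneg_right _ (by positivity)
          rw [div_le_iff₀ (by positivity)]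
          exact hCm
  have hmain := lin_ineq A hne g K L hK W c hcW hc1 hW Θ α h0 h1 (hf ▸ hf1) hC1
    (by rw [← hH, ← hf]; exact hDinv) hball κ hκW
  rw [← hH, ← hf, hκ1, one_mul] at hmain
  obtain ⟨T, hT⟩ : ∃ T : ℝ, T = ∑' n, ‖Sc A (g + 2) c n - PP Θ α n‖ ^ 2 * (ρ ^ 2) ^ n := ⟨_, rfl⟩
  rw [← hT] at hmain
  have hT0 : 0 ≤ T := hT ▸ tsum_nonneg fun n => by positivity
  have hΛ : Real.log (2 / (1 - ρ)) ≤ ℓ := by
    refine le_trans ?_ n2'
    apply Real.log_le_log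
    · apply div_pos (by norm_num)
      linarith
    · rw [e1, div_div_eq_mul_div, div_le_iff₀ (by linarith)]
      nlinarith
  have hq : 1 / 2 ≤ ρ ^ κ := by
    have h2 := one_add_mul_le_pow (a := ρ - 1) (by linarith) κ
    have h3 : 1 + (ρ - 1) = ρ := by ring
    rw [h3] at h2
    refine le_trans ?_ h2
    have h4 := hWδ κ hκW
    have h5 : (κ : ℝ) * (lam / x) ≤ 1 / 2 := by
      calc (κ : ℝ) * (lam / x) ≤ (δ * x) * (lam / x) := mul_le_mul_of_nonneg_right h4 hlx0.le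
        _ = δ * lam := by field_simp
        _ ≤ 1 / 2 := hδ1
    rw [hρ]
    linarith
  have hlow := num_lin (g := g) (x := x) (ℓ := ℓ) (lam := lam) (f := f) (H := H) (K := K)
    (L := L) (a := ∑ θ ∈ Θ, ‖α θ‖) (Λ := Real.log (2 / (1 - ρ))) (q := ρ ^ κ) (cL := cL)
    (c4 := c4) (m' := m') (T := T) hx0 (by linarith) hf1 hH0 hK0 hL0
    (Finset.sum_nonneg fun θ _ => norm_nonneg _) n2 hΛ hcL hm' hT0 hc4 hfx hα hq n1
    (hF0.trans (mul_le_mul_of_nonneg_left hfF (by positivity))) hmain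
  -- upper bound
  obtain ⟨M, hM⟩ : ∃ M : ℕ, M = W.sup id := ⟨_, rfl⟩
  have hWM : ∀ k ∈ W, k ≤ M := fun k hk => hM ▸ Finset.le_sup (f := id) hk
  have hMW : M ∈ W := by
    obtain ⟨k, hk, hk2⟩ := Finset.exists_mem_eq_sup W ⟨κ, hκW⟩ id
    rw [hM, hk2]
    exact hk
  have hSb : ∀ n, ‖Sc A (g + 2) c n - PP Θ α n‖ ≤ B1 := by
    intro n
    have h2 : ‖Sc A (g + 2) c n‖ ≤ L * K := by
      unfold Sc
      refine (norm_sum_le _ _).trans ?_
      rw [Finset.Nat.sum_antidiagonal_eq_sum_range_succ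
        (fun i j => ‖c i * ((rr A (g + 2) j : ℝ) : ℂ)‖)]
      calc ∑ k ∈ range (n + 1), ‖c k * ((rr A (g + 2) (n - k) : ℝ) : ℂ)‖ ≤
            ∑ k ∈ range (n + 1), (if k ∈ W then (K : ℝ) else 0) := by
            refine Finset.sum_le_sum fun k _ => ?_
            split_ifs with hk
            · rw [norm_mul, Complex.norm_real, Real.norm_of_nonneg (rr_nonneg _ _ _)]
              have h3 : rr A (g + 2) (n - k) ≤ K := by unfold rr; exact_mod_cast hK _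
              calc ‖c k‖ * rr A (g + 2) (n - k) ≤ 1 * K :=
                    mul_le_mul (hc1 k) h3 (rr_nonneg _ _ _) zero_le_one
                _ = K := one_mul _
            · rw [hcW k hk, zero_mul, norm_zero]
        _ ≤ ∑ _k ∈ W, (K : ℝ) := by
            rw [← Finset.sum_filter]
            exact Finset.sum_le_sum_of_subset_of_nonneg (fun k hk => (Finset.mem_filter.1 hk).2)
              fun _ _ _ => hK0
        _ = W.card * K := by rw [Finset.sum_const, nsmul_eq_mul]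
        _ ≤ L * K := mul_le_mul_of_nonneg_right (by exact_mod_cast hW) hK0
    have h3 := norm_sub_le (Sc A (g + 2) c n) (PP Θ α n)
    have h4 := hP n
    rw [hB1]
    linarith
  have hup := energy_cnt (fun n => Sc A (g + 2) c n - PP Θ α n) (M := M) (N := N) (B := B1)
    (δ := δ) hSb hδ0.le hρ0 h1
  rw [← hT] at hup
  obtain ⟨b, hb⟩ : ∃ b : ℕ, b = ((range (N + 1)).filter (fun n => M ≤ n ∧
    δ ≤ ‖Sc A (g + 2) c n - PP Θ α n‖)).card := ⟨_, rfl⟩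
  have hbeq : (range (N + 1)).filter (fun n => (∀ k ∈ W, k ≤ n) ∧
      δ ≤ ‖Sc A (g + 2) c n - PP Θ α n‖) = (range (N + 1)).filter (fun n => M ≤ n ∧
      δ ≤ ‖Sc A (g + 2) c n - PP Θ α n‖) := by
    ext n
    simp only [Finset.mem_filter]
    constructor
    · rintro ⟨h2, h3, h4⟩
      exact ⟨h2, h3 M hMW, h4⟩
    · rintro ⟨h2, h3, h4⟩
      exact ⟨h2, fun k hk => (hWM k hk).trans h3, h4⟩
  rw [hbeq, ← hb]
  rw [← hb, e1, inv_div] at hup
  have hMδ : (M : ℝ) ≤ δ * x := hWδ M hMW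
  have hρN : ρ ^ N ≤ 1 / lam := by
    have h2 : ρ ≤ Real.exp (-(lam / x)) := by
      have := Real.add_one_le_exp (-(lam / x))
      rw [hρ]
      linarith
    have h3 : ρ ^ N ≤ Real.exp (-lam) := by
      calc ρ ^ N ≤ Real.exp (-(lam / x)) ^ N := pow_le_pow_left₀ hρ0 h2 N
        _ = Real.exp (-lam) := by
          rw [← Real.exp_nat_mul, ← hx]
          congr 1
          field_simp
    refine h3.trans ?_
    rw [Real.exp_neg, inv_eq_one_div]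
    apply one_div_le_one_div_of_le (by linarith)
    have := Real.add_one_le_exp lam
    linarith
  have hxl : 0 < x / lam := by positivity
  have u1 : B1 ^ 2 * ρ ^ N * (x / lam) ≤ c4 / 4 * (x / lam) := by
    apply mul_le_mul_of_nonneg_right _ hxl.le
    calc B1 ^ 2 * ρ ^ N ≤ (c4 / 4 * lam) * (1 / lam) :=
          mul_le_mul hlamB hρN (by positivity) (by positivity)
      _ = c4 / 4 := by field_simp
  have u2 : δ ^ 2 * (x / lam) ≤ c4 / 8 * (x / lam) := mul_le_mul_of_nonneg_right hδ3 hxl.le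
  have u3 : B1 ^ 2 * (b + M) ≤ B1 ^ 2 * b + c4 / 8 * (x / lam) := by
    have : B1 ^ 2 * M ≤ c4 / 8 * (x / lam) := by
      calc B1 ^ 2 * (M : ℝ) ≤ B1 ^ 2 * (δ * x) := mul_le_mul_of_nonneg_left hMδ (by positivity)
        _ = (B1 ^ 2 * δ) * x := by ring
        _ ≤ c4 / (8 * lam) * x := mul_le_mul_of_nonneg_right hδ2 hx0.le
        _ = _ := by field_simp
    linarith
  have u4 : c4 / 2 * (x / lam) ≤ B1 ^ 2 * b := by linarith
  have u5 : B1 ^ 2 * (δ * x) ≤ B1 ^ 2 * b := by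
    refine le_trans ?_ u4
    calc B1 ^ 2 * (δ * x) = (B1 ^ 2 * δ) * x := by ring
      _ ≤ c4 / (8 * lam) * x := mul_le_mul_of_nonneg_right hδ2 hx0.le
      _ = c4 / 8 * (x / lam) := by field_simp
      _ ≤ c4 / 2 * (x / lam) := mul_le_mul_of_nonneg_right (by linarith) hxl.le
  rw [← hx]
  exact le_of_mul_le_mul_left u5 (by positivity)


/-- the generating function of a thin set, for a single `N` -/
theorem thin_at {A : Set ℕ} {g : ℕ → ℝ} (hg : Monotone g) (hg1 : ∀ N, 1 ≤ g N) {C : ℝ}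
    (hC : 1 ≤ C) {n0 : ℕ}
    (h : ∀ n, n0 ≤ n → √n / g n ≤ C * ((A ∩ Set.Icc 1 n).ncard : ℝ)) {lam : ℝ} (hlam : 2 ≤ lam)
    {N : ℕ} (hN : 4 * lam * (n0 + 1) ≤ N) (hN8 : 8 * lam ≤ N) :
    1 / (64 * C ^ 2) / g N ^ 2 ≤ (1 - (1 - lam / N) ^ 2) *
      fr A ((1 - lam / N) ^ 2) ^ (0 + 2) / (0 + 2).factorial := by
  classical
  have hN0 : (0 : ℝ) < N := by linarith
  obtain ⟨t, ht⟩ : ∃ t : ℝ, t = lam / N := ⟨_, rfl⟩
  have ht0 : 0 < t := by rw [ht]; positivity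
  have ht8 : t ≤ 1 / 8 := by
    rw [ht, div_le_iff₀ hN0]; linarith
  obtain ⟨M, hM⟩ : ∃ M : ℕ, M = ⌊(N : ℝ) / (4 * lam)⌋₊ := ⟨_, rfl⟩
  have hM1 : n0 + 1 ≤ M := by
    rw [hM]
    apply Nat.le_floor
    rw [le_div_iff₀ (by positivity)]
    push_cast
    linarith
  have hMle : (M : ℝ) ≤ N / (4 * lam) := by rw [hM]; exact Nat.floor_le (by positivity)
  have hMge : (N : ℝ) / (8 * lam) ≤ M := by
    have h1 := Nat.lt_floor_add_one ((N : ℝ) / (4 * lam))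
    rw [← hM] at h1
    have h2 : 1 ≤ (N : ℝ) / (8 * lam) := by
      rw [le_div_iff₀ (by positivity)]; linarith
    have h3 : (N : ℝ) / (4 * lam) = 2 * (N / (8 * lam)) := by
      field_simp
      ring
    linarith
  have hMt : (M : ℝ) * t ≤ 1 / 4 := by
    rw [ht]
    calc (M : ℝ) * (lam / N) ≤ N / (4 * lam) * (lam / N) :=
          mul_le_mul_of_nonneg_right hMle (by positivity)
      _ = 1 / 4 := by field_simp
  have hMN : M ≤ N := by
    have h1 : (M : ℝ) ≤ N := by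
      refine hMle.trans ?_
      rw [div_le_iff₀ (by positivity)]
      nlinarith
    exact_mod_cast h1
  obtain ⟨R, hR⟩ : ∃ R : ℝ, R = (1 - t) ^ 2 := ⟨_, rfl⟩
  have hR0 : 0 ≤ R := by rw [hR]; positivity
  have hR1 : R < 1 := by rw [hR]; nlinarith
  have hRM : 1 / 2 ≤ R ^ M := by
    rw [hR, ← pow_mul]
    have h2 := one_add_mul_le_pow (a := -t) (by linarith) (2 * M)
    have h3 : 1 + -t = 1 - t := by ring
    rw [h3] at h2
    refine le_trans ?_ h2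
    push_cast
    linarith
  obtain ⟨S, hS⟩ : ∃ S : Finset ℕ, S = (Finset.Icc 1 M).filter (fun a => a ∈ A) := ⟨_, rfl⟩
  have hSc : (A ∩ Set.Icc 1 M).ncard = S.card := by
    rw [← Set.ncard_coe_finset]
    congr 1
    ext a
    rw [hS, Finset.coe_filter, Set.mem_inter_iff, Set.mem_ofPred_eq, Finset.mem_Icc, Set.mem_Icc]
    tauto
  have hfr : (S.card : ℝ) / 2 ≤ fr A R := by
    have hs : Summable fun n : ℕ => (if n ∈ A then (1 : ℝ) else 0) * R ^ n := by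
      refine Summable.of_nonneg_of_le (fun n => ?_) (fun n => ?_)
        (summable_geometric_of_lt_one hR0 hR1)
      · split_ifs <;> positivity
      · split_ifs
        · rw [one_mul]
        · rw [zero_mul]; positivity
    have h1 : ∑ n ∈ S, (if n ∈ A then (1 : ℝ) else 0) * R ^ n ≤ fr A R := by
      unfold fr
      exact hs.sum_le_tsum S fun n _ => by split_ifs <;> positivity
    refine le_trans ?_ h1
    have h2 : ∀ n ∈ S, (1 / 2 : ℝ) ≤ (if n ∈ A then (1 : ℝ) else 0) * R ^ n := by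
      intro n hn
      rw [hS, Finset.mem_filter, Finset.mem_Icc] at hn
      rw [if_pos hn.2, one_mul]
      exact hRM.trans (pow_le_pow_of_le_one hR0 hR1.le hn.1.2)
    have h3 := Finset.sum_le_sum h2
    rw [Finset.sum_const, nsmul_eq_mul] at h3
    linarith
  have hgN : 0 < g N := lt_of_lt_of_le one_pos (hg1 N)
  have hgM : 0 < g M := lt_of_lt_of_le one_pos (hg1 M)
  have h1 := h M (by omega)
  rw [hSc, div_le_iff₀ hgM] at h1
  have h2 : √M ≤ C * S.card * g N :=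
    h1.trans (mul_le_mul_of_nonneg_left (hg hMN) (by positivity))
  have h3 : (M : ℝ) ≤ (C * S.card * g N) ^ 2 := by
    have := pow_le_pow_left₀ (Real.sqrt_nonneg _) h2 2
    rwa [Real.sq_sqrt (Nat.cast_nonneg _)] at this
  have h4 : (M : ℝ) / (4 * C ^ 2 * g N ^ 2) ≤ fr A R ^ 2 := by
    rw [div_le_iff₀ (by positivity)]
    have h5 : ((S.card : ℝ) / 2) ^ 2 ≤ fr A R ^ 2 := pow_le_pow_left₀ (by positivity) hfr 2
    calc (M : ℝ) ≤ (C * S.card * g N) ^ 2 := h3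
      _ = ((S.card : ℝ) / 2) ^ 2 * (4 * C ^ 2 * g N ^ 2) := by ring
      _ ≤ _ := mul_le_mul_of_nonneg_right h5 (by positivity)
  have h5 : 3 / 2 * t ≤ 1 - R := by
    rw [hR]
    nlinarith
  have h6 : (3 / 2 * t) * ((M : ℝ) / (4 * C ^ 2 * g N ^ 2)) ≤ (1 - R) * fr A R ^ 2 :=
    mul_le_mul h5 h4 (by positivity) (by linarith)
  have h7 : 1 / 8 ≤ t * M := by
    rw [ht]
    calc (1 / 8 : ℝ) = lam / N * (N / (8 * lam)) := by field_simp
      _ ≤ lam / N * M := mul_le_mul_of_nonneg_left hMge (by positivity)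
  have h8 : 2 * (1 / (64 * C ^ 2) / g N ^ 2) ≤ (3 / 2 * t) * ((M : ℝ) / (4 * C ^ 2 * g N ^ 2)) := by
    have e1 : 2 * (1 / (64 * C ^ 2) / g N ^ 2) = (1 / 8) * (1 / (4 * C ^ 2 * g N ^ 2)) := by
      field_simp
      ring
    have e2 : (3 / 2 * t) * ((M : ℝ) / (4 * C ^ 2 * g N ^ 2)) =
        (3 / 2 * (t * M)) * (1 / (4 * C ^ 2 * g N ^ 2)) := by ring
    rw [e1, e2]
    apply mul_le_mul_of_nonneg_right _ (by positivity)
    linarith
  rw [← ht, ← hR]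
  have hfac : (((0 + 2).factorial : ℕ) : ℝ) = 2 := by norm_num [Nat.factorial]
  rw [hfac, le_div_iff₀ (by norm_num), zero_add]
  linarith

end Pool.Agent.X8.OH
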