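import Pool.Agent.X8.OH.LinThin

/-!
# Linear relations between translates for thin sets
-/

set_option autoImplicit false

open Finset Filter Topology MeasureTheory

namespace Pool.Agent.X8.OH

open Pool.Agent.H303R3 (tup mem_tup fr Rn Rr)
open Pool.Agent.H303R3.ET (Mo)
open Pool.Agent.X8.ET (en en_norm)

open Classical in
/-- **Linear relations between translates for thin sets.** -/
theorem lin_thin (K L : ℕ) (B C : ℝ) (hB : 0 ≤ B) (hC : 1 ≤ C) :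
    ∃ c : ℝ, 0 < c ∧ ∃ E : ℕ, ∀ A : Set ℕ, A.Nonempty → (∀ n, Rn A (Mo (k := 0 + 2)) n ≤ K) →
    ∀ g : ℕ → ℝ, Monotone g → (∀ N, 1 ≤ g N) →
    (∀ᶠ n : ℕ in atTop, √n / g n ≤ C * ((A ∩ Set.Icc 1 n).ncard : ℝ)) →
    ∀ᶠ N : ℕ in atTop, g N ^ (2 * E) ≤ c * N →
      ∀ W : Finset ℕ, W.card ≤ L → (∀ k ∈ W, (k : ℝ) ≤ c / g N ^ E * N) →
      ∀ a : ℕ → ℂ, (∀ k ∉ W, a k = 0) → (∀ k, ‖a k‖ ≤ 1) → (∃ κ ∈ W, ‖a κ‖ = 1) →
      ∀ (Θ : Finset ℝ) (α : ℝ → ℂ), (∀ n, ‖PP Θ α n‖ ≤ B) →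
      (∑ θ ∈ Θ, ‖α θ‖) * (Real.log N ^ 2 * g N ^ E) ≤ √N →
      c / g N ^ E * N ≤ ((range (N + 1)).filter (fun n => (∀ k ∈ W, k ≤ n) ∧
        c / g N ^ E ≤ ‖Sc A (0 + 2) a n - PP Θ α n‖)).card := by
  obtain ⟨H, hH⟩ : ∃ H : ℝ, H = ((0 + 2).factorial : ℝ) := ⟨_, rfl⟩
  have hH0 : 0 < H := by rw [hH]; exact_mod_cast Nat.factorial_pos _
  have hK0 : (0 : ℝ) ≤ K := Nat.cast_nonneg K
  have hL0 : (0 : ℝ) ≤ L := Nat.cast_nonneg L
  obtain ⟨μ, hμ⟩ : ∃ μ : ℝ, μ = 1 / (64 * C ^ 2) := ⟨_, rfl⟩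
  have hμ0 : 0 < μ := by rw [hμ]; positivity
  obtain ⟨c0, hc0⟩ : ∃ c0 : ℝ, c0 = (H * K) ^ 2 / (H * μ) + 1 := ⟨_, rfl⟩
  have hc01 : 1 ≤ c0 := by
    rw [hc0]
    have : 0 ≤ (H * K) ^ 2 / (H * μ) := by positivity
    linarith
  have hc00 : 0 < c0 := by linarith
  have hc0K : (H * K) ^ 2 ≤ c0 * (H * μ) := by
    rw [hc0, add_mul, div_mul_cancel₀ _ (by positivity)]
    have : 0 ≤ 1 * (H * μ) := by positivity
    linarith
  obtain ⟨cb, hcb, e, hball⟩ := small_ball_poly L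
  obtain ⟨c2, hc2⟩ : ∃ c2 : ℝ, c2 = cb * (1 / (8 * c0)) ^ e := ⟨_, rfl⟩
  have hc20 : 0 < c2 := by rw [hc2]; positivity
  obtain ⟨c3, hc3⟩ : ∃ c3 : ℝ, c3 = c2 ^ 2 * μ / (32 * 8 ^ (0 + 2) * H) := ⟨_, rfl⟩
  have hc30 : 0 < c3 := by rw [hc3]; positivity
  obtain ⟨B1, hB1⟩ : ∃ B1 : ℝ, B1 = L * K + B + 1 := ⟨_, rfl⟩
  have hB11 : 1 ≤ B1 := by
    rw [hB1]
    have : 0 ≤ (L : ℝ) * K := by positivity
    linarith
  have hB10 : 0 < B1 := by linarith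
  obtain ⟨c5, hc5⟩ : ∃ c5 : ℝ, c5 = 2 + 4 * B1 ^ 2 / c3 := ⟨_, rfl⟩
  have hc52 : 2 ≤ c5 := by
    rw [hc5]
    have : 0 ≤ 4 * B1 ^ 2 / c3 := by positivity
    linarith
  have hc50 : 0 < c5 := by linarith
  have hc5B : B1 ^ 2 ≤ c3 * c5 / 4 := by
    rw [hc5]
    have : c3 * (2 + 4 * B1 ^ 2 / c3) / 4 = c3 / 2 + B1 ^ 2 := by
      field_simp
      ring
    rw [this]
    linarith
  obtain ⟨c6, hc6⟩ : ∃ c6 : ℝ, c6 = min (1 / (2 * c5)) (min (c3 / (8 * c5 * B1 ^ 2))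
    (min (c3 / 8) 1)) := ⟨_, rfl⟩
  have hc60 : 0 < c6 := by
    rw [hc6]
    exact lt_min (by positivity) (lt_min (by positivity) (lt_min (by positivity) one_pos))
  have hc61 : c6 * c5 ≤ 1 / 2 := by
    have : c6 ≤ 1 / (2 * c5) := by rw [hc6]; exact min_le_left _ _
    calc c6 * c5 ≤ 1 / (2 * c5) * c5 := mul_le_mul_of_nonneg_right this hc50.le
      _ = 1 / 2 := by field_simp
  have hc62 : B1 ^ 2 * c6 ≤ c3 / (8 * c5) := by
    have : c6 ≤ c3 / (8 * c5 * B1 ^ 2) := by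
      rw [hc6]; exact (min_le_right _ _).trans (min_le_left _ _)
    calc B1 ^ 2 * c6 ≤ B1 ^ 2 * (c3 / (8 * c5 * B1 ^ 2)) :=
          mul_le_mul_of_nonneg_left this (by positivity)
      _ = c3 / (8 * c5) := by field_simp
  have hc63 : c6 ≤ c3 / 8 := by
    rw [hc6]; exact (min_le_right _ _).trans ((min_le_right _ _).trans (min_le_left _ _))
  have hc64 : c6 ≤ 1 := by
    rw [hc6]; exact (min_le_right _ _).trans ((min_le_right _ _).trans (min_le_right _ _))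
  obtain ⟨c7, hc7⟩ : ∃ c7 : ℝ, c7 = 64 * (8 ^ (0 + 2) * ((L : ℝ) ^ 2 * (H * K * H))) / c2 ^ 2 + 1 :=
    ⟨_, rfl⟩
  have hc71 : 1 ≤ c7 := by
    rw [hc7]
    have : 0 ≤ 64 * (8 ^ (0 + 2) * ((L : ℝ) ^ 2 * (H * K * H))) / c2 ^ 2 := by positivity
    linarith
  have hc7L : 64 * (8 ^ (0 + 2) * ((L : ℝ) ^ 2 * (H * K * H))) ≤ c2 ^ 2 * c7 := by
    rw [hc7, mul_add, mul_div_cancel₀ _ (by positivity)]
    have : 0 < c2 ^ 2 * 1 := by positivity
    linarith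
  obtain ⟨c, hc⟩ : ∃ c : ℝ, c = min c6 (min (H * μ / (2 * c5 * c7 ^ 2)) (1 / (8 * c5))) := ⟨_, rfl⟩
  have hcp : 0 < c := by
    rw [hc]
    exact lt_min hc60 (lt_min (by positivity) (by positivity))
  have hcc6 : c ≤ c6 := by rw [hc]; exact min_le_left _ _
  have hcc7 : 2 * c5 * c7 ^ 2 * c ≤ H * μ := by
    have : c ≤ H * μ / (2 * c5 * c7 ^ 2) := by
      rw [hc]; exact (min_le_right _ _).trans (min_le_left _ _)
    rw [le_div_iff₀ (by positivity)] at this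
    linarith
  have hcc5 : 8 * c5 * c ≤ 1 := by
    have : c ≤ 1 / (8 * c5) := by
      rw [hc]; exact (min_le_right _ _).trans (min_le_right _ _)
    rw [le_div_iff₀ (by positivity)] at this
    linarith
  refine ⟨c, hcp, 2 * (4 * e + 2), fun A hne hK g hg hg1 hA => ?_⟩
  obtain ⟨n0, hn0⟩ := eventually_atTop.1 hA
  have hcast : Tendsto (fun N : ℕ => (N : ℝ)) atTop atTop := tendsto_natCast_atTop_atTop
  have hlog : Tendsto (fun N : ℕ => Real.log N) atTop atTop :=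
    Real.tendsto_log_atTop.comp tendsto_natCast_atTop_atTop
  have hlog2 : Tendsto (fun N : ℕ => c2 ^ 2 * (H * μ) * Real.log N ^ 2) atTop atTop :=
    ((tendsto_pow_atTop (by norm_num)).comp hlog).const_mul_atTop (by positivity)
  have ev1 := hlog2.eventually_ge_atTop ((32 * H) ^ 2 * (2 * c5) * 8 ^ (0 + 2))
  have ev2 := hlog.eventually_ge_atTop 1
  have ev3 := hcast.eventually_ge_atTop ((4 * c5 * (n0 + 1)) ^ 2)
  filter_upwards [ev1, ev2, ev3] with N n1 n2 n3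
  intro hGN
  obtain ⟨Γ, hΓ⟩ : ∃ Γ : ℝ, Γ = g N := ⟨_, rfl⟩
  have hΓ1 : 1 ≤ Γ := hΓ ▸ hg1 N
  have hΓ0 : 0 < Γ := by linarith
  obtain ⟨G, hG⟩ : ∃ G : ℝ, G = Γ ^ (4 * e + 2) := ⟨_, rfl⟩
  have hG1 : 1 ≤ G := by rw [hG]; exact one_le_pow₀ hΓ1
  have hG0 : 0 < G := by linarith
  have hGe : G = (Γ ^ (2 * e)) ^ 2 * Γ ^ 2 := by rw [hG, ← pow_mul, ← pow_add]; congr 1; ring
  have hΓG : Γ ^ 2 ≤ G := by rw [hG]; exact pow_le_pow_right₀ hΓ1 (by omega)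
  have hG2 : Γ ^ (2 * (4 * e + 2)) = G ^ 2 := by rw [hG, ← pow_mul]; congr 1; ring
  have hG4 : Γ ^ (2 * (2 * (4 * e + 2))) = G ^ 4 := by rw [hG, ← pow_mul]; congr 1; ring
  rw [← hΓ, hG4] at hGN
  rw [← hΓ, hG2]
  obtain ⟨x, hx⟩ : ∃ x : ℝ, x = (N : ℝ) := ⟨_, rfl⟩
  have hGx1 : 1 ≤ G ^ 4 := one_le_pow₀ hG1
  have hxc : G ^ 4 ≤ c * x := hx ▸ hGN
  have hc1 : c ≤ 1 := hcc6.trans hc64
  have hx0 : 0 < x := by
    by_contra h
    push Not at h
    nlinarith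
  have hxG : G ^ 4 ≤ x := hxc.trans (mul_le_of_le_one_left hx0.le hc1)
  have hGG2 : G ≤ G ^ 2 := by nlinarith
  have hG24 : G ^ 2 ≤ G ^ 4 := pow_le_pow_right₀ hG1 (by norm_num)
  obtain ⟨δ, hδ⟩ : ∃ δ : ℝ, δ = c6 / G ^ 2 := ⟨_, rfl⟩
  have hδ0 : 0 < δ := by rw [hδ]; positivity
  have hcδ : c / G ^ 2 ≤ δ := by
    rw [hδ]
    exact div_le_div_of_nonneg_right hcc6 (by positivity)
  have hmain := lin_at 0 K L (B := B) (m' := μ / Γ ^ 2) (cL := c2 / Γ ^ (2 * e)) (c4 := c3 / G)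
    (B1 := B1) (lam := c5 * G) (δ := δ) (C := c0 * Γ ^ 2) (F0 := c7 * G)
    (ℓ := Real.log N * G) (H := H) (by positivity) hB hH (by nlinarith) (by
      calc (H * K) ^ 2 ≤ c0 * (H * μ) := hc0K
        _ = c0 * Γ ^ 2 * (H * (μ / Γ ^ 2)) := by field_simp) (by positivity) (by
      intro φ h1 h2 h3 h4 h5 W hW b κ hκ
      have hle : 1 / (8 * (c0 * Γ ^ 2)) ≤ 1 := by
        rw [div_le_one (by positivity)]
        nlinarith
      have := hball (1 / (8 * (c0 * Γ ^ 2))) (by positivity) hle φ h1 h2 h3 h4 h5 W hW b κ hκ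
      have e1 : cb * (1 / (8 * (c0 * Γ ^ 2))) ^ e = c2 / Γ ^ (2 * e) := by
        rw [hc2, div_pow, div_pow, pow_mul Γ 2 e]
        rw [show (8 * (c0 * Γ ^ 2)) = (8 * c0) * Γ ^ 2 by ring, mul_pow (8 * c0) (Γ ^ 2) e]
        field_simp
      rw [e1] at this
      exact this) (by
      rw [hc3, hGe]
      field_simp) hB1 (by nlinarith) (by
      calc B1 ^ 2 ≤ c3 * c5 / 4 := hc5B
        _ = c3 / G / 4 * (c5 * G) := by field_simp) hδ0 (by
      rw [hδ]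
      calc c6 / G ^ 2 * (c5 * G) = (c6 * c5) / G := by field_simp
        _ ≤ (c6 * c5) / 1 := div_le_div_of_nonneg_left (by positivity) one_pos hG1
        _ ≤ 1 / 2 := by rw [div_one]; exact hc61) (by
      rw [hδ]
      calc B1 ^ 2 * (c6 / G ^ 2) = (B1 ^ 2 * c6) / G ^ 2 := by ring
        _ ≤ (c3 / (8 * c5)) / G ^ 2 := div_le_div_of_nonneg_right hc62 (by positivity)
        _ = c3 / G / (8 * (c5 * G)) := by field_simp) (by
      rw [hδ, div_pow]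
      have e1 : c6 ^ 2 ≤ c3 / 8 := by nlinarith
      have e2 : G ≤ (G ^ 2) ^ 2 := by nlinarith
      calc c6 ^ 2 / (G ^ 2) ^ 2 ≤ (c3 / 8) / (G ^ 2) ^ 2 :=
            div_le_div_of_nonneg_right e1 (by positivity)
        _ ≤ (c3 / 8) / G := div_le_div_of_nonneg_left (by positivity) hG0 e2
        _ = c3 / G / 8 := by ring) (by nlinarith) (by
      calc 64 * (8 ^ (0 + 2) * ((L : ℝ) ^ 2 * (H * K * H))) ≤ c2 ^ 2 * c7 := hc7L
        _ = c2 ^ 2 * c7 * 1 := by ring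
        _ ≤ c2 ^ 2 * c7 * Γ ^ 2 := mul_le_mul_of_nonneg_left (one_le_pow₀ hΓ1) (by positivity)
        _ = (c2 / Γ ^ (2 * e)) ^ 2 * (c7 * G) := by rw [hGe]; field_simp)
    A hne hK N (by
      have e1 : (c2 / Γ ^ (2 * e)) ^ 2 * (H * (μ / Γ ^ 2)) * (Real.log N * G) ^ 2 =
          (c2 ^ 2 * (H * μ) * Real.log N ^ 2) * G := by
        have e2 : (Real.log N * G) ^ 2 = Real.log N ^ 2 * G * G := by ring
        rw [e2]
        nth_rewrite 1 [hGe]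
        field_simp
      rw [e1]
      calc (32 * H) ^ 2 * (2 * (c5 * G)) * 8 ^ (0 + 2) =
            ((32 * H) ^ 2 * (2 * c5) * 8 ^ (0 + 2)) * G := by ring
        _ ≤ _ := mul_le_mul_of_nonneg_right n1 hG0.le) (by
      have : 0 < Real.log N := by linarith
      positivity) (by
      have : 0 ≤ Real.log N := by linarith
      exact le_mul_of_one_le_right this hG1) (by
      rw [← hx]
      calc 2 * (c5 * G) * (c7 * G) ^ (0 + 2) = (2 * c5 * c7 ^ 2) * G ^ 3 := by ring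
        _ ≤ H * (μ / Γ ^ 2) * x := by
          rw [show H * (μ / Γ ^ 2) * x = (H * μ * x) / Γ ^ 2 by ring, le_div_iff₀ (by positivity)]
          calc (2 * c5 * c7 ^ 2) * G ^ 3 * Γ ^ 2 ≤ (2 * c5 * c7 ^ 2) * G ^ 3 * G :=
                mul_le_mul_of_nonneg_left hΓG (by positivity)
            _ = (2 * c5 * c7 ^ 2) * G ^ 4 := by ring
            _ ≤ (2 * c5 * c7 ^ 2) * (c * x) := mul_le_mul_of_nonneg_left hxc (by positivity)
            _ = (2 * c5 * c7 ^ 2 * c) * x := by ring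
            _ ≤ (H * μ) * x := mul_le_mul_of_nonneg_right hcc7 hx0.le) (by
      rw [← hx]
      have e1 : 2 * (c5 * G) ≤ 8 * c5 * (c * x) := by
        have e2 : G ≤ c * x := hGG2.trans (hG24.trans hxc)
        have e3 : 8 * c5 * G ≤ 8 * c5 * (c * x) := mul_le_mul_of_nonneg_left e2 (by positivity)
        have e4 : 0 < c5 * G := by positivity
        linarith
      calc 2 * (c5 * G) ≤ (8 * c5 * c) * x := by linarith
        _ ≤ 1 * x := mul_le_mul_of_nonneg_right hcc5 hx0.le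
        _ = x := one_mul x) (by
      rw [hμ, hΓ]
      refine thin_at hg hg1 hC hn0 (by nlinarith) ?_ ?_
      · rw [← hx]
        have e1 : 4 * c5 * (n0 + 1) ≤ √x := by
          apply Real.le_sqrt_of_sq_le
          rw [hx]
          exact n3
        have e2 : G ≤ √x := by
          apply Real.le_sqrt_of_sq_le
          exact hG24.trans hxG
        calc 4 * (c5 * G) * (n0 + 1) = (4 * c5 * (n0 + 1)) * G := by ring
          _ ≤ √x * √x := mul_le_mul e1 e2 hG0.le (Real.sqrt_nonneg _)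
          _ = x := Real.mul_self_sqrt hx0.le
      · rw [← hx]
        have e2 : G ≤ c * x := hGG2.trans (hG24.trans hxc)
        calc 8 * (c5 * G) = 8 * c5 * G := by ring
          _ ≤ 8 * c5 * (c * x) := mul_le_mul_of_nonneg_left e2 (by positivity)
          _ = (8 * c5 * c) * x := by ring
          _ ≤ 1 * x := mul_le_mul_of_nonneg_right hcc5 hx0.le
          _ = x := one_mul x)
  intro W hW hWδ a haW ha1 hκ Θ α hP hα
  have h1 := hmain W hW (fun k hk => (hWδ k hk).trans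
    (mul_le_mul_of_nonneg_right hcδ (Nat.cast_nonneg N))) a haW ha1 hκ Θ α hP (by
      refine le_trans (le_of_eq ?_) hα
      ring)
  refine le_trans (mul_le_mul_of_nonneg_right hcδ (Nat.cast_nonneg N)) (h1.trans ?_)
  have h2 : (range (N + 1)).filter (fun n => (∀ k ∈ W, k ≤ n) ∧
      δ ≤ ‖Sc A (0 + 2) a n - PP Θ α n‖) ⊆ (range (N + 1)).filter (fun n => (∀ k ∈ W, k ≤ n) ∧
      c / G ^ 2 ≤ ‖Sc A (0 + 2) a n - PP Θ α n‖) := by
    intro n hn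
    rw [Finset.mem_filter] at hn ⊢
    exact ⟨hn.1, hn.2.1, hcδ.trans hn.2.2⟩
  exact_mod_cast Finset.card_le_card h2

end Pool.Agent.X8.OH
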