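import Pool.Agent.H303R3.ET.MomB
import Pool.Agent.X8.ET.Fix

/-!
# Order `h`: window sums of the numbers of tuples
-/

set_option autoImplicit false

open Finset Filter Topology MeasureTheory

namespace Pool.Agent.X8.OH

open Pool.Agent.H303R3 (tup mem_tup fr Rn)
open Pool.Agent.H303R3.ET (Mo slice_i)

/-- the number of `j`-tuples -/
noncomputable def tt (A : Set ℕ) (j n : ℕ) : ℝ := ((tup A j n).card : ℝ)

open Classical in
/-- indicator -/
noncomputable def ia (A : Set ℕ) (n : ℕ) : ℝ := if n ∈ A then 1 else 0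

open Classical in
/-- the number of tuples which are not injective -/
noncomputable def ni (A : Set ℕ) (j n : ℕ) : ℝ :=
  (((tup A j n).filter (fun x => ¬ Function.Injective x)).card : ℝ)

theorem tt_nonneg (A : Set ℕ) (j n : ℕ) : 0 ≤ tt A j n := Nat.cast_nonneg _
theorem ni_nonneg (A : Set ℕ) (j n : ℕ) : 0 ≤ ni A j n := Nat.cast_nonneg _
theorem ia_nonneg (A : Set ℕ) (n : ℕ) : 0 ≤ ia A n := by
  unfold ia; split_ifs <;> norm_num

theorem tt_zero (A : Set ℕ) (n : ℕ) : tt A 0 n = if n = 0 then 1 else 0 := by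
  classical
  unfold tt
  split_ifs with h
  · have : tup A 0 n = {Fin.elim0} := by
      ext x
      rw [mem_tup, mem_singleton]
      constructor
      · intro _; exact Subsingleton.elim _ _
      · intro _; exact ⟨fun i => i.elim0, by simp [h]⟩
    rw [this]; simp
  · have : tup A 0 n = ∅ := by
      rw [Finset.eq_empty_iff_forall_notMem]
      intro x hx
      rw [mem_tup] at hx
      apply h
      rw [← hx.2]; simp
    rw [this]; simp

theorem tt_succ (A : Set ℕ) (j n : ℕ) :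
    tt A (j + 1) n = ∑ p ∈ antidiagonal n, ia A p.1 * tt A j p.2 := by
  classical
  rw [Finset.Nat.sum_antidiagonal_eq_sum_range_succ (fun a m => ia A a * tt A j m)]
  have h1 : (tup A (j + 1) n).card = ∑ a ∈ range (n + 1),
      ((tup A (j + 1) n).filter (fun x => x 0 = a)).card := by
    refine Finset.card_eq_sum_card_fiberwise ?_
    intro x hx
    rw [Finset.mem_coe, mem_tup] at hx
    rw [Finset.mem_coe, mem_range, Nat.lt_succ_iff, ← hx.2]
    exact Finset.single_le_sum (f := fun i => x i) (fun _ _ => Nat.zero_le _) (Finset.mem_univ 0)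
  unfold tt
  rw [h1]
  push_cast
  refine Finset.sum_congr rfl fun a ha => ?_
  have han : a ≤ n := Nat.lt_succ_iff.1 (mem_range.1 ha)
  rw [Pool.Agent.H303R3.ET.slice]
  unfold ia
  by_cases h : a ∈ A
  · rw [if_pos ⟨h, han⟩, if_pos h, one_mul]
  · rw [if_neg (fun hc => h hc.1), if_neg h, zero_mul, Nat.cast_zero]

theorem tt_ge (A : Set ℕ) (j n a : ℕ) (ha : a ∈ A) (han : a ≤ n) :
    ((j : ℝ) + 1) * tt A j (n - a) ≤ tt A (j + 1) n + (j + 1) * ni A (j + 1) n := by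
  classical
  obtain ⟨T, hT⟩ : ∃ T, T = tup A (j + 1) n := ⟨_, rfl⟩
  have h1 : ∀ i : Fin (j + 1), (T.filter (fun x => x i = a)).card = (tup A j (n - a)).card := by
    intro i
    rw [hT, slice_i, Pool.Agent.H303R3.ET.slice, if_pos ⟨ha, han⟩]
  have h2 : (j + 1) * (tup A j (n - a)).card = ∑ x ∈ T, ∑ i : Fin (j + 1),
      (if x i = a then 1 else 0) := by
    rw [Finset.sum_comm]
    have : ∀ i : Fin (j + 1), ∑ x ∈ T, (if x i = a then 1 else 0) = (tup A j (n - a)).card := by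
      intro i
      rw [← h1 i, Finset.card_filter]
    simp only [this, Finset.sum_const, Finset.card_univ, Fintype.card_fin, smul_eq_mul]
  have h3 : ∀ x ∈ T, ∑ i : Fin (j + 1), (if x i = a then 1 else 0) ≤
      1 + (if ¬ Function.Injective x then (j + 1) else 0) := by
    intro x _
    rw [← Finset.card_filter]
    by_cases hx : Function.Injective x
    · rw [if_neg (not_not.mpr hx), add_zero]
      apply Finset.card_le_one.mpr
      intro i1 h1 i2 h2
      apply hx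
      rw [(Finset.mem_filter.mp h1).2, (Finset.mem_filter.mp h2).2]
    · rw [if_pos hx]
      refine (Finset.card_filter_le _ _).trans ?_
      rw [Finset.card_univ, Fintype.card_fin]
      omega
  have h4 : (j + 1) * (tup A j (n - a)).card ≤ T.card +
      (j + 1) * (T.filter (fun x => ¬ Function.Injective x)).card := by
    rw [h2]
    refine (Finset.sum_le_sum h3).trans (le_of_eq ?_)
    rw [Finset.sum_add_distrib, ← Finset.sum_filter, Finset.sum_const, Finset.sum_const,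
      smul_eq_mul, smul_eq_mul, mul_one, mul_comm (j + 1)]
  rw [hT] at h4
  unfold tt ni
  exact_mod_cast h4

/-! ### convolution -/

/-- window sums of the numbers of tuples -/
noncomputable def Sj (A : Set ℕ) (w : ℕ → ℝ) (j n : ℕ) : ℝ :=
  ∑ p ∈ antidiagonal n, w p.1 * tt A j p.2

noncomputable def NI (A : Set ℕ) (w : ℕ → ℝ) (j n : ℕ) : ℝ :=
  ∑ p ∈ antidiagonal n, w p.1 * ni A j p.2

theorem Sj_nonneg (A : Set ℕ) {w : ℕ → ℝ} (hw : ∀ k, 0 ≤ w k) (j n : ℕ) : 0 ≤ Sj A w j n :=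
  Finset.sum_nonneg fun _ _ => mul_nonneg (hw _) (tt_nonneg _ _ _)

theorem NI_nonneg (A : Set ℕ) {w : ℕ → ℝ} (hw : ∀ k, 0 ≤ w k) (j n : ℕ) : 0 ≤ NI A w j n :=
  Finset.sum_nonneg fun _ _ => mul_nonneg (hw _) (ni_nonneg _ _ _)

theorem Sj_zero (A : Set ℕ) (w : ℕ → ℝ) (n : ℕ) : Sj A w 0 n = w n := by
  unfold Sj
  rw [Finset.Nat.sum_antidiagonal_eq_sum_range_succ (fun a m => w a * tt A 0 m),
    Finset.sum_range_succ, Finset.sum_eq_zero, zero_add, Nat.sub_self, tt_zero, if_pos rfl, mul_one]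
  intro k hk
  rw [tt_zero, if_neg (by have := mem_range.1 hk; omega), mul_zero]

theorem Sj_succ (A : Set ℕ) (w : ℕ → ℝ) (j n : ℕ) :
    Sj A w (j + 1) n = ∑ p ∈ antidiagonal n, ia A p.1 * Sj A w j p.2 := by
  obtain ⟨PW, hPW⟩ : ∃ P : PowerSeries ℝ, P = PowerSeries.mk w := ⟨_, rfl⟩
  obtain ⟨PI, hPI⟩ : ∃ P : PowerSeries ℝ, P = PowerSeries.mk (ia A) := ⟨_, rfl⟩
  obtain ⟨PT, hPT⟩ : ∃ P : ℕ → PowerSeries ℝ, P = fun j => PowerSeries.mk (tt A j) := ⟨_, rfl⟩
  have h1 : PT (j + 1) = PI * PT j := by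
    rw [hPT, hPI]
    ext m
    rw [PowerSeries.coeff_mul, PowerSeries.coeff_mk, tt_succ]
    simp only [PowerSeries.coeff_mk]
  have h2 : ∀ i m, Sj A w i m = PowerSeries.coeff m (PW * PT i) := by
    intro i m
    rw [PowerSeries.coeff_mul, hPW, hPT]
    simp only [PowerSeries.coeff_mk]
    rfl
  rw [h2, h1, mul_left_comm, PowerSeries.coeff_mul]
  refine Finset.sum_congr rfl fun p _ => ?_
  rw [h2, hPI, PowerSeries.coeff_mk]

theorem Sj_ge (A : Set ℕ) {w : ℕ → ℝ} (hw : ∀ k, 0 ≤ w k) (j n a : ℕ) (ha : a ∈ A) (han : a ≤ n) :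
    ((j : ℝ) + 1) * Sj A w j (n - a) ≤ Sj A w (j + 1) n + (j + 1) * NI A w (j + 1) n := by
  unfold Sj NI
  rw [Finset.Nat.sum_antidiagonal_eq_sum_range_succ (fun k m => w k * tt A j m),
    Finset.Nat.sum_antidiagonal_eq_sum_range_succ (fun k m => w k * tt A (j + 1) m),
    Finset.Nat.sum_antidiagonal_eq_sum_range_succ (fun k m => w k * ni A (j + 1) m),
    Finset.mul_sum, Finset.mul_sum, ← Finset.sum_add_distrib]
  have h1 : ∀ k ∈ range (n - a + 1), ((j : ℝ) + 1) * (w k * tt A j (n - a - k)) ≤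
      w k * tt A (j + 1) (n - k) + (j + 1) * (w k * ni A (j + 1) (n - k)) := by
    intro k hk
    have hk2 : k ≤ n - a := Nat.lt_succ_iff.1 (mem_range.1 hk)
    have h2 := tt_ge A j (n - k) a ha (by omega)
    have h3 : n - k - a = n - a - k := by omega
    rw [h3] at h2
    have h4 := mul_le_mul_of_nonneg_left h2 (hw k)
    linarith
  refine (Finset.sum_le_sum h1).trans ?_
  refine Finset.sum_le_sum_of_subset_of_nonneg ?_ ?_
  · intro k hk
    rw [mem_range] at hk ⊢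
    omega
  · intro k _ _
    have e1 := mul_nonneg (hw k) (tt_nonneg A (j + 1) (n - k))
    have e2 := mul_nonneg (hw k) (ni_nonneg A (j + 1) (n - k))
    have e3 : (0 : ℝ) ≤ j := Nat.cast_nonneg j
    positivity

/-- the recursive inequality, pointwise -/
theorem rec_pt (A : Set ℕ) {w : ℕ → ℝ} (hw : ∀ k, 0 ≤ w k) (j n : ℕ) :
    ((j : ℝ) + 1) * ∑ p ∈ antidiagonal n, ia A p.1 * Sj A w j p.2 ^ 2 ≤
      Sj A w (j + 1) n ^ 2 + (j + 1) * (NI A w (j + 1) n * Sj A w (j + 1) n) := by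
  have h1 : ∀ p ∈ antidiagonal n, ((j : ℝ) + 1) * (ia A p.1 * Sj A w j p.2 ^ 2) ≤
      (ia A p.1 * Sj A w j p.2) * (Sj A w (j + 1) n + (j + 1) * NI A w (j + 1) n) := by
    intro p hp
    rw [HasAntidiagonal.mem_antidiagonal] at hp
    unfold ia
    split_ifs with h
    · have h2 := Sj_ge A hw j n p.1 h (by omega)
      have h3 : n - p.1 = p.2 := by omega
      rw [h3] at h2
      have h4 := mul_le_mul_of_nonneg_left h2 (Sj_nonneg A hw j p.2)
      linarith
    · simp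
  rw [Finset.mul_sum]
  refine (Finset.sum_le_sum h1).trans (le_of_eq ?_)
  rw [← Finset.sum_mul, ← Sj_succ]
  ring

/-! ### generating functions -/

theorem conv_hasSum {u v : ℕ → ℝ} {q : ℝ} (hu : Summable fun n => ‖u n * q ^ n‖)
    (hv : Summable fun n => ‖v n * q ^ n‖) :
    HasSum (fun n => (∑ p ∈ antidiagonal n, u p.1 * v p.2) * q ^ n)
      ((∑' n, u n * q ^ n) * ∑' n, v n * q ^ n) := by
  have h1 := summable_norm_sum_mul_antidiagonal_of_summable_norm hu hv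
  have h2 := tsum_mul_tsum_eq_tsum_sum_antidiagonal_of_summable_norm hu hv
  rw [h2]
  have e : ∀ n, (∑ p ∈ antidiagonal n, u p.1 * v p.2) * q ^ n =
      ∑ p ∈ antidiagonal n, (u p.1 * q ^ p.1) * (v p.2 * q ^ p.2) := by
    intro n
    rw [Finset.sum_mul]
    refine Finset.sum_congr rfl fun p hp => ?_
    rw [HasAntidiagonal.mem_antidiagonal] at hp
    rw [← hp, pow_add]
    ring
  simp_rw [e]
  exact h1.of_norm.hasSum

theorem bdd_summable {u : ℕ → ℝ} {B q : ℝ} (h : ∀ n, |u n| ≤ B) (h0 : 0 ≤ q) (h1 : q < 1) :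
    Summable fun n => ‖u n * q ^ n‖ := by
  refine Summable.of_nonneg_of_le (fun n => norm_nonneg _) (fun n => ?_)
    ((summable_geometric_of_lt_one h0 h1).mul_left B)
  rw [norm_mul, Real.norm_eq_abs, Real.norm_of_nonneg (by positivity : (0 : ℝ) ≤ q ^ n)]
  exact mul_le_mul_of_nonneg_right (h n) (by positivity)

theorem ia_tsum (A : Set ℕ) (q : ℝ) : ∑' n, ia A n * q ^ n = fr A q := by
  unfold ia fr
  rfl

theorem ia_bdd (A : Set ℕ) (n : ℕ) : |ia A n| ≤ 1 := by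
  unfold ia; split_ifs <;> simp

theorem Sj_le (A : Set ℕ) {W : Finset ℕ} {w : ℕ → ℝ} (hw : ∀ k, 0 ≤ w k) (hW : ∀ k ∉ W, w k = 0)
    {u : ℕ → ℝ} {K : ℝ} (hK : ∀ n, u n ≤ K) (hK0 : 0 ≤ K) (n : ℕ) :
    ∑ p ∈ antidiagonal n, w p.1 * u p.2 ≤ K * ∑ k ∈ W, w k := by
  calc ∑ p ∈ antidiagonal n, w p.1 * u p.2 ≤ ∑ p ∈ antidiagonal n, K * w p.1 := by
        refine Finset.sum_le_sum fun p _ => ?_
        rw [mul_comm]
        exact mul_le_mul_of_nonneg_right (hK p.2) (hw _)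
    _ = K * ∑ k ∈ range (n + 1), w k := by
        rw [← Finset.mul_sum, Finset.Nat.sum_antidiagonal_eq_sum_range_succ (fun i _ => w i)]
    _ ≤ K * ∑ k ∈ W, w k := by
        refine mul_le_mul_of_nonneg_left ?_ hK0
        calc ∑ k ∈ range (n + 1), w k = ∑ k ∈ (range (n + 1)).filter (· ∈ W), w k := by
              rw [Finset.sum_filter]
              refine Finset.sum_congr rfl fun k _ => ?_
              split_ifs with h
              · rfl
              · exact hW k h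
          _ ≤ ∑ k ∈ W, w k := Finset.sum_le_sum_of_subset_of_nonneg
              (fun k hk => (Finset.mem_filter.1 hk).2) fun k _ _ => hw k

/-- the moments of the window sums -/
noncomputable def mo (A : Set ℕ) (w : ℕ → ℝ) (j : ℕ) (q : ℝ) : ℝ := ∑' n, Sj A w j n ^ 2 * q ^ n

theorem mo_nonneg (A : Set ℕ) (w : ℕ → ℝ) (j : ℕ) {q : ℝ} (h0 : 0 ≤ q) : 0 ≤ mo A w j q :=
  tsum_nonneg fun n => by positivity

theorem ni_tsum (A : Set ℕ) {j : ℕ} {q : ℝ} (h0 : 0 ≤ q) (h1 : q < 1) (hf : 1 ≤ fr A q) :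
    (Summable fun n => ni A (j + 1) n * q ^ n) ∧
      ∑' n, ni A (j + 1) n * q ^ n ≤ (j + 1).factorial * fr A q ^ j := by
  classical
  have hs3 : ∀ σ : Equiv.Perm (Fin (j + 1)), Summable fun n =>
      ‖PowerSeries.coeff n (Pool.Agent.H303R3.Fs A σ)‖ * q ^ n :=
    fun σ => Pool.Agent.H303R3.conv_Fs A σ q h0 h1
  have hs4 : HasSum (fun n => ∑ σ ∈ Finset.univ.erase (1 : Equiv.Perm (Fin (j + 1))),
      ‖PowerSeries.coeff n (Pool.Agent.H303R3.Fs A σ)‖ * q ^ n)
      (∑ σ ∈ Finset.univ.erase (1 : Equiv.Perm (Fin (j + 1))),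
      ∑' n, ‖PowerSeries.coeff n (Pool.Agent.H303R3.Fs A σ)‖ * q ^ n) :=
    hasSum_sum fun σ _ => (hs3 σ).hasSum
  have hpt : ∀ n, ni A (j + 1) n * q ^ n ≤
      ∑ σ ∈ Finset.univ.erase (1 : Equiv.Perm (Fin (j + 1))),
      ‖PowerSeries.coeff n (Pool.Agent.H303R3.Fs A σ)‖ * q ^ n := by
    intro n
    rw [← Finset.sum_mul]
    refine mul_le_mul_of_nonneg_right ?_ (by positivity)
    have h3 := Pool.Agent.H303R3.ET.noninj_le A (j + 1) n
    unfold ni
    simp only [Pool.Agent.H303R3.ET.Fs_coeff_card]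
    exact_mod_cast h3
  have hs5 : Summable fun n => ni A (j + 1) n * q ^ n :=
    Summable.of_nonneg_of_le (fun n => mul_nonneg (ni_nonneg _ _ _) (by positivity)) hpt hs4.summable
  refine ⟨hs5, (hasSum_le hpt hs5.hasSum hs4).trans ?_⟩
  calc ∑ σ ∈ Finset.univ.erase (1 : Equiv.Perm (Fin (j + 1))),
        ∑' n, ‖PowerSeries.coeff n (Pool.Agent.H303R3.Fs A σ)‖ * q ^ n
      ≤ ∑ _σ ∈ Finset.univ.erase (1 : Equiv.Perm (Fin (j + 1))), fr A q ^ j := by
        apply Finset.sum_le_sum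
        intro σ hσ
        have := Pool.Agent.H303R3.ET.tsum_Fs A σ (Finset.ne_of_mem_erase hσ) h0 h1 hf
        rwa [Nat.add_sub_cancel] at this
    _ = (Finset.univ.erase (1 : Equiv.Perm (Fin (j + 1)))).card * fr A q ^ j := by
        rw [Finset.sum_const, nsmul_eq_mul]
    _ ≤ (j + 1).factorial * fr A q ^ j := by
        apply mul_le_mul_of_nonneg_right _ (pow_nonneg (Pool.Agent.H303R3.fr_nonneg A h0) _)
        have : (Finset.univ.erase (1 : Equiv.Perm (Fin (j + 1)))).card ≤ (j + 1).factorial := by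
          refine (Finset.card_erase_le).trans (le_of_eq ?_)
          rw [Finset.card_univ, Fintype.card_perm, Fintype.card_fin]
        exact_mod_cast this

/-- the recursive inequality for the moments -/
theorem mo_rec {A : Set ℕ} {W : Finset ℕ} {w : ℕ → ℝ} (hw : ∀ k, 0 ≤ w k)
    (hW : ∀ k ∉ W, w k = 0) {j K' : ℕ} (h : ∀ n, (tup A j n).card ≤ K')
    (h' : ∀ n, (tup A (j + 1) n).card ≤ K') {q : ℝ} (h0 : 0 ≤ q) (h1 : q < 1) (hf : 1 ≤ fr A q) :
    ((j : ℝ) + 1) * (fr A q * mo A w j q) ≤ mo A w (j + 1) q +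
      (j + 1) * K' * (j + 1).factorial * (∑ k ∈ W, w k) ^ 2 * fr A q ^ j := by
  obtain ⟨s, hs⟩ : ∃ s : ℝ, s = ∑ k ∈ W, w k := ⟨_, rfl⟩
  have hs0 : 0 ≤ s := hs ▸ Finset.sum_nonneg fun k _ => hw k
  have hK' : (0 : ℝ) ≤ K' := Nat.cast_nonneg _
  have hS : ∀ i, (∀ n, (tup A i n).card ≤ K') → ∀ n, Sj A w i n ≤ K' * s := by
    intro i hi n
    rw [hs]
    exact Sj_le A hw hW (u := tt A i) (fun m => by unfold tt; exact_mod_cast hi m) hK' n
  have hSb : ∀ i, (∀ n, (tup A i n).card ≤ K') → ∀ n, |Sj A w i n ^ 2| ≤ (K' * s) ^ 2 := by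
    intro i hi n
    rw [abs_of_nonneg (sq_nonneg _)]
    exact pow_le_pow_left₀ (Sj_nonneg A hw i n) (hS i hi n) 2
  -- the left hand side
  have c1 := conv_hasSum (u := ia A) (v := fun n => Sj A w j n ^ 2) (q := q)
    (bdd_summable (ia_bdd A) h0 h1) (bdd_summable (hSb j h) h0 h1)
  rw [ia_tsum] at c1
  have c2 := c1.mul_left ((j : ℝ) + 1)
  have c3 : HasSum (fun n => Sj A w (j + 1) n ^ 2 * q ^ n) (mo A w (j + 1) q) :=
    (bdd_summable (hSb (j + 1) h') h0 h1).of_norm.hasSum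
  -- the error
  obtain ⟨n1, n2⟩ := ni_tsum A (j := j) h0 h1 hf
  have hwW : ∀ q : ℝ, Summable fun n => ‖w n * q ^ n‖ := fun q => (ET.w_summable hW q).norm
  have c4 := conv_hasSum (u := w) (v := ni A (j + 1)) (q := q) (hwW q) n1.norm
  have c5 : ∑' n, w n * q ^ n ≤ s := by
    rw [tsum_eq_sum (s := W) fun k hk => by rw [hW k hk, zero_mul], hs]
    exact Finset.sum_le_sum fun k _ => mul_le_of_le_one_right (hw k) (pow_le_one₀ h0 h1.le)
  have c6 := (c4.mul_left (((j : ℝ) + 1) * (K' * s)))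
  have hpt : ∀ n, ((j : ℝ) + 1) * ((∑ p ∈ antidiagonal n, ia A p.1 * Sj A w j p.2 ^ 2) * q ^ n) ≤
      Sj A w (j + 1) n ^ 2 * q ^ n + ((j : ℝ) + 1) * (K' * s) *
        ((∑ p ∈ antidiagonal n, w p.1 * ni A (j + 1) p.2) * q ^ n) := by
    intro n
    have e1 := rec_pt A hw j n
    have e2 : NI A w (j + 1) n * Sj A w (j + 1) n ≤ NI A w (j + 1) n * (K' * s) :=
      mul_le_mul_of_nonneg_left (hS (j + 1) h' n) (NI_nonneg A hw _ _)
    have e3 : ((j : ℝ) + 1) * (NI A w (j + 1) n * Sj A w (j + 1) n) ≤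
        ((j : ℝ) + 1) * (NI A w (j + 1) n * (K' * s)) :=
      mul_le_mul_of_nonneg_left e2 (by positivity)
    have e4 : ((j : ℝ) + 1) * ∑ p ∈ antidiagonal n, ia A p.1 * Sj A w j p.2 ^ 2 ≤
        Sj A w (j + 1) n ^ 2 + ((j : ℝ) + 1) * (NI A w (j + 1) n * (K' * s)) := by linarith
    have e5 := mul_le_mul_of_nonneg_right e4 (show 0 ≤ q ^ n by positivity)
    have e6 : NI A w (j + 1) n = ∑ p ∈ antidiagonal n, w p.1 * ni A (j + 1) p.2 := rfl
    rw [e6] at e5
    linarith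
  have hle := hasSum_le hpt c2 (c3.add c6)
  refine hle.trans (add_le_add le_rfl ?_)
  have hn0 : 0 ≤ ∑' n, ni A (j + 1) n * q ^ n :=
    tsum_nonneg fun n => mul_nonneg (ni_nonneg _ _ _) (by positivity)
  have e7 : (∑' n, w n * q ^ n) * ∑' n, ni A (j + 1) n * q ^ n ≤
      s * ((j + 1).factorial * fr A q ^ j) := mul_le_mul c5 n2 hn0 hs0
  calc ((j : ℝ) + 1) * (K' * s) * ((∑' n, w n * q ^ n) * ∑' n, ni A (j + 1) n * q ^ n)
      ≤ ((j : ℝ) + 1) * (K' * s) * (s * ((j + 1).factorial * fr A q ^ j)) :=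
        mul_le_mul_of_nonneg_left e7 (by positivity)
    _ = _ := by rw [← hs]; ring

/-- lower bound for the moments -/
theorem mo_low {A : Set ℕ} {K' k : ℕ} (h : ∀ j, j ≤ k → ∀ n, (tup A j n).card ≤ K') (j : ℕ)
    (hj : j ≤ k) : ∃ C : ℝ, 0 ≤ C ∧ ∀ (W : Finset ℕ) (w : ℕ → ℝ), (∀ k, 0 ≤ w k) →
      (∀ k ∉ W, w k = 0) → ∀ q : ℝ, 0 ≤ q → q < 1 → 1 ≤ fr A q →
      j.factorial * fr A q ^ (j + 1) * (∑ k ∈ W, w k ^ 2 * q ^ k) ≤
        fr A q * mo A w j q + C * (∑ k ∈ W, w k) ^ 2 * fr A q ^ j := by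
  induction j with
  | zero =>
    refine ⟨0, le_rfl, fun W w hw hW q h0 h1 hf => ?_⟩
    have e : mo A w 0 q = ∑ k ∈ W, w k ^ 2 * q ^ k := by
      unfold mo
      simp_rw [Sj_zero]
      exact tsum_eq_sum fun k hk => by rw [hW k hk]; norm_num
    rw [e]
    simp
  | succ j ih =>
    obtain ⟨C, hC0, hC⟩ := ih (by omega)
    refine ⟨(j + 1) * C + (j + 1) * K' * (j + 1).factorial, by positivity,
      fun W w hw hW q h0 h1 hf => ?_⟩
    have h2 := hC W w hw hW q h0 h1 hf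
    have h3 := mo_rec hw hW (h j (by omega)) (h (j + 1) hj) h0 h1 hf
    have hf0 : 0 ≤ fr A q := by linarith
    obtain ⟨s, hs⟩ : ∃ s : ℝ, s = ∑ k ∈ W, w k := ⟨_, rfl⟩
    obtain ⟨B, hB⟩ : ∃ B : ℝ, B = ∑ k ∈ W, w k ^ 2 * q ^ k := ⟨_, rfl⟩
    rw [← hs, ← hB] at h2
    rw [← hs] at h3
    rw [← hs, ← hB]
    have h4 := mul_le_mul_of_nonneg_left h2 (show (0 : ℝ) ≤ (j : ℝ) + 1 by positivity)
    have h5 : ((j : ℝ) + 1) * (j.factorial * fr A q ^ (j + 1) * B) ≤ mo A w (j + 1) q +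
        ((j + 1) * C + (j + 1) * K' * (j + 1).factorial) * s ^ 2 * fr A q ^ j := by
      linarith
    have h6 := mul_le_mul_of_nonneg_left h5 hf0
    rw [Nat.factorial_succ] at h6 ⊢
    push_cast at h6 ⊢
    calc ((j : ℝ) + 1) * j.factorial * fr A q ^ (j + 1 + 1) * B =
          fr A q * (((j : ℝ) + 1) * (j.factorial * fr A q ^ (j + 1) * B)) := by ring
      _ ≤ _ := h6
      _ = _ := by ring

end Pool.Agent.X8.OH
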